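import Pool.Agent.Q30.FK.CM

/-!
# Statements of the algebraic lemmas

Project: the reduced cohomology ring of the second Frobenius kernel of the Borel subgroup of
`SL_3` in characteristic two is not Cohen-Macaulay.
-/

universe u

namespace Q30.FK

open MvPolynomial

/-- Job CM.  A ring `S` which is finite over the polynomial ring `k[x_0, ..., x_5]`, with
`x_0, x_1` killing `x_2, x_3`, such that the kernel of `k[x] -> S` is contained in `(x_0, x_1)` and
in `(x_2, x_3)`, and with only one maximal ideal `m` over the origin, is not Cohen-Macaulay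
at `m`. -/
def P_CM : Prop :=
  ∀ (k : Type) [Field k] (S : Type u) [CommRing S] (f : MvPolynomial (Fin 6) k →+* S),
    f.Finite →
    f (X 0 * X 2) = 0 → f (X 0 * X 3) = 0 → f (X 1 * X 2) = 0 → f (X 1 * X 3) = 0 →
    (∀ p, f p = 0 → p ∈ Ideal.span ({X 0, X 1} : Set (MvPolynomial (Fin 6) k))) →
    (∀ p, f p = 0 → p ∈ Ideal.span ({X 2, X 3} : Set (MvPolynomial (Fin 6) k))) →
    ∀ (m : Ideal S) [m.IsMaximal], (∀ i, f (X i) ∈ m) →
      (∀ m' : Ideal S, m'.IsMaximal → (∀ i, f (X i) ∈ m') → m' = m) →
      ¬ IsCMLocal (Localization.AtPrime m)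

/-- Projections onto the homogeneous components of a ring graded by the natural numbers. -/
structure Comp (H : Type u) [CommRing H] where
  /-- The component of degree `n`. -/
  pr : ℕ → H →+ H
  /-- Every element is the sum of its components. -/
  sum : ∀ x, ∃ N, x = ∑ n ∈ Finset.range N, pr n x
  /-- The projections are orthogonal idempotents. -/
  idem : ∀ m n x, pr m (pr n x) = if m = n then pr n x else 0
  /-- Components of a product with a homogeneous element. -/
  mul : ∀ m n x y, pr m x = x → pr (m + n) (x * y) = x * pr n y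
  /-- A product with an element of degree `m` has no components of degree smaller than `m`. -/
  mul_lt : ∀ m j x y, pr m x = x → j < m → pr j (x * y) = 0

/-- Job NAK.  Graded Nakayama lemma: `P = k[x_0, ..., x_5]` acts on the graded ring `H` through
homogeneous elements of positive degrees, `lam` is homogeneous of degree one and a power of it is
the image of a variable, and the annihilator of the `P`-linear map `f` into a finite module is
contained in `lam H`.  Then `H` is a finite `P`-module. -/
def P_NAK : Prop :=
  ∀ (k : Type) [Field k] (H : Type u) [CommRing H] [Algebra (MvPolynomial (Fin 6) k) H]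
    (C : Comp H) (M : Type u) [AddCommGroup M] [Module (MvPolynomial (Fin 6) k) M]
    [Module.Finite (MvPolynomial (Fin 6) k) M] (f : H →ₗ[MvPolynomial (Fin 6) k] M) (lam : H)
    (e : Fin 6 → ℕ),
    (∀ i, 0 < e i) →
    (∀ i, C.pr (e i) (algebraMap (MvPolynomial (Fin 6) k) H (X i)) =
      algebraMap (MvPolynomial (Fin 6) k) H (X i)) →
    (∀ c : k, C.pr 0 (algebraMap (MvPolynomial (Fin 6) k) H (MvPolynomial.C c)) =
      algebraMap (MvPolynomial (Fin 6) k) H (MvPolynomial.C c)) →
    C.pr 1 lam = lam →
    (∃ i N, 0 < N ∧ lam ^ N = algebraMap (MvPolynomial (Fin 6) k) H (X i)) →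
    (∀ x, f x = 0 → ∃ y, x = lam * y) →
    Module.Finite (MvPolynomial (Fin 6) k) H

/-- Job LOC.  If the graded ring `H` is finite over `P = k[x_0, ..., x_5]` acting through
homogeneous elements of positive degrees, and all elements of degree zero are constants, then
the maximal ideals of `H` over the origin coincide. -/
def P_LOC : Prop :=
  ∀ (k : Type) [Field k] (H : Type u) [CommRing H] [Algebra (MvPolynomial (Fin 6) k) H]
    [Module.Finite (MvPolynomial (Fin 6) k) H]
    (C : Comp H) (e : Fin 6 → ℕ),
    (∀ i, 0 < e i) →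
    (∀ i, C.pr (e i) (algebraMap (MvPolynomial (Fin 6) k) H (X i)) =
      algebraMap (MvPolynomial (Fin 6) k) H (X i)) →
    (∀ c : k, C.pr 0 (algebraMap (MvPolynomial (Fin 6) k) H (MvPolynomial.C c)) =
      algebraMap (MvPolynomial (Fin 6) k) H (MvPolynomial.C c)) →
    (∀ x, C.pr 0 x = x →
      ∃ c : k, x = algebraMap (MvPolynomial (Fin 6) k) H (MvPolynomial.C c)) →
    ∀ m m' : Ideal H, m.IsMaximal → m'.IsMaximal →
      (∀ i, algebraMap (MvPolynomial (Fin 6) k) H (X i) ∈ m) →
      (∀ i, algebraMap (MvPolynomial (Fin 6) k) H (X i) ∈ m') → m = m'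

end Q30.FK
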