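import Pool.Agent.Q30.FK.Stm2

/-!
# The Gysin sequences and the structure of algebras over the polynomial ring
-/

namespace Q30.FK

open MvPolynomial

variable {k : Type} [Field k] [CharP k 2]

theorem fnN0_mul_apply (f : ∀ X : Alg k, (ℕ → Bor X) → X.A) (nat) (loc) (G : Ch k) (X : Alg k)
    (n : ℕ) (g : ℕ → Bor X) : (fnN 0 f nat loc * G).1 X n g = f X g * G.1 X n g := by
  rw [coe_mul_apply, Finset.sum_eq_single (0, n)]
  · rw [fnN_apply, if_pos rfl]
    rfl
  · rintro ⟨i, j⟩ h hne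
    rw [Finset.HasAntidiagonal.mem_antidiagonal] at h
    rw [fnN_apply, if_neg, zero_mul]
    rintro rfl
    apply hne
    simp only at h
    rw [← h, zero_add]
  · intro h
    exact absurd (by simp) h

theorem fc_apply (X : Alg k) (n : ℕ) (g : ℕ → Bor X) :
    (fc k).1 X n g = if n = 0 then cc (g 0) else 0 := rfl
theorem fb_apply (X : Alg k) (n : ℕ) (g : ℕ → Bor X) :
    (fb k).1 X n g = if n = 0 then cb (g 0) else 0 := rfl
theorem fa_apply (X : Alg k) (n : ℕ) (g : ℕ → Bor X) :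
    (fa k).1 X n g = if n = 0 then ca (g 0) else 0 := rfl

theorem fc_mul_apply (F : Ch k) (X : Alg k) (n : ℕ) (g : ℕ → Bor X) :
    (fc k * F).1 X n g = cc (g 0) * F.1 X n g := fnN0_mul_apply _ _ _ F X n g
theorem fb_mul_apply (F : Ch k) (X : Alg k) (n : ℕ) (g : ℕ → Bor X) :
    (fb k * F).1 X n g = cb (g 0) * F.1 X n g := fnN0_mul_apply _ _ _ F X n g
theorem fa_mul_apply (F : Ch k) (X : Alg k) (n : ℕ) (g : ℕ → Bor X) :
    (fa k * F).1 X n g = ca (g 0) * F.1 X n g := fnN0_mul_apply _ _ _ F X n g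

theorem d_fc_apply (X : Alg k) (n : ℕ) (g : ℕ → Bor X) :
    (dCh (fc k)).1 X n g = if n = 1 then cc (g 0) + cc (g 1) else 0 := by
  match n with
  | 0 => rfl
  | 1 =>
    rw [dCh_succ, Finset.sum_range_succ, Finset.sum_range_one]
    change cc (g 1) + cc (g 0) = _
    rw [if_pos rfl, add_comm]
  | n + 2 =>
    rw [dCh_succ, if_neg (by omega)]
    exact Finset.sum_eq_zero (fun l _ => rfl)

theorem d_fcc_apply (X : Alg k) (n : ℕ) (g : ℕ → Bor X) :
    (dCh (fc k * fc k)).1 X n g = if n = 1 then cc (g 0) ^ 2 + cc (g 1) ^ 2 else 0 := by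
  match n with
  | 0 => rfl
  | 1 =>
    rw [dCh_succ, Finset.sum_range_succ, Finset.sum_range_one, fc_mul_apply, fc_mul_apply]
    change cc (g 1) * cc (g 1) + cc (g 0) * cc (g 0) = _
    rw [if_pos rfl]
    ring
  | n + 2 =>
    rw [dCh_succ, if_neg (by omega)]
    refine Finset.sum_eq_zero (fun l _ => ?_)
    rw [fc_mul_apply, fc_apply, if_neg (by omega), mul_zero]

/-- The differential of the generator of a step is invariant. -/
theorem d_stepElt_mem (hc : P_CLS) (i : ℕ) (hi : i < 6) :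
    dCh (stepElt k i) ∈ inv k (En k (i + 1)) := by
  obtain ⟨-, -, -, -, h1, h2, h3, h4, -⟩ := hc k
  have hcc : ∀ (X : Alg k) (h g : Bor X), h.1 0 0 = 1 → h.1 1 1 = 1 → h.1 2 2 = 1 →
      h.1 0 1 = 0 → cc (h * g) = cc h + cc g := by
    intro X h g e0 e1 e2 e3
    have ea : ca h = 0 := by unfold ca; rw [e3, zero_mul]
    have ew : wa h = 1 := by unfold wa; rw [e0, e1]; ring
    have ew' : wb h = 1 := by unfold wb; rw [e1, e2]; ring
    rw [cc_mul, ea, ew, ew']
    ring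
  match i, hi with
  | 0, _ =>
    intro X h hh n g
    rw [show stepElt k 0 = fc k from rfl, d_fc_apply, d_fc_apply]
    split_ifs
    · rw [hcc X h _ hh.1 hh.2.1 hh.2.2.1 hh.2.2.2.1, hcc X h _ hh.1 hh.2.1 hh.2.2.1 hh.2.2.2.1]
      linear_combination cc h * two_zero X
    · rfl
  | 1, _ =>
    intro X h hh n g
    rw [show stepElt k 1 = fc k * fc k from rfl, d_fcc_apply, d_fcc_apply]
    split_ifs
    · rw [hcc X h _ hh.1 hh.2.1 hh.2.2.1 hh.2.2.2.1, hcc X h _ hh.1 hh.2.1 hh.2.2.1 hh.2.2.2.1]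
      linear_combination (cc h ^ 2 + cc h * cc (g 0) + cc h * cc (g 1)) * two_zero X
    · rfl
  | 2, _ =>
    exact inv_mono (E := En k 3) (E' := En k 6) (fun X h hh => ⟨hh.1, hh.2.1, hh.2.2.1⟩) h3
  | 3, _ =>
    exact inv_mono (E := En k 4) (E' := En k 6) (fun X h hh => ⟨hh.1, hh.2.1, hh.2.2.1⟩) h4
  | 4, _ =>
    exact inv_mono (E := En k 5) (E' := En k 6) (fun X h hh => ⟨hh.1, hh.2.1, hh.2.2.1⟩) h1
  | 5, _ => exact h2

theorem En_mono (i : ℕ) (hi : i < 8) (X : Alg k) : En k i X ⊆ En k (i + 1) X := by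
  intro h hh
  match i, hi with
  | 0, _ => exact absurd hh (Set.notMem_empty h)
  | 1, _ => exact ⟨hh.1, hh.2.1, hh.2.2.1, hh.2.2.2.1, hh.2.2.2.2.1⟩
  | 2, _ => exact ⟨hh.1, hh.2.1, hh.2.2.1, hh.2.2.2.1, by rw [hh.2.2.2.2]; ring⟩
  | 3, _ => exact ⟨hh.1, hh.2.1, hh.2.2.1, hh.2.2.2.1⟩
  | 4, _ => exact ⟨hh.1, hh.2.1, hh.2.2.1, by rw [hh.2.2.2]; ring⟩
  | 5, _ => exact ⟨hh.1, hh.2.1, hh.2.2.1⟩
  | 6, _ => exact hh.2.2
  | 7, _ => exact Set.mem_univ h

theorem En_sub_top (i : ℕ) (X : Alg k) : En k i X ⊆ En k 8 X := fun h _ => Set.mem_univ h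

/-- The Gysin lemma. -/
theorem gysin (hc : P_CLS) (i : ℕ) (hi : i < 6) (hs : P_STEP i) (x : HH k (En k (i + 1)))
    (hx : res (En_mono i (by omega)) x = 0) :
    ∃ y, x = cl (En k (i + 1)) (dCh (stepElt k i)) (d_stepElt_mem hc i hi) (dCh_dCh _) * y := by
  obtain ⟨D, D1, D2, D3, D4⟩ := hs k
  obtain ⟨F, hF, hd, rfl⟩ := cl_surj x
  rw [res_cl, cl_eq_zero] at hx
  obtain ⟨G, hG, hG'⟩ := hx
  have e1 : dCh (D G) = 0 := by rw [D4, hG', D3 F hF]
  refine ⟨cl _ (D G) (D1 G hG) e1, ?_⟩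
  rw [cl_mul, cl_eq]
  refine ⟨G - stepElt k i * D G, D2 G hG, ?_⟩
  rw [map_sub, hG', leibCh, e1, mul_zero, add_zero]

/-! ### The structure of an algebra over the polynomial ring -/

theorem cst_mem (c : k) (E : ∀ X : Alg k, Set (Bor X)) : cst c ∈ inv k E :=
  fun _ _ _ _ _ => rfl

theorem d_cst (c : k) : dCh (cst c) = 0 := by
  refine ch_ext (fun X n g => ?_)
  match n with
  | 0 => rfl
  | 1 =>
    rw [dCh_succ, Finset.sum_range_succ, Finset.sum_range_one, coe_zero_apply]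
    exact add_self X _
  | n + 2 =>
    rw [dCh_succ, coe_zero_apply]
    exact Finset.sum_eq_zero (fun l _ => rfl)

/-- The constants in the cohomology ring. -/
def cstH (E : ∀ X : Alg k, Set (Bor X)) : k →+* HH k E where
  toFun c := cl E (cst c) (cst_mem c E) (d_cst c)
  map_zero' := cl_eq_zero.mpr ⟨0, zero_mem _, by rw [map_zero, map_zero]⟩
  map_one' := by
    rw [← cl_one]
    exact cl_eq.mpr ⟨0, zero_mem _, by rw [map_zero, map_one, sub_self]⟩
  map_add' c c' := by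
    rw [cl_add]
    exact cl_eq.mpr ⟨0, zero_mem _, by rw [map_zero, map_add, sub_self]⟩
  map_mul' c c' := by
    rw [cl_mul]
    exact cl_eq.mpr ⟨0, zero_mem _, by rw [map_zero, map_mul, sub_self]⟩

theorem cls_mem (hc : P_CLS) (E : ∀ X : Alg k, Set (Bor X)) (i : Fin 6) : cls k i ∈ inv k E :=
  inv_mono (fun _ h _ => Set.mem_univ h) (((hc k).1 i).1)

theorem cls_d (hc : P_CLS) (i : Fin 6) : dCh (cls k i) = 0 := ((hc k).1 i).2.1

/-- The homomorphism of the polynomial ring given by the six classes. -/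
noncomputable def str (hc : P_CLS) (E : ∀ X : Alg k, Set (Bor X)) :
    MvPolynomial (Fin 6) k →+* HH k E :=
  MvPolynomial.eval₂Hom (cstH E) (fun i => cl E (cls k i) (cls_mem hc E i) (cls_d hc i))

theorem str_X (hc : P_CLS) (E : ∀ X : Alg k, Set (Bor X)) (i : Fin 6) :
    str hc E (X i) = cl E (cls k i) (cls_mem hc E i) (cls_d hc i) :=
  MvPolynomial.eval₂Hom_X' _ _ i

theorem str_C (hc : P_CLS) (E : ∀ X : Alg k, Set (Bor X)) (c : k) :
    str hc E (C c) = cstH E c :=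
  MvPolynomial.eval₂Hom_C _ _ c

theorem res_str (hc : P_CLS) {E E' : ∀ X : Alg k, Set (Bor X)} (h : ∀ X, E X ⊆ E' X)
    (p : MvPolynomial (Fin 6) k) : res h (str hc E' p) = str hc E p := by
  have e : (res h).comp (str hc E') = str hc E := by
    apply MvPolynomial.ringHom_ext
    · intro c
      rw [RingHom.comp_apply, str_C, str_C]
      exact res_cl h (cst_mem c E') (d_cst c)
    · intro i
      rw [RingHom.comp_apply, str_X, str_X, res_cl]
  exact congrArg (fun f => f p) e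

/-- Finiteness of the cohomology ring over the polynomial ring. -/
def Fin6 (hc : P_CLS) (E : ∀ X : Alg k, Set (Bor X)) : Prop := (str hc E).Finite

/-- The cohomology of all cochains consists of the constants. -/
theorem hh0 (x : HH k (En k 0)) : ∃ c : k, x = cstH (En k 0) c := by
  obtain ⟨F, hF, hd, rfl⟩ := cl_surj x
  refine ⟨ev0 F, ?_⟩
  change _ = cl _ (cst (ev0 F)) (cst_mem _ _) (d_cst _)
  rw [cl_eq]
  refine ⟨cn F, fun X h hh => absurd hh (Set.notMem_empty h), ?_⟩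
  have h := cn_formula F
  rw [hd, map_zero, add_zero] at h
  rw [h, ch_sub]

theorem fin_zero (hc : P_CLS) : Fin6 (k := k) hc (En k 0) := by
  apply RingHom.Finite.of_surjective
  intro x
  obtain ⟨c, rfl⟩ := hh0 x
  exact ⟨C c, str_C hc _ c⟩

end Q30.FK
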