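import Mathlib

/-!
# Cohen-Macaulay rings
-/

universe u

namespace Q30.FK

/-- A local ring is Cohen-Macaulay if its maximal ideal contains a regular sequence whose length
is the Krull dimension. -/
def IsCMLocal (A : Type u) [CommRing A] [IsLocalRing A] : Prop :=
  ∃ rs : List A, (∀ x ∈ rs, x ∈ IsLocalRing.maximalIdeal A) ∧
    RingTheory.Sequence.IsRegular A rs ∧ ringKrullDim A = rs.length

/-- A ring is Cohen-Macaulay if it is Noetherian and all its localizations at maximal ideals are
Cohen-Macaulay local rings. -/
def IsCMRing (S : Type u) [CommRing S] : Prop :=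
  IsNoetherianRing S ∧ ∀ (m : Ideal S) [m.IsMaximal], IsCMLocal (Localization.AtPrime m)

end Q30.FK
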