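import Mathlib

/-!
# The cohomology ring of a ring with a derivation
-/

universe u

namespace Q30.FK

/-- A ring with a derivation `d` (in characteristic two a differential graded algebra is a ring
with a derivation, since there are no signs). -/
structure DG (R : Type u) [Ring R] where
  /-- The differential. -/
  d : R →+ R
  /-- The Leibniz rule. -/
  leib : ∀ x y, d (x * y) = d x * y + x * d y

namespace DG

variable {R : Type u} [Ring R] (D : DG R)

theorem d_one : D.d 1 = 0 := by
  have h := D.leib 1 1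
  rw [mul_one, mul_one, one_mul] at h
  exact left_eq_add.mp h

/-- The elements of the subring `S` with differential zero. -/
def zSet (S : Subring R) : Set R := {x | x ∈ S ∧ D.d x = 0}

variable {D}

theorem zSet_mul {S : Subring R} {x y : R} (hx : x ∈ D.zSet S) (hy : y ∈ D.zSet S) :
    x * y ∈ D.zSet S :=
  ⟨mul_mem hx.1 hy.1, by rw [D.leib, hx.2, hy.2, zero_mul, mul_zero, add_zero]⟩

theorem zSet_one {S : Subring R} : 1 ∈ D.zSet S := ⟨one_mem _, D.d_one⟩

theorem zSet_add {S : Subring R} {x y : R} (hx : x ∈ D.zSet S) (hy : y ∈ D.zSet S) :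
    x + y ∈ D.zSet S := ⟨add_mem hx.1 hy.1, by rw [map_add, hx.2, hy.2, add_zero]⟩

theorem zSet_zero {S : Subring R} : 0 ∈ D.zSet S := ⟨zero_mem _, map_zero _⟩

theorem zSet_neg {S : Subring R} {x : R} (hx : x ∈ D.zSet S) : -x ∈ D.zSet S :=
  ⟨neg_mem hx.1, by rw [map_neg, hx.2, neg_zero]⟩

variable (D)

/-- The ring of the cocycles in the subring `S`. -/
def Z (S : Subring R) : Subring R where
  carrier := D.zSet S
  mul_mem' := zSet_mul
  one_mem' := zSet_one
  add_mem' := zSet_add
  zero_mem' := zSet_zero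
  neg_mem' := zSet_neg

/-- The differentials of the elements of the subring `S`. -/
def bSet (S : Subring R) : Set (D.Z S) := {z | ∃ y ∈ S, D.d y = z}

variable {D}

theorem bSet_add {S : Subring R} {x y : D.Z S} (hx : x ∈ D.bSet S) (hy : y ∈ D.bSet S) :
    x + y ∈ D.bSet S := by
  obtain ⟨u, hu, hu'⟩ := hx
  obtain ⟨v, hv, hv'⟩ := hy
  exact ⟨u + v, add_mem hu hv, by rw [map_add, hu', hv']; rfl⟩

theorem bSet_zero {S : Subring R} : 0 ∈ D.bSet S := ⟨0, zero_mem _, map_zero _⟩

theorem bSet_smul {S : Subring R} (c : D.Z S) {x : D.Z S} (hx : x ∈ D.bSet S) :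
    c • x ∈ D.bSet S := by
  obtain ⟨u, hu, hu'⟩ := hx
  refine ⟨c * u, mul_mem c.2.1 hu, ?_⟩
  rw [D.leib, c.2.2, zero_mul, zero_add, hu']
  rfl

variable (D)

/-- The ideal of the coboundaries of the elements of the subring `S`. -/
def B (S : Subring R) : Ideal (D.Z S) where
  carrier := D.bSet S
  add_mem' := bSet_add
  zero_mem' := bSet_zero
  smul_mem' := bSet_smul

theorem b_mul_mem (S : Subring R) {x : D.Z S} (c : D.Z S) (hx : x ∈ D.B S) :
    x * c ∈ D.B S := by
  obtain ⟨u, hu, hu'⟩ := hx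
  refine ⟨u * c, mul_mem hu c.2.1, ?_⟩
  rw [D.leib, c.2.2, mul_zero, add_zero, hu']
  rfl

instance (S : Subring R) : (D.B S).IsTwoSided := ⟨fun c => D.b_mul_mem S c⟩

/-- The cohomology of the subring `S`. -/
abbrev H (S : Subring R) : Type u := D.Z S ⧸ D.B S

end DG

end Q30.FK
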