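import Pool.Agent.Q30.FK.Diff
import Pool.Agent.Q30.FK.Dg

/-!
# The second Frobenius kernel of the Borel subgroup of `SL_3` in characteristic two, and its
rational cochains
-/

namespace Q30.FK

open Matrix

/-- A commutative algebra over `k`. -/
structure Alg (k : Type) [Field k] where
  /-- The underlying type. -/
  A : Type
  /-- The ring structure. -/
  [ring : CommRing A]
  /-- The algebra structure. -/
  [alg : Algebra k A]

attribute [instance] Alg.ring Alg.alg

section

variable {k : Type} [Field k] [CharP k 2]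

theorem two_zero (X : Alg k) : (2 : X.A) = 0 := by
  have h : ((2 : ℕ) : k) = 0 := CharP.cast_eq_zero k 2
  have h1 := congrArg (algebraMap k X.A) h
  rw [map_natCast, map_zero] at h1
  exact_mod_cast h1

theorem add_self (X : Alg k) (x : X.A) : x + x = 0 := by
  rw [← two_mul, two_zero, zero_mul]

theorem add_pow_four (X : Alg k) (x y : X.A) : (x + y) ^ 4 = x ^ 4 + y ^ 4 := by
  linear_combination (2 * x ^ 3 * y + 3 * x ^ 2 * y ^ 2 + 2 * x * y ^ 3) * two_zero X

/-- The upper triangular matrices of determinant one whose entries have the same fourth powers as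
the entries of the identity matrix. -/
def borSet (X : Alg k) : Set (SpecialLinearGroup (Fin 3) X.A) :=
  {g | g 1 0 = 0 ∧ g 2 0 = 0 ∧ g 2 1 = 0 ∧ ∀ i j, g i j ^ 4 = if i = j then 1 else 0}

theorem borSet_mul {X : Alg k} {g h : SpecialLinearGroup (Fin 3) X.A} (hg : g ∈ borSet X)
    (hh : h ∈ borSet X) : g * h ∈ borSet X := by
  obtain ⟨g1, g2, g3, g4⟩ := hg
  obtain ⟨h1, h2, h3, h4⟩ := hh
  have e : ∀ i j, (g * h) i j = g i 0 * h 0 j + g i 1 * h 1 j + g i 2 * h 2 j := by
    intro i j
    change (g.1 * h.1 : Matrix (Fin 3) (Fin 3) X.A) i j = _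
    rw [Matrix.mul_apply, Fin.sum_univ_three]
  refine ⟨?_, ?_, ?_, ?_⟩
  · rw [e, g1, h1, h2]
    ring
  · rw [e, g2, g3, h2]
    ring
  · rw [e, g2, g3, h3]
    ring
  · intro i j
    rw [e, add_pow_four, add_pow_four, mul_pow, mul_pow, mul_pow, g4, g4, g4, h4, h4, h4]
    fin_cases i <;> fin_cases j <;> simp

theorem borSet_one {X : Alg k} : (1 : SpecialLinearGroup (Fin 3) X.A) ∈ borSet X := by
  refine ⟨by simp, by simp, by simp, ?_⟩
  intro i j
  change (1 : Matrix (Fin 3) (Fin 3) X.A) i j ^ 4 = _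
  rw [Matrix.one_apply]
  split_ifs <;> simp

theorem borSet_inv {X : Alg k} {g : SpecialLinearGroup (Fin 3) X.A} (hg : g ∈ borSet X) :
    g⁻¹ ∈ borSet X := by
  obtain ⟨g1, g2, g3, g4⟩ := hg
  have e : ((g⁻¹ : SpecialLinearGroup (Fin 3) X.A) : Matrix (Fin 3) (Fin 3) X.A) =
      !![g 1 1 * g 2 2, -(g 0 1 * g 2 2), g 0 1 * g 1 2 - g 0 2 * g 1 1;
        0, g 0 0 * g 2 2, -(g 0 0 * g 1 2); 0, 0, g 0 0 * g 1 1] := by
    change Matrix.adjugate g.1 = _
    rw [Matrix.adjugate_fin_three]
    ext i j
    fin_cases i <;> fin_cases j <;> simp [g1, g2, g3]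
  have k01 : g 0 1 ^ 4 = 0 := by rw [g4]; simp
  have k02 : g 0 2 ^ 4 = 0 := by rw [g4]; simp
  have k12 : g 1 2 ^ 4 = 0 := by rw [g4]; simp
  have k00 : g 0 0 ^ 4 = 1 := by rw [g4]; simp
  have k11 : g 1 1 ^ 4 = 1 := by rw [g4]; simp
  have k22 : g 2 2 ^ 4 = 1 := by rw [g4]; simp
  have q00 : (g 1 1 * g 2 2) ^ 4 = 1 := by rw [mul_pow, k11, k22, one_mul]
  have q01 : (-(g 0 1 * g 2 2)) ^ 4 = 0 := by linear_combination (g 2 2 ^ 4) * k01
  have q02 : (g 0 1 * g 1 2 - g 0 2 * g 1 1) ^ 4 = 0 := by
    have h := add_pow_four X (g 0 1 * g 1 2) (-(g 0 2 * g 1 1))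
    rw [← sub_eq_add_neg] at h
    rw [h]
    linear_combination (g 1 2 ^ 4) * k01 + (g 1 1 ^ 4) * k02
  have q11 : (g 0 0 * g 2 2) ^ 4 = 1 := by rw [mul_pow, k00, k22, one_mul]
  have q12 : (-(g 0 0 * g 1 2)) ^ 4 = 0 := by linear_combination (g 0 0 ^ 4) * k12
  have q22 : (g 0 0 * g 1 1) ^ 4 = 1 := by rw [mul_pow, k00, k11, one_mul]
  refine ⟨?_, ?_, ?_, ?_⟩
  · rw [e]; rfl
  · rw [e]; rfl
  · rw [e]; rfl
  · intro i j
    rw [e]
    fin_cases i <;> fin_cases j
    · exact q00.trans (if_pos rfl).symm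
    · exact q01.trans (if_neg (by decide)).symm
    · exact q02.trans (if_neg (by decide)).symm
    · exact (zero_pow (M₀ := X.A) (by norm_num)).trans (if_neg (by decide)).symm
    · exact q11.trans (if_pos rfl).symm
    · exact q12.trans (if_neg (by decide)).symm
    · exact (zero_pow (M₀ := X.A) (by norm_num)).trans (if_neg (by decide)).symm
    · exact (zero_pow (M₀ := X.A) (by norm_num)).trans (if_neg (by decide)).symm
    · exact q22.trans (if_pos rfl).symm

/-- The points over `X` of the kernel `B_2` of the second power of the Frobenius morphism on the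
Borel subgroup of the upper triangular matrices in `SL_3`. -/
def Bor (X : Alg k) : Subgroup (SpecialLinearGroup (Fin 3) X.A) where
  carrier := borSet X
  mul_mem' := borSet_mul
  one_mem' := borSet_one
  inv_mem' := borSet_inv

theorem map_mem_bor {X Y : Alg k} (φ : X.A →ₐ[k] Y.A) (g : Bor X) :
    SpecialLinearGroup.map (φ : X.A →+* Y.A) g.1 ∈ Bor Y := by
  obtain ⟨g1, g2, g3, g4⟩ := g.2
  refine ⟨?_, ?_, ?_, ?_⟩
  · change φ (g.1 1 0) = 0
    rw [g1, map_zero]
  · change φ (g.1 2 0) = 0
    rw [g2, map_zero]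
  · change φ (g.1 2 1) = 0
    rw [g3, map_zero]
  · intro i j
    change φ (g.1 i j) ^ 4 = _
    rw [← map_pow, g4]
    split_ifs <;> simp

/-- The map of points induced by a homomorphism of algebras. -/
def mapFun {X Y : Alg k} (φ : X.A →ₐ[k] Y.A) (g : Bor X) : Bor Y :=
  ⟨SpecialLinearGroup.map (φ : X.A →+* Y.A) g.1, map_mem_bor φ g⟩

theorem mapFun_one {X Y : Alg k} (φ : X.A →ₐ[k] Y.A) : mapFun φ 1 = 1 := by
  apply Subtype.ext
  exact map_one (SpecialLinearGroup.map (φ : X.A →+* Y.A))

theorem mapFun_mul {X Y : Alg k} (φ : X.A →ₐ[k] Y.A) (g h : Bor X) :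
    mapFun φ (g * h) = mapFun φ g * mapFun φ h := by
  apply Subtype.ext
  exact map_mul (SpecialLinearGroup.map (φ : X.A →+* Y.A)) g.1 h.1

/-- The map of points induced by a homomorphism of algebras, as a homomorphism of groups. -/
def Bor.map {X Y : Alg k} (φ : X.A →ₐ[k] Y.A) : Bor X →* Bor Y where
  toFun := mapFun φ
  map_one' := mapFun_one φ
  map_mul' := mapFun_mul φ

end

section

variable (k : Type) [Field k] [CharP k 2]

/-- Families of functions of sequences of points. -/
abbrev Big : Type 1 := ∀ X : Alg k, Ser (Bor X) X.A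

variable {k}

theorem big_mul_apply (F G : Big k) (X : Alg k) (N : ℕ) (g : ℕ → Bor X) :
    (F * G) X N g = ∑ p ∈ Finset.HasAntidiagonal.antidiagonal N, F X p.1 g * G X p.2 (Ser.sh p.1 g) := rfl

variable (k)

/-- The set of the cochains.  A cochain `F` consists of finitely many components `F n`, where
`F n` is a regular function of the first `n + 1` entries of a sequence of points, that is, a
function on `B_2 ^ (n + 1)` which is natural in the algebra. -/
def chSet : Set (Big k) :=
  {F | (∀ (X Y : Alg k) (φ : X.A →ₐ[k] Y.A) (n : ℕ) (g : ℕ → Bor X),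
      φ (F X n g) = F Y n (fun i => Bor.map φ (g i))) ∧
    (∀ X : Alg k, Ser.Loc (F X)) ∧ ∃ N, ∀ n, N < n → ∀ (X : Alg k) (g : ℕ → Bor X), F X n g = 0}

variable {k}

theorem chSet_mul {F G : Big k} (hF : F ∈ chSet k) (hG : G ∈ chSet k) : F * G ∈ chSet k := by
  obtain ⟨F1, F2, N, F3⟩ := hF
  obtain ⟨G1, G2, M, G3⟩ := hG
  refine ⟨?_, ?_, N + M, ?_⟩
  · intro X Y φ n g
    rw [big_mul_apply, big_mul_apply, map_sum]
    refine Finset.sum_congr rfl (fun p _ => ?_)
    rw [map_mul, F1, G1]
    rfl
  · intro X n g g' h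
    rw [big_mul_apply, big_mul_apply]
    refine Finset.sum_congr rfl (fun p hp => ?_)
    rw [Finset.HasAntidiagonal.mem_antidiagonal] at hp
    congr 1
    · exact F2 X p.1 g g' (fun i hi => h i (by omega))
    · exact G2 X p.2 _ _ (fun i hi => h (i + p.1) (by omega))
  · intro n hn X g
    rw [big_mul_apply]
    refine Finset.sum_eq_zero (fun p hp => ?_)
    rw [Finset.HasAntidiagonal.mem_antidiagonal] at hp
    by_cases h : N < p.1
    · rw [F3 p.1 h, zero_mul]
    · rw [G3 p.2 (by omega), mul_zero]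

theorem chSet_one : (1 : Big k) ∈ chSet k := by
  refine ⟨?_, ?_, 0, ?_⟩
  · intro X Y φ n g
    change φ (if n = 0 then 1 else 0) = if n = 0 then 1 else 0
    split_ifs <;> simp
  · intro X n g g' _
    rfl
  · intro n hn X g
    change (if n = 0 then (1 : X.A) else 0) = 0
    rw [if_neg (by omega)]

theorem chSet_add {F G : Big k} (hF : F ∈ chSet k) (hG : G ∈ chSet k) : F + G ∈ chSet k := by
  obtain ⟨F1, F2, N, F3⟩ := hF
  obtain ⟨G1, G2, M, G3⟩ := hG
  refine ⟨?_, ?_, N + M, ?_⟩
  · intro X Y φ n g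
    change φ (F X n g + G X n g) = _ + _
    rw [map_add, F1, G1]
  · intro X n g g' h
    change F X n g + G X n g = _ + _
    rw [F2 X n g g' h, G2 X n g g' h]
  · intro n hn X g
    change F X n g + G X n g = 0
    rw [F3 n (by omega), G3 n (by omega), add_zero]

theorem chSet_zero : (0 : Big k) ∈ chSet k :=
  ⟨fun _ _ φ _ _ => map_zero φ, fun _ _ _ _ _ => rfl, 0, fun _ _ _ _ => rfl⟩

theorem chSet_neg {F : Big k} (hF : F ∈ chSet k) : -F ∈ chSet k := by
  obtain ⟨F1, F2, N, F3⟩ := hF
  refine ⟨?_, ?_, N, ?_⟩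
  · intro X Y φ n g
    change φ (-F X n g) = -_
    rw [map_neg, F1]
  · intro X n g g' h
    change -F X n g = -_
    rw [F2 X n g g' h]
  · intro n hn X g
    change -F X n g = 0
    rw [F3 n hn, neg_zero]

variable (k)

/-- The ring of the cochains.  A cochain `F` consists of finitely many components `F n`, where
`F n` is a regular function of the first `n + 1` entries of a sequence of points, that is, a
function on `B_2 ^ (n + 1)` which is natural in the algebra. -/
def Ch : Subring (Big k) where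
  carrier := chSet k
  mul_mem' := chSet_mul
  one_mem' := chSet_one
  add_mem' := chSet_add
  zero_mem' := chSet_zero
  neg_mem' := chSet_neg

variable {k}

theorem d_mem_ch (F : Ch k) : (fun X => Ser.d (F.1 X)) ∈ Ch k := by
  obtain ⟨F, F1, F2, N, F3⟩ := F
  refine ⟨?_, ?_, N + 1, ?_⟩
  · intro X Y φ n g
    cases n with
    | zero => exact map_zero φ
    | succ n =>
      change φ (Ser.fc n (F X n) g) = Ser.fc n (F Y n) _
      unfold Ser.fc
      rw [map_sum]
      refine Finset.sum_congr rfl (fun l _ => ?_)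
      rw [F1]
      congr 1
      funext i
      unfold Ser.skip
      split_ifs <;> rfl
  · intro X n g g' h
    cases n with
    | zero => rfl
    | succ n =>
      change Ser.fc n (F X n) g = Ser.fc n (F X n) g'
      unfold Ser.fc
      refine Finset.sum_congr rfl (fun l _ => F2 X n _ _ (fun i hi => ?_))
      unfold Ser.skip
      split_ifs
      · exact h i (by omega)
      · exact h (i + 1) (by omega)
  · intro n hn X g
    cases n with
    | zero => rfl
    | succ n =>
      change Ser.fc n (F X n) g = 0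
      unfold Ser.fc
      exact Finset.sum_eq_zero (fun l _ => F3 n (by omega) X _)

/-- The differential of the ring of the cochains as a function. -/
def dFun (F : Ch k) : Ch k := ⟨fun X => Ser.d (F.1 X), d_mem_ch F⟩

theorem dFun_zero : dFun (0 : Ch k) = 0 := by
  apply Subtype.ext
  funext X
  exact map_zero Ser.d

theorem dFun_add (F G : Ch k) : dFun (F + G) = dFun F + dFun G := by
  apply Subtype.ext
  funext X
  exact map_add Ser.d (F.1 X) (G.1 X)

/-- The differential of the ring of the cochains. -/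
def dCh : Ch k →+ Ch k where
  toFun := dFun
  map_zero' := dFun_zero
  map_add' := dFun_add

theorem dCh_leib (F G : Ch k) : dCh (F * G) = dCh F * G + F * dCh G := by
  apply Subtype.ext
  funext X
  exact Ser.leib (add_self X) (F.2.2.1 X)

variable (k)

/-- The ring of the cochains with its differential. -/
def dg : DG (Ch k) where
  d := dCh
  leib := dCh_leib

/-- The set of the cochains which are invariant under the simultaneous left translations of all
entries by the elements of `E`. -/
def invSet (E : ∀ X : Alg k, Set (Bor X)) : Set (Ch k) :=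
  {F | ∀ (X : Alg k), ∀ h ∈ E X, ∀ (n : ℕ) (g : ℕ → Bor X),
    F.1 X n (fun i => h * g i) = F.1 X n g}

variable {k}

theorem invSet_mul {E : ∀ X : Alg k, Set (Bor X)} {F G : Ch k} (hF : F ∈ invSet k E)
    (hG : G ∈ invSet k E) : F * G ∈ invSet k E := by
  intro X h hh n g
  change (F.1 * G.1) X n _ = (F.1 * G.1) X n g
  rw [big_mul_apply, big_mul_apply]
  refine Finset.sum_congr rfl (fun p _ => ?_)
  rw [hF X h hh]
  congr 1
  exact hG X h hh _ (Ser.sh p.1 g)

theorem invSet_one {E : ∀ X : Alg k, Set (Bor X)} : 1 ∈ invSet k E := fun _ _ _ _ _ => rfl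

theorem invSet_add {E : ∀ X : Alg k, Set (Bor X)} {F G : Ch k} (hF : F ∈ invSet k E)
    (hG : G ∈ invSet k E) : F + G ∈ invSet k E := by
  intro X h hh n g
  change F.1 X n _ + G.1 X n _ = F.1 X n g + G.1 X n g
  rw [hF X h hh, hG X h hh]

theorem invSet_zero {E : ∀ X : Alg k, Set (Bor X)} : 0 ∈ invSet k E := fun _ _ _ _ _ => rfl

theorem invSet_neg {E : ∀ X : Alg k, Set (Bor X)} {F : Ch k} (hF : F ∈ invSet k E) :
    -F ∈ invSet k E := by
  intro X h hh n g
  change -F.1 X n _ = -F.1 X n g
  rw [hF X h hh]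

variable (k)

/-- The subring of the cochains which are invariant under the simultaneous left translations of
all entries by the elements of `E`. -/
def inv (E : ∀ X : Alg k, Set (Bor X)) : Subring (Ch k) where
  carrier := invSet k E
  mul_mem' := invSet_mul
  one_mem' := invSet_one
  add_mem' := invSet_add
  zero_mem' := invSet_zero
  neg_mem' := invSet_neg

end

end Q30.FK
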