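import Pool.Agent.Q30.FK.Coch

/-!
# The cohomology rings
-/

namespace Q30.FK

open Matrix

variable {k : Type} [Field k] [CharP k 2]

@[simp] theorem coe_mul_apply (F G : Ch k) (X : Alg k) (N : ℕ) (g : ℕ → Bor X) :
    (F * G).1 X N g = ∑ p ∈ Finset.HasAntidiagonal.antidiagonal N,
      F.1 X p.1 g * G.1 X p.2 (Ser.sh p.1 g) := rfl

theorem coe_add_apply (F G : Ch k) (X : Alg k) (N : ℕ) (g : ℕ → Bor X) :
    (F + G).1 X N g = F.1 X N g + G.1 X N g := rfl

theorem coe_sub_apply (F G : Ch k) (X : Alg k) (N : ℕ) (g : ℕ → Bor X) :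
    (F - G).1 X N g = F.1 X N g - G.1 X N g := rfl

theorem coe_neg_apply (F : Ch k) (X : Alg k) (N : ℕ) (g : ℕ → Bor X) :
    (-F).1 X N g = -F.1 X N g := rfl

theorem coe_zero_apply (X : Alg k) (N : ℕ) (g : ℕ → Bor X) :
    (0 : Ch k).1 X N g = 0 := rfl

theorem coe_one_apply (X : Alg k) (N : ℕ) (g : ℕ → Bor X) :
    (1 : Ch k).1 X N g = if N = 0 then 1 else 0 := rfl

theorem dCh_zero (F : Ch k) (X : Alg k) (g : ℕ → Bor X) : (dCh F).1 X 0 g = 0 := rfl

theorem dCh_succ (F : Ch k) (X : Alg k) (N : ℕ) (g : ℕ → Bor X) :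
    (dCh F).1 X (N + 1) g = ∑ l ∈ Finset.range (N + 2), F.1 X N (Ser.skip l g) := rfl

theorem ch_ext {F G : Ch k} (h : ∀ (X : Alg k) (n : ℕ) (g : ℕ → Bor X), F.1 X n g = G.1 X n g) :
    F = G := by
  apply Subtype.ext
  funext X
  exact Ser.ext (h X)

theorem dg_d (F : Ch k) : (dg k).d F = dCh F := rfl

theorem leibCh (F G : Ch k) : dCh (F * G) = dCh F * G + F * dCh G := (dg k).leib F G

theorem ch_add_self (F : Ch k) : F + F = 0 :=
  ch_ext (fun X n g => add_self X (F.1 X n g))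

theorem ch_neg (F : Ch k) : -F = F := by
  rw [neg_eq_iff_add_eq_zero, ch_add_self]

theorem ch_sub (F G : Ch k) : F - G = F + G := by
  rw [sub_eq_add_neg, ch_neg]

/-! ### The cup-one product -/

/-- The cup-one product of cochains. -/
def cup1 (F G : Ch k) : Ch k := ⟨fun X => Ser.cup1 (F.1 X) (G.1 X), by
  obtain ⟨F, F1, F2, N, F3⟩ := F
  obtain ⟨G, G1, G2, M, G3⟩ := G
  refine ⟨?_, ?_, N + M, ?_⟩
  · intro X Y φ n g
    simp only [Ser.cup1_apply, map_sum, map_mul]
    refine Finset.sum_congr rfl (fun p _ => Finset.sum_congr rfl (fun i _ => ?_))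
    rw [F1, G1]
    congr 2
    funext j
    unfold Ser.cut
    split_ifs <;> rfl
  · intro X n g g' h
    simp only [Ser.cup1_apply]
    refine Finset.sum_congr rfl (fun p hp => Finset.sum_congr rfl (fun i hi => ?_))
    rw [Finset.HasAntidiagonal.mem_antidiagonal] at hp
    rw [Finset.mem_range] at hi
    congr 1
    · refine F2 X p.1 _ _ (fun j hj => ?_)
      unfold Ser.cut
      split_ifs
      · exact h j (by omega)
      · exact h (j + p.2) (by omega)
    · exact G2 X (p.2 + 1) _ _ (fun j hj => h (j + i) (by omega))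
  · intro n hn X g
    simp only [Ser.cup1_apply]
    refine Finset.sum_eq_zero (fun p hp => Finset.sum_eq_zero (fun i hi => ?_))
    rw [Finset.HasAntidiagonal.mem_antidiagonal] at hp
    by_cases h : N < p.1
    · rw [F3 p.1 h, zero_mul]
    · rw [G3 (p.2 + 1) (by omega), mul_zero]⟩

theorem cup1_apply (F G : Ch k) (X : Alg k) (N : ℕ) (g : ℕ → Bor X) :
    (cup1 F G).1 X N g = ∑ q ∈ Finset.HasAntidiagonal.antidiagonal N, ∑ i ∈ Finset.range q.1,
      F.1 X q.1 (Ser.cut i q.2 g) * G.1 X (q.2 + 1) (Ser.sh i g) := rfl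

theorem homotopyCh (F G : Ch k) :
    F * G + G * F = dCh (cup1 F G) + cup1 (dCh F) G + cup1 F (dCh G) := by
  apply Subtype.ext
  funext X
  exact Ser.homotopy (add_self X) (F.2.2.1 X) (G.2.2.1 X)

theorem cup1_zero_left (G : Ch k) : cup1 0 G = 0 := by
  apply Subtype.ext
  funext X
  exact Ser.cup1_zero_left _

theorem cup1_zero_right (F : Ch k) : cup1 F 0 = 0 := by
  apply Subtype.ext
  funext X
  exact Ser.cup1_zero_right _

theorem cup1_mem {E : ∀ X : Alg k, Set (Bor X)} {F G : Ch k} (hF : F ∈ inv k E)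
    (hG : G ∈ inv k E) : cup1 F G ∈ inv k E := by
  intro X h hh n g
  rw [cup1_apply, cup1_apply]
  refine Finset.sum_congr rfl (fun p _ => Finset.sum_congr rfl (fun i _ => ?_))
  have e1 : Ser.cut i p.2 (fun i => h * g i) = fun j => h * Ser.cut i p.2 g j := by
    funext j
    unfold Ser.cut
    split_ifs <;> rfl
  rw [e1, hF X h hh]
  congr 1
  exact hG X h hh _ (Ser.sh i g)

theorem dCh_mem {E : ∀ X : Alg k, Set (Bor X)} {F : Ch k} (hF : F ∈ inv k E) :
    dCh F ∈ inv k E := by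
  intro X h hh n g
  cases n with
  | zero => rfl
  | succ n =>
    rw [dCh_succ, dCh_succ]
    refine Finset.sum_congr rfl (fun l _ => ?_)
    have e1 : Ser.skip l (fun i => h * g i) = fun j => h * Ser.skip l g j := by
      funext j
      unfold Ser.skip
      split_ifs <;> rfl
    rw [e1, hF X h hh]

theorem inv_mono {E E' : ∀ X : Alg k, Set (Bor X)} (h : ∀ X, E X ⊆ E' X) :
    inv k E' ≤ inv k E := fun _ hF X a ha n g => hF X a (h X ha) n g

/-! ### The cohomology rings -/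

/-- The cohomology ring of the cochains which are invariant under `E`. -/
def HH (k : Type) [Field k] [CharP k 2] (E : ∀ X : Alg k, Set (Bor X)) : Type 1 :=
  (dg k).H (inv k E)

theorem mul_comm_aux {E : ∀ X : Alg k, Set (Bor X)} (x y : (dg k).Z (inv k E)) :
    x * y - y * x ∈ (dg k).B (inv k E) := by
  obtain ⟨x, hx, hx'⟩ := x
  obtain ⟨y, hy, hy'⟩ := y
  refine ⟨cup1 x y, cup1_mem hx hy, ?_⟩
  have h := homotopyCh x y
  have hx2 : dCh x = 0 := hx'
  have hy2 : dCh y = 0 := hy'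
  rw [hx2, hy2, cup1_zero_left, cup1_zero_right, add_zero, add_zero] at h
  change dCh (cup1 x y) = x * y - y * x
  rw [← h, ch_sub]

instance (E : ∀ X : Alg k, Set (Bor X)) : Ring (HH k E) :=
  inferInstanceAs (Ring ((dg k).H (inv k E)))

theorem hh_mul_comm {E : ∀ X : Alg k, Set (Bor X)} (x y : HH k E) : x * y = y * x := by
  obtain ⟨x, rfl⟩ := Ideal.Quotient.mk_surjective (I := (dg k).B (inv k E)) x
  obtain ⟨y, rfl⟩ := Ideal.Quotient.mk_surjective (I := (dg k).B (inv k E)) y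
  exact (Ideal.Quotient.eq (I := (dg k).B (inv k E))).mpr (mul_comm_aux x y)

instance (E : ∀ X : Alg k, Set (Bor X)) : CommRing (HH k E) where
  mul_comm := hh_mul_comm

/-- The class of a cocycle. -/
def cl (E : ∀ X : Alg k, Set (Bor X)) (F : Ch k) (hF : F ∈ inv k E) (hd : dCh F = 0) :
    HH k E := Ideal.Quotient.mk ((dg k).B (inv k E)) ⟨F, hF, hd⟩

variable {E E' : ∀ X : Alg k, Set (Bor X)}

theorem cl_surj (x : HH k E) : ∃ (F : Ch k) (hF : F ∈ inv k E) (hd : dCh F = 0),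
    x = cl E F hF hd := by
  obtain ⟨⟨F, hF, hd⟩, rfl⟩ := Ideal.Quotient.mk_surjective x
  exact ⟨F, hF, hd, rfl⟩

theorem cl_eq {F G : Ch k} {hF : F ∈ inv k E} {hd : dCh F = 0} {hG : G ∈ inv k E}
    {hd' : dCh G = 0} :
    cl E F hF hd = cl E G hG hd' ↔ ∃ y ∈ inv k E, dCh y = F - G :=
  Ideal.Quotient.eq (I := (dg k).B (inv k E))

theorem cl_eq_zero {F : Ch k} {hF : F ∈ inv k E} {hd : dCh F = 0} :
    cl E F hF hd = 0 ↔ ∃ y ∈ inv k E, dCh y = F :=
  Ideal.Quotient.eq_zero_iff_mem (I := (dg k).B (inv k E))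

theorem cl_add {F G : Ch k} (hF : F ∈ inv k E) (hd : dCh F = 0) (hG : G ∈ inv k E)
    (hd' : dCh G = 0) : cl E F hF hd + cl E G hG hd' =
      cl E (F + G) (add_mem hF hG) (by rw [map_add, hd, hd', add_zero]) := rfl

theorem cl_mul {F G : Ch k} (hF : F ∈ inv k E) (hd : dCh F = 0) (hG : G ∈ inv k E)
    (hd' : dCh G = 0) : cl E F hF hd * cl E G hG hd' =
      cl E (F * G) (mul_mem hF hG)
        (by rw [leibCh, hd, hd', zero_mul, mul_zero, add_zero]) := rfl

theorem cl_one : cl E (1 : Ch k) (one_mem _) (dg k).d_one = 1 := rfl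

theorem dCh_pow {F : Ch k} (hd : dCh F = 0) (n : ℕ) : dCh (F ^ n) = 0 := by
  induction n with
  | zero => exact (dg k).d_one
  | succ n ih => rw [pow_succ, leibCh, ih, hd, zero_mul, mul_zero, add_zero]

theorem cl_pow {F : Ch k} (hF : F ∈ inv k E) (hd : dCh F = 0) (n : ℕ) :
    cl E F hF hd ^ n = cl E (F ^ n) (pow_mem hF n) (dCh_pow hd n) := by
  induction n with
  | zero => rfl
  | succ n ih =>
    rw [pow_succ, ih, cl_mul]
    rfl

/-- The restriction. -/
def res (h : ∀ X, E X ⊆ E' X) : HH k E' →+* HH k E :=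
  Ideal.Quotient.lift ((dg k).B (inv k E'))
    (((Ideal.Quotient.mk ((dg k).B (inv k E))).comp
      (Subring.inclusion (show (dg k).Z (inv k E') ≤ (dg k).Z (inv k E) from
        fun _ hx => ⟨inv_mono h hx.1, hx.2⟩)) :
      (dg k).Z (inv k E') →+* (dg k).H (inv k E)))
    (by
      rintro a ⟨y, hy, hy'⟩
      exact (Ideal.Quotient.eq_zero_iff_mem (I := (dg k).B (inv k E))).mpr
        ⟨y, inv_mono h hy, hy'⟩)

theorem res_cl (h : ∀ X, E X ⊆ E' X) {F : Ch k} (hF : F ∈ inv k E') (hd : dCh F = 0) :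
    res h (cl E' F hF hd) = cl E F (inv_mono h hF) hd := rfl

end Q30.FK
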