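import Pool.Agent.Q30.FK.Def
import Pool.Agent.Q30.FK.Ring

/-!
# The cohomology ring is commutative
-/

namespace Q30.FK

variable (k : Type) [Field k] [CharP k 2]

theorem coh_comm_aux (S : Subring (Ch k)) (hS : S = inv k (fun _ => Set.univ))
    (x y : (dg k).Z S ⧸ (dg k).B S) : x * y = y * x := by
  subst hS
  exact hh_mul_comm (E := fun _ => Set.univ) x y

theorem invB_eq : (show Subring (Ch k) from invB k) = inv k (fun _ => Set.univ) := by
  ext F
  exact ⟨fun h X a _ n g => h X a n g, fun h X a n g => h X a (Set.mem_univ _) n g⟩

instance : (cobB k).IsTwoSided := inferInstanceAs ((dgB k).B (invB k)).IsTwoSided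

/-- The ring structure of the cohomology ring. -/
instance cohRing : Ring (CohB k) := Ideal.Quotient.ring (cobB k)

theorem coh_mul_comm (x y : CohB k) : x * y = y * x := coh_comm_aux k (invB k) (invB_eq k) x y

/-- The cohomology ring is commutative. -/
instance cohCommRing : CommRing (CohB k) where
  mul_comm := coh_mul_comm k

/-- The reduced ring `H(B_2, k)_red`. -/
abbrev RedB : Type 1 := CohB k ⧸ nilradical (CohB k)

end Q30.FK
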