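import Pool.Agent.Q30.FK.T4

/-!
# The square of the differential, and the contraction
-/

universe u v

namespace Q30.FK

open Finset

namespace Ser

variable {Γ : Type u} {A : Type v} [CommRing A]

theorem skip_skip {l m : ℕ} (h : l ≤ m) (g : ℕ → Γ) :
    skip m (skip l g) = skip l (skip (m + 1) g) := by
  funext j
  unfold skip
  try dsimp only
  by_cases h1 : j < l
  · rw [if_pos (by omega), if_pos h1, if_pos h1, if_pos (by omega)]
  · rw [if_neg h1]
    by_cases h2 : j < m
    · rw [if_pos h2, if_neg h1, if_pos (by omega)]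
    · rw [if_neg h2, if_neg (by omega), if_neg (by omega), if_neg (by omega)]

/-- The square of the differential is zero. -/
theorem fc_fc (h2 : ∀ x : A, x + x = 0) (N : ℕ) (f : (ℕ → Γ) → A) (g : ℕ → Γ) :
    fc (N + 1) (fc N f) g = 0 := by
  unfold fc
  rw [← Finset.sum_product', ← Finset.sum_filter_add_sum_filter_not _ (fun q => q.1 ≤ q.2)]
  have e : ∑ x ∈ Finset.filter (fun q : ℕ × ℕ => q.1 ≤ q.2)
      (range (N + 1 + 2) ×ˢ range (N + 2)), f (skip x.2 (skip x.1 g)) =
      ∑ x ∈ Finset.filter (fun q : ℕ × ℕ => ¬ q.1 ≤ q.2)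
      (range (N + 1 + 2) ×ˢ range (N + 2)), f (skip x.2 (skip x.1 g)) := by
    refine Finset.sum_nbij' (fun q => (q.2 + 1, q.1)) (fun q => (q.2, q.1 - 1)) ?_ ?_ ?_ ?_ ?_
    · rintro ⟨a, b⟩ h
      simp only [mem_filter, mem_product, mem_range] at h ⊢
      omega
    · rintro ⟨a, b⟩ h
      simp only [mem_filter, mem_product, mem_range] at h ⊢
      omega
    · rintro ⟨a, b⟩ h
      simp
    · rintro ⟨a, b⟩ h
      simp only [mem_filter, mem_product, mem_range] at h
      simp only [Prod.mk.injEq, and_true]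
      omega
    · rintro ⟨a, b⟩ h
      simp only [mem_filter, mem_product, mem_range] at h
      exact congrArg f (skip_skip h.2 g)
  rw [e, h2]

/-- The sequence with a new entry at the beginning. -/
def cons (x : Γ) (g : ℕ → Γ) : ℕ → Γ := fun i => if i = 0 then x else g (i - 1)

theorem cons_zero (x : Γ) (g : ℕ → Γ) : cons x g 0 = x := rfl

theorem cons_succ (x : Γ) (g : ℕ → Γ) (i : ℕ) : cons x g (i + 1) = g i := rfl

theorem skip_zero_cons (x : Γ) (g : ℕ → Γ) : skip 0 (cons x g) = g := by
  funext i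
  unfold skip
  rw [if_neg (by omega), cons_succ]

theorem skip_succ_cons (l : ℕ) (x : Γ) (g : ℕ → Γ) :
    skip (l + 1) (cons x g) = cons x (skip l g) := by
  funext i
  cases i with
  | zero =>
    unfold skip cons
    simp
  | succ i =>
    rw [cons_succ]
    unfold skip
    by_cases h : i < l
    · rw [if_pos (by omega), if_pos h, cons_succ]
    · rw [if_neg (by omega), if_neg h, cons_succ]

end Ser

variable {k : Type} [Field k] [CharP k 2]

theorem dCh_dCh (F : Ch k) : dCh (dCh F) = 0 := by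
  refine ch_ext (fun X n g => ?_)
  match n with
  | 0 => rfl
  | 1 =>
    rw [dCh_succ, coe_zero_apply]
    exact Finset.sum_eq_zero (fun l _ => rfl)
  | n + 2 =>
    rw [coe_zero_apply]
    exact Ser.fc_fc (add_self X) n (F.1 X n) g

/-- The contraction. -/
def cn : Ch k →+ Ch k where
  toFun F := ⟨fun X n g => F.1 X (n + 1) (Ser.cons 1 g), by
    obtain ⟨F, F1, F2, N, F3⟩ := F
    refine ⟨?_, ?_, N, ?_⟩
    · intro X Y φ n g
      change φ (F X (n + 1) _) = F Y (n + 1) _
      rw [F1]
      congr 1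
      funext i
      cases i with
      | zero => exact map_one (Bor.map φ)
      | succ i => rfl
    · intro X n g g' h
      refine F2 X (n + 1) _ _ (fun i hi => ?_)
      cases i with
      | zero => rfl
      | succ i => exact h i (by omega)
    · intro n hn X g
      exact F3 (n + 1) (by omega) X _⟩
  map_zero' := ch_ext (fun X n g => rfl)
  map_add' F G := ch_ext (fun X n g => rfl)

theorem cn_apply (F : Ch k) (X : Alg k) (n : ℕ) (g : ℕ → Bor X) :
    (cn F).1 X n g = F.1 X (n + 1) (Ser.cons 1 g) := rfl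

/-- The field as an algebra. -/
def kk (k : Type) [Field k] : Alg k := ⟨k⟩

/-- The value of the component of degree zero at the constant sequence. -/
def ev0 (F : Ch k) : k := F.1 (kk k) 0 (fun _ => 1)

theorem ev0_eq (F : Ch k) (X : Alg k) (g : ℕ → Bor X) (h : g 0 = 1) :
    F.1 X 0 g = algebraMap k X.A (ev0 F) := by
  have h1 := F.2.1 (kk k) X (Algebra.ofId k X.A) 0 (fun _ => 1)
  rw [F.2.2.1 X 0 g (fun i => Bor.map (X := kk k) (Algebra.ofId k X.A) 1)]
  · exact h1.symm
  · intro i hi
    obtain rfl : i = 0 := by omega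
    rw [h, map_one]

theorem cst_apply (c : k) (X : Alg k) (n : ℕ) (g : ℕ → Bor X) :
    (cst c).1 X n g = if n = 0 then algebraMap k X.A c else 0 := rfl

/-- The contraction formula. -/
theorem cn_formula (F : Ch k) : dCh (cn F) + cn (dCh F) = F + cst (ev0 F) := by
  refine ch_ext (fun X n g => ?_)
  rw [coe_add_apply, coe_add_apply, cn_apply, dCh_succ, Finset.sum_range_succ',
    Ser.skip_zero_cons, cst_apply]
  simp only [Ser.skip_succ_cons]
  cases n with
  | zero =>
    rw [dCh_zero, Finset.sum_range_one, ev0_eq F X _ (Ser.cons_zero _ _), if_pos rfl]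
    ring
  | succ n =>
    rw [dCh_succ, if_neg (by omega)]
    simp only [cn_apply]
    rw [← add_assoc, add_self X, zero_add, add_zero]

/-- The cochain has components only in degree `n`. -/
def Hom (n : ℕ) (F : Ch k) : Prop :=
  ∀ (X : Alg k) (m : ℕ) (g : ℕ → Bor X), m ≠ n → F.1 X m g = 0

theorem hom_fnN (n : ℕ) (f : ∀ X : Alg k, (ℕ → Bor X) → X.A) (nat) (loc) :
    Hom n (fnN n f nat loc) := by
  intro X m g hm
  rw [fnN_apply, if_neg hm]

theorem hom_cst (c : k) : Hom 0 (cst c) := by
  intro X m g hm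
  rw [cst_apply, if_neg hm]

theorem Hom.add {n : ℕ} {F G : Ch k} (hF : Hom n F) (hG : Hom n G) : Hom n (F + G) := by
  intro X m g hm
  rw [coe_add_apply, hF X m g hm, hG X m g hm, add_zero]

theorem Hom.mul {m n : ℕ} {F G : Ch k} (hF : Hom m F) (hG : Hom n G) : Hom (m + n) (F * G) := by
  intro X l g hl
  rw [coe_mul_apply]
  refine Finset.sum_eq_zero (fun p hp => ?_)
  rw [Finset.HasAntidiagonal.mem_antidiagonal] at hp
  by_cases h : p.1 = m
  · rw [hG X p.2 _ (by omega), mul_zero]
  · rw [hF X p.1 _ h, zero_mul]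

theorem Hom.dCh {n : ℕ} {F : Ch k} (hF : Hom n F) : Hom (n + 1) (dCh F) := by
  intro X m g hm
  cases m with
  | zero => rfl
  | succ m =>
    rw [dCh_succ]
    exact Finset.sum_eq_zero (fun l _ => hF X m _ (by omega))

theorem Hom.cup1 {m n : ℕ} {F G : Ch k} (hF : Hom m F) (hG : Hom (n + 1) G) :
    Hom (m + n) (cup1 F G) := by
  intro X l g hl
  rw [cup1_apply]
  refine Finset.sum_eq_zero (fun p hp => Finset.sum_eq_zero (fun i _ => ?_))
  rw [Finset.HasAntidiagonal.mem_antidiagonal] at hp
  by_cases h : p.1 = m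
  · rw [hG X (p.2 + 1) _ (by omega), mul_zero]
  · rw [hF X p.1 _ h, zero_mul]

theorem Hom.sq {n : ℕ} {F : Ch k} (hF : Hom n F) : Hom (n + n) (sq F) :=
  (hF.mul hF).add (hF.cup1 hF.dCh)

theorem Hom.pow {n : ℕ} {F : Ch k} (hF : Hom n F) (m : ℕ) : Hom (m * n) (F ^ m) := by
  induction m with
  | zero =>
    rw [zero_mul, pow_zero]
    intro X m g hm
    rw [coe_one_apply, if_neg hm]
  | succ m ih =>
    rw [pow_succ, add_mul, one_mul]
    exact ih.mul hF

end Q30.FK
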