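import Pool.Agent.Q30.FK.Coch

/-!
# The cohomology ring of the second Frobenius kernel of the Borel subgroup of `SL_3` in
characteristic two: the definitions of the statement
-/

namespace Q30.FK

open Matrix

section

variable {k : Type} [Field k] [CharP k 2]

/-- The points over the algebra `X` of the kernel `B_2` of the second power of the Frobenius
morphism on the Borel subgroup of the upper triangular matrices in `SL_3`, that is, the upper
triangular matrices of determinant one whose entries have the same fourth powers as the entries
of the identity matrix. -/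
def Pt (X : Alg k) : Type := {g : SpecialLinearGroup (Fin 3) X.A // g ∈ borSet X}

/-- The product of two points. -/
def ptMul {X : Alg k} (g h : Pt X) : Pt X := ⟨g.1 * h.1, borSet_mul g.2 h.2⟩

theorem ptMap_mem {X Y : Alg k} (φ : X.A →ₐ[k] Y.A) (g : Pt X) :
    SpecialLinearGroup.map (φ : X.A →+* Y.A) g.1 ∈ borSet Y := map_mem_bor φ g

/-- The map of points induced by a homomorphism of algebras. -/
def ptMap {X Y : Alg k} (φ : X.A →ₐ[k] Y.A) (g : Pt X) : Pt Y :=
  ⟨SpecialLinearGroup.map (φ : X.A →+* Y.A) g.1, ptMap_mem φ g⟩

end

section

variable (k : Type) [Field k] [CharP k 2]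

/-- Families of functions of sequences of points. -/
def Fam : Type 1 := ∀ X : Alg k, Ser (Pt X) X.A

/-- The pointwise ring structure. -/
instance famRing : Ring (Fam k) := Pi.ring

/-- The component of degree `n` of a family at the algebra `X`. -/
def Fam.comp {k : Type} [Field k] [CharP k 2] (F : Fam k) (X : Alg k) (n : ℕ)
    (g : ℕ → Pt X) : X.A := F X n g

/-- A cochain `F` consists of finitely many components `F n`, where `F n` is a regular function of
the first `n + 1` entries of a sequence of points, that is, a function on `B_2 ^ (n + 1)` which is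
natural in the algebra. -/
def IsCochain {k : Type} [Field k] [CharP k 2] (F : Fam k) : Prop :=
  (∀ (X Y : Alg k) (φ : X.A →ₐ[k] Y.A) (n : ℕ) (g : ℕ → Pt X),
      φ (F.comp X n g) = F.comp Y n (fun i => ptMap φ (g i))) ∧
    (∀ X : Alg k, Ser.Loc (F X)) ∧
      ∃ N, ∀ n, N < n → ∀ (X : Alg k) (g : ℕ → Pt X), F.comp X n g = 0

theorem isCochain_mul {F G : Fam k} (hF : IsCochain F) (hG : IsCochain G) :
    IsCochain (F * G) := chSet_mul hF hG

theorem isCochain_one : IsCochain (1 : Fam k) := chSet_one

theorem isCochain_add {F G : Fam k} (hF : IsCochain F) (hG : IsCochain G) :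
    IsCochain (F + G) := chSet_add hF hG

theorem isCochain_zero : IsCochain (0 : Fam k) := chSet_zero

theorem isCochain_neg {F : Fam k} (hF : IsCochain F) : IsCochain (-F) := chSet_neg hF

/-- The subring of the cochains. -/
def cochSub : Subring (Fam k) where
  carrier := {F | IsCochain F}
  mul_mem' := isCochain_mul k
  one_mem' := isCochain_one k
  add_mem' := isCochain_add k
  zero_mem' := isCochain_zero k
  neg_mem' := isCochain_neg k

/-- The ring of the cochains, with the cup product. -/
def Coc : Type 1 := cochSub k

/-- The ring structure of the ring of the cochains. -/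
instance cocRing : Ring (Coc k) := (cochSub k).toRing

theorem isCochain_d (F : Coc k) : IsCochain (fun X => Ser.dfun (F.1 X)) := d_mem_ch F

/-- The differential of a cochain. -/
def dCoc (F : Coc k) : Coc k := ⟨fun X => Ser.dfun (F.1 X), isCochain_d k F⟩

theorem dCoc_zero : dCoc k 0 = 0 := dFun_zero

theorem dCoc_add (F G : Coc k) : dCoc k (F + G) = dCoc k F + dCoc k G := dFun_add F G

/-- The differential as an additive map. -/
def dAdd : Coc k →+ Coc k where
  toFun := dCoc k
  map_zero' := dCoc_zero k
  map_add' := dCoc_add k

theorem dAdd_leib (F G : Coc k) : dAdd k (F * G) = dAdd k F * G + F * dAdd k G := dCh_leib F G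

/-- The ring of the cochains with its differential. -/
def dgB : DG (Coc k) where
  d := dAdd k
  leib := dAdd_leib k

/-- The cochain is invariant under the simultaneous left translations of all entries. -/
def IsInv {k : Type} [Field k] [CharP k 2] (F : Coc k) : Prop :=
  ∀ (X : Alg k) (h : Pt X) (n : ℕ) (g : ℕ → Pt X),
    Fam.comp F.1 X n (fun i => ptMul h (g i)) = Fam.comp F.1 X n g

theorem isInv_mul {F G : Coc k} (hF : IsInv F) (hG : IsInv G) : IsInv (F * G) :=
  fun X h n g => invSet_mul (E := fun X => (Set.univ : Set (Bor X))) (fun X h _ n g => hF X h n g)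
    (fun X h _ n g => hG X h n g) X h (Set.mem_univ _) n g

theorem isInv_one : IsInv (1 : Coc k) := fun _ _ _ _ => rfl

theorem isInv_add {F G : Coc k} (hF : IsInv F) (hG : IsInv G) : IsInv (F + G) :=
  fun X h n g => invSet_add (E := fun X => (Set.univ : Set (Bor X))) (fun X h _ n g => hF X h n g)
    (fun X h _ n g => hG X h n g) X h (Set.mem_univ _) n g

theorem isInv_zero : IsInv (0 : Coc k) := fun _ _ _ _ => rfl

theorem isInv_neg {F : Coc k} (hF : IsInv F) : IsInv (-F) :=
  fun X h n g => invSet_neg (E := fun X => (Set.univ : Set (Bor X))) (fun X h _ n g => hF X h n g)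
    X h (Set.mem_univ _) n g

/-- The subring of the invariant cochains. -/
def invB : Subring (Coc k) where
  carrier := {F | IsInv F}
  mul_mem' := isInv_mul k
  one_mem' := isInv_one k
  add_mem' := isInv_add k
  zero_mem' := isInv_zero k
  neg_mem' := isInv_neg k

/-- The ideal of the coboundaries in the ring of the cocycles. -/
def cobB : Ideal ((dgB k).Z (invB k)) := (dgB k).B (invB k)

/-- The rational cohomology ring `H(B_2, k)`: the cocycles modulo the coboundaries in the ring of
the invariant (homogeneous) cochains. -/
def CohB : Type 1 := (dgB k).Z (invB k) ⧸ cobB k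

end

end Q30.FK
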