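import Pool.Agent.Q30.FK.Ser

/-!
# The differential and the cup-one product
-/

universe u v

namespace Q30.FK

open Finset

namespace Ser

variable {Γ : Type u} {A : Type v} [CommRing A]

/-- The sequence without the entry `l`. -/
def skip (l : ℕ) (g : ℕ → Γ) : ℕ → Γ := fun j => if j < l then g j else g (j + 1)

/-- The sequence without the entries `i + 1, ..., i + p`. -/
def cut (i p : ℕ) (g : ℕ → Γ) : ℕ → Γ := fun j => if j ≤ i then g j else g (j + p)

/-- The alternating sum of the faces (no signs are needed in characteristic two). -/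
def fc (N : ℕ) (f : (ℕ → Γ) → A) (g : ℕ → Γ) : A := ∑ l ∈ range (N + 2), f (skip l g)

/-- The differential. -/
def dfun (F : Ser Γ A) : Ser Γ A
  | 0, _ => 0
  | N + 1, g => fc N (F N) g

theorem dfun_zero : dfun (0 : Ser Γ A) = 0 := by
  ext N g
  cases N with
  | zero => rfl
  | succ N => simp [dfun, fc, zero_apply]

theorem dfun_add (F G : Ser Γ A) : dfun (F + G) = dfun F + dfun G := by
  ext N g
  cases N with
  | zero => simp [dfun, add_apply]
  | succ N => simp [dfun, fc, add_apply, sum_add_distrib]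

/-- The differential as an additive map. -/
def d : Ser Γ A →+ Ser Γ A where
  toFun := dfun
  map_zero' := dfun_zero
  map_add' := dfun_add

theorem d_zero (F : Ser Γ A) (g : ℕ → Γ) : d F 0 g = 0 := rfl

theorem d_succ (F : Ser Γ A) (N : ℕ) (g : ℕ → Γ) : d F (N + 1) g = fc N (F N) g := rfl

/-- The component `F n` depends only on the first `n + 1` entries. -/
def Loc (F : Ser Γ A) : Prop := ∀ n g g', (∀ i ≤ n, g i = g' i) → F n g = F n g'

/-- The function `f` depends only on the first `n + 1` entries. -/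
def LocF (n : ℕ) (f : (ℕ → Γ) → A) : Prop := ∀ g g', (∀ i ≤ n, g i = g' i) → f g = f g'

theorem sh_skip_le {l m : ℕ} (h : l ≤ m) (g : ℕ → Γ) : sh m (skip l g) = sh (m + 1) g := by
  funext i
  unfold sh skip
  try dsimp only
  rw [if_neg (by omega)]
  rfl

theorem sh_skip_add (m l : ℕ) (g : ℕ → Γ) : sh m (skip (m + 1 + l) g) = skip (l + 1) (sh m g) := by
  funext i
  unfold sh skip
  try dsimp only
  by_cases h : i + m < m + 1 + l
  · rw [if_pos h, if_pos (by omega)]
  · rw [if_neg h, if_neg (by omega)]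
    congr 1
    omega

theorem cut_skip_le {i l : ℕ} (h : l ≤ i) (p : ℕ) (g : ℕ → Γ) :
    cut i p (skip l g) = skip l (cut (i + 1) p g) := by
  funext j
  unfold cut skip
  try dsimp only
  by_cases h1 : j ≤ i
  · rw [if_pos h1]
    by_cases h2 : j < l
    · rw [if_pos h2, if_pos h2, if_pos (by omega)]
    · rw [if_neg h2, if_neg h2, if_pos (by omega)]
  · rw [if_neg h1, if_neg (by omega), if_neg (by omega), if_neg (by omega)]
    congr 1
    omega

theorem cut_skip_mid (i p l : ℕ) (h : l < p + 1) (g : ℕ → Γ) :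
    cut i p (skip (i + 1 + l) g) = cut i (p + 1) g := by
  funext j
  unfold cut skip
  try dsimp only
  by_cases h1 : j ≤ i
  · rw [if_pos h1, if_pos h1, if_pos (by omega)]
  · rw [if_neg h1, if_neg h1, if_neg (by omega)]
    congr 1

theorem cut_skip_gt (i p l : ℕ) (g : ℕ → Γ) :
    cut i p (skip (i + 1 + (p + 1 + l)) g) = skip (i + 2 + l) (cut i p g) := by
  funext j
  unfold cut skip
  try dsimp only
  by_cases h1 : j ≤ i
  · rw [if_pos h1, if_pos (by omega), if_pos (by omega), if_pos h1]
  · rw [if_neg h1]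
    by_cases h2 : j < i + 2 + l
    · rw [if_pos (by omega), if_pos h2, if_neg h1]
    · rw [if_neg (by omega), if_neg h2, if_neg (by omega)]
      congr 1
      omega

theorem skip_cut (i p : ℕ) (g : ℕ → Γ) : skip (i + 1) (cut i p g) = cut i (p + 1) g := by
  funext j
  unfold cut skip
  try dsimp only
  by_cases h1 : j ≤ i
  · rw [if_pos h1, if_pos (by omega), if_pos h1]
  · have e1 : ¬ j < i + 1 := by omega
    have e2 : ¬ j + 1 ≤ i := by omega
    rw [if_neg e1, if_neg e2, if_neg h1]
    congr 1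
    omega

theorem skip_cut_self (i p : ℕ) (g : ℕ → Γ) :
    skip (i + 1) (cut (i + 1) p g) = cut i (p + 1) g := by
  funext j
  unfold cut skip
  try dsimp only
  by_cases h1 : j ≤ i
  · rw [if_pos (by omega), if_pos (by omega), if_pos h1]
  · rw [if_neg (by omega), if_neg (by omega), if_neg h1]
    congr 1
    omega

theorem skip_cut_zero (p : ℕ) (g : ℕ → Γ) : skip 0 (cut 0 p g) = sh (p + 1) g := by
  funext j
  unfold cut skip sh
  try dsimp only
  rw [if_neg (by omega), if_neg (by omega)]
  congr 1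
  omega

theorem cut_zero (i : ℕ) (g : ℕ → Γ) : cut i 0 g = g := by
  funext j
  unfold cut
  try dsimp only
  by_cases h1 : j ≤ i
  · rw [if_pos h1]
  · rw [if_neg h1]
    rfl

theorem skip_zero (g : ℕ → Γ) : skip 0 g = sh 1 g := by
  funext j
  unfold skip sh
  try dsimp only
  rw [if_neg (by omega)]

omit [CommRing A] in
theorem LocF.skip {n l : ℕ} {f : (ℕ → Γ) → A} (hf : LocF n f) (h : n < l) (g : ℕ → Γ) :
    f (Ser.skip l g) = f g := by
  apply hf
  intro i hi
  unfold Ser.skip
  try dsimp only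
  rw [if_pos (by omega)]

omit [CommRing A] in
theorem LocF.cut {n p : ℕ} {f : (ℕ → Γ) → A} (hf : LocF n f) (g : ℕ → Γ) :
    f (Ser.cut n p g) = f g := by
  apply hf
  intro i hi
  unfold Ser.cut
  try dsimp only
  rw [if_pos hi]

theorem add_cancel2 (h2 : ∀ x : A, x + x = 0) (x y : A) : x + (x + y) = y := by
  rw [← add_assoc, h2, zero_add]

/-- The Leibniz rule for one pair of components. -/
theorem leib_one (h2 : ∀ x : A, x + x = 0) {m n : ℕ} {f h : (ℕ → Γ) → A} (hf : LocF m f)
    (g : ℕ → Γ) :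
    ∑ l ∈ range (m + n + 2), f (skip l g) * h (sh m (skip l g)) =
      fc m f g * h (sh (m + 1) g) + f g * fc n h (sh m g) := by
  have e1 : m + n + 2 = (m + 1) + (n + 1) := by ring
  rw [e1, sum_range_add]
  have e2 : ∀ l ∈ range (m + 1), f (skip l g) * h (sh m (skip l g)) =
      f (skip l g) * h (sh (m + 1) g) := by
    intro l hl
    rw [mem_range] at hl
    rw [sh_skip_le (by omega)]
  have e3 : ∀ l ∈ range (n + 1), f (skip (m + 1 + l) g) * h (sh m (skip (m + 1 + l) g)) =
      f g * h (skip (l + 1) (sh m g)) := by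
    intro l _
    rw [hf.skip (by omega), sh_skip_add]
  rw [sum_congr rfl e2, sum_congr rfl e3, ← sum_mul, ← mul_sum]
  unfold fc
  rw [sum_range_succ (fun l => f (skip l g)) (m + 1), hf.skip (by omega),
    sum_range_succ' (fun l => h (skip l (sh m g))) (n + 1), skip_zero, sh_sh, add_comm 1 m]
  linear_combination (-(f g * h (sh (m + 1) g)) : A) * (by
    have := h2 1
    exact this : (1 : A) + 1 = 0)

/-- The Leibniz rule. -/
theorem leib (h2 : ∀ x : A, x + x = 0) {F G : Ser Γ A} (hF : Loc F) :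
    d (F * G) = d F * G + F * d G := by
  ext N g
  cases N with
  | zero =>
    rw [d_zero, add_apply, mul_apply, mul_apply]
    simp [d_zero]
  | succ N =>
    rw [d_succ, add_apply, mul_apply, mul_apply]
    rw [Nat.sum_antidiagonal_succ (f := fun p : ℕ × ℕ => d F p.1 g * G p.2 (sh p.1 g)),
      Nat.sum_antidiagonal_succ' (f := fun p : ℕ × ℕ => F p.1 g * d G p.2 (sh p.1 g))]
    simp only [d_zero, zero_mul, zero_add, mul_zero, d_succ]
    rw [← sum_add_distrib]
    unfold fc
    simp only [mul_apply]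
    rw [sum_comm]
    refine sum_congr rfl (fun p hp => ?_)
    rw [HasAntidiagonal.mem_antidiagonal] at hp
    rw [← hp]
    exact leib_one h2 (hF p.1) g

/-- The cup-one product. -/
def cup1 (F G : Ser Γ A) : Ser Γ A := fun N g =>
  ∑ q ∈ antidiagonal N, ∑ i ∈ range q.1, F q.1 (cut i q.2 g) * G (q.2 + 1) (sh i g)

theorem cup1_apply (F G : Ser Γ A) (N : ℕ) (g : ℕ → Γ) : cup1 F G N g =
    ∑ q ∈ antidiagonal N, ∑ i ∈ range q.1, F q.1 (cut i q.2 g) * G (q.2 + 1) (sh i g) := rfl

theorem cup1_zero_left (G : Ser Γ A) : cup1 0 G = 0 := by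
  ext N g
  rw [cup1_apply, zero_apply]
  exact sum_eq_zero (fun q _ => sum_eq_zero (fun i _ => by rw [zero_apply, zero_mul]))

theorem cup1_zero_right (F : Ser Γ A) : cup1 F 0 = 0 := by
  ext N g
  rw [cup1_apply, zero_apply]
  exact sum_eq_zero (fun q _ => sum_eq_zero (fun i _ => by rw [zero_apply, mul_zero]))

/-- The homotopy formula for one pair of components of degrees `m` and `p + 1`. -/
theorem homotopy_one (h2 : ∀ x : A, x + x = 0) {m p : ℕ} {f h : (ℕ → Γ) → A} (hf : LocF m f)
    (hh : LocF (p + 1) h) (g : ℕ → Γ) :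
    ∑ l ∈ range (m + p + 2), ∑ i ∈ range m, f (cut i p (skip l g)) * h (sh i (skip l g)) +
      ∑ i ∈ range (m + 1), fc m f (cut i p g) * h (sh i g) +
      ∑ i ∈ range m, f (cut i (p + 1) g) * fc (p + 1) h (sh i g) =
    f g * h (sh m g) + h g * f (sh (p + 1) g) := by
  set a : ℕ → A := fun i => (∑ l ∈ range i, f (skip l (cut i p g))) * h (sh i g) with ha
  set c : ℕ → A := fun i => (∑ l ∈ range (m - i), f (skip (i + 2 + l) (cut i p g))) * h (sh i g)
    with hc
  set b : ℕ → A := fun i => f (cut i (p + 1) g) * ∑ l ∈ range (p + 1), h (skip (l + 1) (sh i g))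
    with hb
  have e1 : ∑ l ∈ range (m + p + 2), ∑ i ∈ range m,
      f (cut i p (skip l g)) * h (sh i (skip l g)) =
      ∑ i ∈ range m, (a (i + 1) + b i + c i) := by
    rw [sum_comm]
    refine sum_congr rfl (fun i hi => ?_)
    rw [mem_range] at hi
    have e : m + p + 2 = (i + 1) + ((p + 1) + (m - i)) := by omega
    rw [e, sum_range_add _ (i + 1) ((p + 1) + (m - i)), sum_range_add _ (p + 1) (m - i), ha, hb, hc]
    simp only
    rw [sum_mul, mul_sum, sum_mul, ← add_assoc]
    congr 1
    · congr 1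
      · refine sum_congr rfl (fun l hl => ?_)
        rw [mem_range] at hl
        rw [cut_skip_le (by omega), sh_skip_le (by omega)]
      · refine sum_congr rfl (fun l hl => ?_)
        rw [mem_range] at hl
        rw [cut_skip_mid i p l hl, sh_skip_add]
    · refine sum_congr rfl (fun l hl => ?_)
      rw [cut_skip_gt, sh_skip_add, hh.skip (by omega)]
  have e2 : ∑ i ∈ range (m + 1), fc m f (cut i p g) * h (sh i g) =
      ∑ i ∈ range (m + 1), (a i + (f (skip i (cut i p g)) + f (skip (i + 1) (cut i p g))) *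
        h (sh i g) + c i) := by
    refine sum_congr rfl (fun i hi => ?_)
    rw [mem_range] at hi
    unfold fc
    have e : m + 2 = i + (2 + (m - i)) := by omega
    rw [e, sum_range_add _ i (2 + (m - i)), sum_range_add _ 2 (m - i), sum_range_succ _ 1,
      sum_range_one, ha, hc]
    simp only [add_zero]
    have e' : ∀ l, i + (2 + l) = i + 2 + l := fun l => by ring
    simp only [e']
    ring
  have e3 : ∑ i ∈ range m, f (cut i (p + 1) g) * fc (p + 1) h (sh i g) =
      ∑ i ∈ range m, (b i + f (cut i (p + 1) g) * (h (sh (i + 1) g) + h (sh i g))) := by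
    refine sum_congr rfl (fun i hi => ?_)
    unfold fc
    rw [sum_range_succ, sum_range_succ', hh.skip (l := p + 1 + 1) (by omega) (sh i g), skip_zero,
      sh_sh, hb, add_comm 1 i]
    ring
  rw [e1, e2, e3]
  have e4 : ∑ i ∈ range (m + 1), (f (skip i (cut i p g)) + f (skip (i + 1) (cut i p g))) *
        h (sh i g) = f (sh (p + 1) g) * h g + f g * h (sh m g) +
      ∑ i ∈ range m, (f (cut i (p + 1) g) * h (sh (i + 1) g) +
        f (cut i (p + 1) g) * h (sh i g)) := by
    simp only [add_mul, sum_add_distrib]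
    rw [sum_range_succ' (fun i => f (skip i (cut i p g)) * h (sh i g)),
      sum_range_succ (fun i => f (skip (i + 1) (cut i p g)) * h (sh i g)), skip_cut_zero,
      sh_zero]
    simp only [skip_cut_self, skip_cut]
    rw [hf.cut]
    ring
  have e5 : ∑ i ∈ range (m + 1), a i = ∑ i ∈ range m, a (i + 1) := by
    rw [sum_range_succ' a]
    simp [ha]
  have e6 : ∑ i ∈ range (m + 1), c i = ∑ i ∈ range m, c i := by
    rw [sum_range_succ c]
    simp [hc]
  simp only [sum_add_distrib] at e4 ⊢
  rw [e4, e5, e6]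
  simp only [mul_add, sum_add_distrib]
  have h2' : (1 : A) + 1 = 0 := h2 1
  linear_combination (∑ i ∈ range m, a (i + 1) + ∑ i ∈ range m, b i + ∑ i ∈ range m, c i +
    ∑ i ∈ range m, f (cut i (p + 1) g) * h (sh (i + 1) g) +
    ∑ i ∈ range m, f (cut i (p + 1) g) * h (sh i g)) * h2'

/-- The homotopy formula for components of degrees `m` and zero. -/
theorem homotopy_zero (h2 : ∀ x : A, x + x = 0) (m : ℕ) {f h : (ℕ → Γ) → A}
    (hh : LocF 0 h) (g : ℕ → Γ) :
    ∑ i ∈ range m, f (cut i 0 g) * fc 0 h (sh i g) = f g * h (sh m g) + h g * f g := by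
  have h2' : (1 : A) + 1 = 0 := h2 1
  induction m with
  | zero =>
    rw [sum_range_zero, sh_zero]
    linear_combination (-(f g * h g)) * h2'
  | succ m ih =>
    rw [sum_range_succ, ih, cut_zero]
    unfold fc
    rw [sum_range_succ, sum_range_one, skip_zero, sh_sh, hh.skip (by omega), add_comm 1 m]
    linear_combination (f g * h (sh m g)) * h2'

/-- The homotopy formula: the cup product is commutative up to homotopy. -/
theorem homotopy (h2 : ∀ x : A, x + x = 0) {F G : Ser Γ A} (hF : Loc F) (hG : Loc G) :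
    F * G + G * F = d (cup1 F G) + cup1 (d F) G + cup1 F (d G) := by
  have h2' : (1 : A) + 1 = 0 := h2 1
  ext N g
  cases N with
  | zero =>
    simp only [add_apply, mul_apply, d_zero, cup1_apply, Nat.antidiagonal_zero, sum_singleton,
      range_zero, sum_empty, sh_zero]
    linear_combination (F 0 g * G 0 g) * h2'
  | succ N =>
    have hFG : (F * G) (N + 1) g = F (N + 1) g * G 0 (sh (N + 1) g) +
        ∑ q ∈ antidiagonal N, F q.1 g * G (q.2 + 1) (sh q.1 g) := by
      rw [mul_apply, Nat.sum_antidiagonal_succ'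
        (f := fun p : ℕ × ℕ => F p.1 g * G p.2 (sh p.1 g))]
    have hGF : (G * F) (N + 1) g = G 0 g * F (N + 1) g +
        ∑ q ∈ antidiagonal N, G (q.2 + 1) g * F q.1 (sh (q.2 + 1) g) := by
      rw [mul_apply, Nat.sum_antidiagonal_succ
        (f := fun p : ℕ × ℕ => G p.1 g * F p.2 (sh p.1 g)), sh_zero]
      congr 1
      rw [← Nat.sum_antidiagonal_swap]
      rfl
    have h1 : d (cup1 F G) (N + 1) g = ∑ q ∈ antidiagonal N, ∑ l ∈ range (N + 2),
        ∑ i ∈ range q.1, F q.1 (cut i q.2 (skip l g)) * G (q.2 + 1) (sh i (skip l g)) := by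
      rw [d_succ]
      unfold fc
      simp only [cup1_apply]
      rw [sum_comm]
    have h3 : cup1 (d F) G (N + 1) g = ∑ q ∈ antidiagonal N, ∑ i ∈ range (q.1 + 1),
        fc q.1 (F q.1) (cut i q.2 g) * G (q.2 + 1) (sh i g) := by
      rw [cup1_apply, Nat.sum_antidiagonal_succ (f := fun q : ℕ × ℕ => ∑ i ∈ range q.1,
        d F q.1 (cut i q.2 g) * G (q.2 + 1) (sh i g))]
      simp only [range_zero, sum_empty, zero_add, d_succ]
    have h4 : cup1 F (d G) (N + 1) g = (∑ i ∈ range (N + 1), F (N + 1) (cut i 0 g) *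
        fc 0 (G 0) (sh i g)) + ∑ q ∈ antidiagonal N, ∑ i ∈ range q.1,
        F q.1 (cut i (q.2 + 1) g) * fc (q.2 + 1) (G (q.2 + 1)) (sh i g) := by
      rw [cup1_apply, Nat.sum_antidiagonal_succ' (f := fun q : ℕ × ℕ => ∑ i ∈ range q.1,
        F q.1 (cut i q.2 g) * d G (q.2 + 1) (sh i g))]
      simp only [d_succ]
    rw [add_apply, add_apply, add_apply, hFG, hGF, h1, h3, h4,
      homotopy_zero h2 (N + 1) (hG 0) g]
    have h5 : ∀ q ∈ antidiagonal N, (∑ l ∈ range (N + 2),
        ∑ i ∈ range q.1, F q.1 (cut i q.2 (skip l g)) * G (q.2 + 1) (sh i (skip l g))) +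
        (∑ i ∈ range (q.1 + 1), fc q.1 (F q.1) (cut i q.2 g) * G (q.2 + 1) (sh i g)) +
        (∑ i ∈ range q.1, F q.1 (cut i (q.2 + 1) g) * fc (q.2 + 1) (G (q.2 + 1)) (sh i g)) =
        F q.1 g * G (q.2 + 1) (sh q.1 g) + G (q.2 + 1) g * F q.1 (sh (q.2 + 1) g) := by
      intro q hq
      rw [HasAntidiagonal.mem_antidiagonal] at hq
      rw [← hq]
      exact homotopy_one h2 (hF q.1) (hG (q.2 + 1)) g
    have h6 := sum_congr rfl h5
    simp only [sum_add_distrib] at h6
    linear_combination -h6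

end Ser

end Q30.FK
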