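import Pool.Agent.Q30.FK.Ring

/-!
# Coordinates, a chain of subgroups, and the basic classes
-/

namespace Q30.FK

open Matrix

variable {k : Type} [Field k] [CharP k 2]

section Coord

variable {X : Alg k}

theorem bor_ext {g h : Bor X} (e : ∀ i j, g.1 i j = h.1 i j) : g = h := by
  apply Subtype.ext
  apply Subtype.ext
  ext i j
  exact e i j

theorem b10 (g : Bor X) : g.1 1 0 = 0 := g.2.1
theorem b20 (g : Bor X) : g.1 2 0 = 0 := g.2.2.1
theorem b21 (g : Bor X) : g.1 2 1 = 0 := g.2.2.2.1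
theorem b00 (g : Bor X) : g.1 0 0 ^ 4 = 1 := by rw [g.2.2.2.2]; rfl
theorem b11 (g : Bor X) : g.1 1 1 ^ 4 = 1 := by rw [g.2.2.2.2]; rfl
theorem b22 (g : Bor X) : g.1 2 2 ^ 4 = 1 := by rw [g.2.2.2.2]; rfl
theorem b01 (g : Bor X) : g.1 0 1 ^ 4 = 0 := by rw [g.2.2.2.2]; rfl
theorem b02 (g : Bor X) : g.1 0 2 ^ 4 = 0 := by rw [g.2.2.2.2]; rfl
theorem b12 (g : Bor X) : g.1 1 2 ^ 4 = 0 := by rw [g.2.2.2.2]; rfl

theorem bor_mul (g h : Bor X) (i j : Fin 3) :
    (g * h).1 i j = g.1 i 0 * h.1 0 j + g.1 i 1 * h.1 1 j + g.1 i 2 * h.1 2 j := by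
  change (g.1.1 * h.1.1 : Matrix (Fin 3) (Fin 3) X.A) i j = _
  rw [Matrix.mul_apply, Fin.sum_univ_three]

theorem mul00 (g h : Bor X) : (g * h).1 0 0 = g.1 0 0 * h.1 0 0 := by
  rw [bor_mul, b10, b20]; ring
theorem mul11 (g h : Bor X) : (g * h).1 1 1 = g.1 1 1 * h.1 1 1 := by
  rw [bor_mul, b10, b21]; ring
theorem mul22 (g h : Bor X) : (g * h).1 2 2 = g.1 2 2 * h.1 2 2 := by
  rw [bor_mul, b20, b21]; ring
theorem mul01 (g h : Bor X) : (g * h).1 0 1 = g.1 0 0 * h.1 0 1 + g.1 0 1 * h.1 1 1 := by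
  rw [bor_mul, b21]; ring
theorem mul12 (g h : Bor X) : (g * h).1 1 2 = g.1 1 1 * h.1 1 2 + g.1 1 2 * h.1 2 2 := by
  rw [bor_mul, b10]; ring
theorem mul02 (g h : Bor X) : (g * h).1 0 2 =
    g.1 0 0 * h.1 0 2 + g.1 0 1 * h.1 1 2 + g.1 0 2 * h.1 2 2 := bor_mul g h 0 2

/-- The coordinate `a` of `u t`, where `u` is unipotent with entries `a`, `b`, `c` and `t` is
diagonal. -/
def ca (g : Bor X) : X.A := g.1 0 1 * g.1 1 1 ^ 3
/-- The coordinate `b`. -/
def cb (g : Bor X) : X.A := g.1 1 2 * g.1 2 2 ^ 3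
/-- The coordinate `c`. -/
def cc (g : Bor X) : X.A := g.1 0 2 * g.1 2 2 ^ 3
/-- The weight of `a`. -/
def wa (g : Bor X) : X.A := g.1 0 0 * g.1 1 1 ^ 3
/-- The weight of `b`. -/
def wb (g : Bor X) : X.A := g.1 1 1 * g.1 2 2 ^ 3

theorem ca_mul (h g : Bor X) : ca (h * g) = ca h + wa h * ca g := by
  unfold ca wa
  rw [mul01, mul11]
  linear_combination (h.1 0 1 * h.1 1 1 ^ 3) * b11 g

theorem cb_mul (h g : Bor X) : cb (h * g) = cb h + wb h * cb g := by
  unfold cb wb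
  rw [mul12, mul22]
  linear_combination (h.1 1 2 * h.1 2 2 ^ 3) * b22 g

theorem cc_mul (h g : Bor X) :
    cc (h * g) = cc h + wa h * wb h * cc g + ca h * wb h * cb g := by
  unfold cc wa wb ca cb
  rw [mul02, mul22]
  linear_combination (h.1 0 2 * h.1 2 2 ^ 3) * b22 g -
    (h.1 0 0 * h.1 2 2 ^ 3 * g.1 0 2 * g.1 2 2 ^ 3 +
      h.1 0 1 * h.1 2 2 ^ 3 * g.1 1 2 * g.1 2 2 ^ 3) * b11 h

theorem ca_four (g : Bor X) : ca g ^ 4 = 0 := by
  unfold ca
  rw [mul_pow, b01, zero_mul]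

theorem cb_four (g : Bor X) : cb g ^ 4 = 0 := by
  unfold cb
  rw [mul_pow, b12, zero_mul]

theorem cc_four (g : Bor X) : cc g ^ 4 = 0 := by
  unfold cc
  rw [mul_pow, b02, zero_mul]

theorem wa_four (g : Bor X) : wa g ^ 4 = 1 := by
  unfold wa
  rw [mul_pow, b00, ← pow_mul, mul_comm 3 4, pow_mul, b11, one_pow, one_mul]

theorem wb_four (g : Bor X) : wb g ^ 4 = 1 := by
  unfold wb
  rw [mul_pow, b11, ← pow_mul, mul_comm 3 4, pow_mul, b22, one_pow, one_mul]

theorem map_entry {Y : Alg k} (φ : X.A →ₐ[k] Y.A) (g : Bor X) (i j : Fin 3) :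
    (Bor.map φ g).1 i j = φ (g.1 i j) := rfl

theorem ca_map {Y : Alg k} (φ : X.A →ₐ[k] Y.A) (g : Bor X) : φ (ca g) = ca (Bor.map φ g) := by
  unfold ca
  rw [map_mul, map_pow, map_entry, map_entry]

theorem cb_map {Y : Alg k} (φ : X.A →ₐ[k] Y.A) (g : Bor X) : φ (cb g) = cb (Bor.map φ g) := by
  unfold cb
  rw [map_mul, map_pow, map_entry, map_entry]

theorem cc_map {Y : Alg k} (φ : X.A →ₐ[k] Y.A) (g : Bor X) : φ (cc g) = cc (Bor.map φ g) := by
  unfold cc
  rw [map_mul, map_pow, map_entry, map_entry]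

/-- The unipotent element with coordinates `a`, `b`, `c`. -/
def uu (a b c : X.A) (ha : a ^ 4 = 0) (hb : b ^ 4 = 0) (hc : c ^ 4 = 0) : Bor X :=
  ⟨⟨!![1, a, c; 0, 1, b; 0, 0, 1], by simp [Matrix.det_fin_three]⟩, by
    refine ⟨rfl, rfl, rfl, ?_⟩
    intro i j
    fin_cases i <;> fin_cases j
    · exact (one_pow 4).trans (if_pos rfl).symm
    · exact ha.trans (if_neg (by decide)).symm
    · exact hc.trans (if_neg (by decide)).symm
    · exact (zero_pow (M₀ := X.A) (by norm_num)).trans (if_neg (by decide)).symm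
    · exact (one_pow 4).trans (if_pos rfl).symm
    · exact hb.trans (if_neg (by decide)).symm
    · exact (zero_pow (M₀ := X.A) (by norm_num)).trans (if_neg (by decide)).symm
    · exact (zero_pow (M₀ := X.A) (by norm_num)).trans (if_neg (by decide)).symm
    · exact (one_pow 4).trans (if_pos rfl).symm⟩

/-- The diagonal element with entries `s`, `s⁻¹ t`, `t⁻¹`. -/
def tt (s t : X.A) (hs : s ^ 4 = 1) (ht : t ^ 4 = 1) : Bor X :=
  ⟨⟨!![s, 0, 0; 0, s ^ 3 * t, 0; 0, 0, t ^ 3], by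
    rw [Matrix.det_fin_three]
    simp
    linear_combination (t ^ 4) * hs + ht⟩, by
    refine ⟨rfl, rfl, rfl, ?_⟩
    have h3 : (s ^ 3 * t) ^ 4 = 1 := by
      rw [mul_pow, ← pow_mul, mul_comm 3 4, pow_mul, hs, one_pow, ht, one_mul]
    have h4 : (t ^ 3) ^ 4 = 1 := by
      rw [← pow_mul, mul_comm 3 4, pow_mul, ht, one_pow]
    intro i j
    fin_cases i <;> fin_cases j
    · exact hs.trans (if_pos rfl).symm
    · exact (zero_pow (M₀ := X.A) (by norm_num)).trans (if_neg (by decide)).symm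
    · exact (zero_pow (M₀ := X.A) (by norm_num)).trans (if_neg (by decide)).symm
    · exact (zero_pow (M₀ := X.A) (by norm_num)).trans (if_neg (by decide)).symm
    · exact h3.trans (if_pos rfl).symm
    · exact (zero_pow (M₀ := X.A) (by norm_num)).trans (if_neg (by decide)).symm
    · exact (zero_pow (M₀ := X.A) (by norm_num)).trans (if_neg (by decide)).symm
    · exact (zero_pow (M₀ := X.A) (by norm_num)).trans (if_neg (by decide)).symm
    · exact h4.trans (if_pos rfl).symm⟩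

end Coord

/-- An increasing chain of subgroups: the trivial one, then the unipotent ones given by
`a = b = c ^ 2 = 0`; `a = b = 0`; `a = b ^ 2 = 0`; `a = 0`; `a ^ 2 = 0`; all; then the product of
all unipotent elements with a torus of rank one; everything. -/
def En (k : Type) [Field k] [CharP k 2] (i : ℕ) (X : Alg k) : Set (Bor X) :=
  match i with
  | 0 => ∅
  | 1 => {h | h.1 0 0 = 1 ∧ h.1 1 1 = 1 ∧ h.1 2 2 = 1 ∧ h.1 0 1 = 0 ∧ h.1 1 2 = 0 ∧
      h.1 0 2 ^ 2 = 0}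
  | 2 => {h | h.1 0 0 = 1 ∧ h.1 1 1 = 1 ∧ h.1 2 2 = 1 ∧ h.1 0 1 = 0 ∧ h.1 1 2 = 0}
  | 3 => {h | h.1 0 0 = 1 ∧ h.1 1 1 = 1 ∧ h.1 2 2 = 1 ∧ h.1 0 1 = 0 ∧ h.1 1 2 ^ 2 = 0}
  | 4 => {h | h.1 0 0 = 1 ∧ h.1 1 1 = 1 ∧ h.1 2 2 = 1 ∧ h.1 0 1 = 0}
  | 5 => {h | h.1 0 0 = 1 ∧ h.1 1 1 = 1 ∧ h.1 2 2 = 1 ∧ h.1 0 1 ^ 2 = 0}
  | 6 => {h | h.1 0 0 = 1 ∧ h.1 1 1 = 1 ∧ h.1 2 2 = 1}
  | 7 => {h | h.1 2 2 = 1}
  | _ => Set.univ

/-- The cochain of degree `n` given by a natural function. -/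
def fnN (n : ℕ) (f : ∀ X : Alg k, (ℕ → Bor X) → X.A)
    (nat : ∀ (X Y : Alg k) (φ : X.A →ₐ[k] Y.A) (g : ℕ → Bor X),
      φ (f X g) = f Y (fun i => Bor.map φ (g i)))
    (loc : ∀ X : Alg k, Ser.LocF n (f X)) : Ch k :=
  ⟨fun X m g => if m = n then f X g else 0, by
    refine ⟨?_, ?_, n, ?_⟩
    · intro X Y φ m g
      change φ (if m = n then f X g else 0) = if m = n then _ else 0
      split_ifs
      · exact nat X Y φ g
      · exact map_zero φ
    · intro X m g g' h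
      change (if m = n then f X g else 0) = if m = n then f X g' else 0
      split_ifs with hm
      · subst hm
        exact loc X g g' h
      · rfl
    · intro m hm X g
      change (if m = n then f X g else 0) = 0
      rw [if_neg (by omega)]⟩

theorem fnN_apply (n : ℕ) (f : ∀ X : Alg k, (ℕ → Bor X) → X.A) (nat) (loc) (X : Alg k) (m : ℕ)
    (g : ℕ → Bor X) : (fnN n f nat loc).1 X m g = if m = n then f X g else 0 := rfl

variable (k)

/-- The coordinate `a` as a cochain of degree zero. -/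
def fa : Ch k := fnN 0 (fun _ g => ca (g 0)) (fun _ _ φ g => ca_map φ (g 0))
  (fun _ g g' h => by dsimp only; rw [h 0 le_rfl])

/-- The coordinate `b` as a cochain of degree zero. -/
def fb : Ch k := fnN 0 (fun _ g => cb (g 0)) (fun _ _ φ g => cb_map φ (g 0))
  (fun _ g g' h => by dsimp only; rw [h 0 le_rfl])

/-- The coordinate `c` as a cochain of degree zero. -/
def fc : Ch k := fnN 0 (fun _ g => cc (g 0)) (fun _ _ φ g => cc_map φ (g 0))
  (fun _ g g' h => by dsimp only; rw [h 0 le_rfl])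

variable {k}

/-- The constant cochain. -/
def cst : k →+* Ch k where
  toFun c := fnN 0 (fun X _ => algebraMap k X.A c) (fun _ _ φ _ => by simp) (fun _ _ _ _ => rfl)
  map_zero' := ch_ext (fun X n g => by rw [fnN_apply, map_zero, ite_self, coe_zero_apply])
  map_one' := ch_ext (fun X n g => by rw [fnN_apply, map_one, coe_one_apply])
  map_add' c c' := ch_ext (fun X n g => by
    rw [coe_add_apply, fnN_apply, fnN_apply, fnN_apply, map_add]
    split_ifs <;> simp)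
  map_mul' c c' := ch_ext (fun X n g => by
    rw [coe_mul_apply, fnN_apply]
    by_cases hn : n = 0
    · subst hn
      rw [Finset.Nat.antidiagonal_zero, Finset.sum_singleton, fnN_apply, fnN_apply, map_mul]
      simp
    · rw [if_neg hn]
      symm
      refine Finset.sum_eq_zero (fun p hp => ?_)
      rw [Finset.HasAntidiagonal.mem_antidiagonal] at hp
      rw [fnN_apply, fnN_apply]
      by_cases h1 : p.1 = 0
      · rw [if_neg (show ¬ p.2 = 0 by omega), mul_zero]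
      · rw [if_neg h1, zero_mul])

/-- The Steenrod square of a cochain. -/
def sq (F : Ch k) : Ch k := F * F + cup1 F (dCh F)

/-- The sum of the values of `a` at the entries `i` and `i + 1`. -/
def pa {X : Alg k} (g : ℕ → Bor X) (i : ℕ) : X.A := ca (g i) + ca (g (i + 1))

/-- The sum of the values of `b` at the entries `i` and `i + 1`. -/
def pb {X : Alg k} (g : ℕ → Bor X) (i : ℕ) : X.A := cb (g i) + cb (g (i + 1))

theorem pa_map {X Y : Alg k} (φ : X.A →ₐ[k] Y.A) (g : ℕ → Bor X) (i : ℕ) :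
    φ (pa g i) = pa (fun j => Bor.map φ (g j)) i := by
  unfold pa
  rw [map_add, ca_map, ca_map]

theorem pb_map {X Y : Alg k} (φ : X.A →ₐ[k] Y.A) (g : ℕ → Bor X) (i : ℕ) :
    φ (pb g i) = pb (fun j => Bor.map φ (g j)) i := by
  unfold pb
  rw [map_add, cb_map, cb_map]

/-- The polynomial of the correction term. -/
def vpol {A : Type} [CommRing A] (p q : ℕ → A) : A :=
  p 0 ^ 2 * p 1 ^ 2 * q 2 ^ 3 * q 3 + p 0 ^ 2 * q 1 * p 2 ^ 2 * q 3 ^ 3 +
    p 0 ^ 3 * q 1 ^ 2 * p 2 * q 3 ^ 2 + p 0 * p 1 ^ 3 * q 2 ^ 2 * q 3 ^ 2 +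
    p 0 ^ 3 * (p 1 + p 2) * q 1 * q 2 * q 3 ^ 2 +
    (p 0 ^ 3 * p 1 + p 0 * p 1 ^ 3) * q 2 * q 3 * (q 2 ^ 2 + q 3 ^ 2) +
    p 0 ^ 2 * p 1 * p 2 * q 1 * q 2 * q 3 ^ 2 + p 0 ^ 2 * p 1 * p 2 * (q 1 + q 2) * q 3 ^ 3

theorem vpol_map {A B : Type} [CommRing A] [CommRing B] (φ : A →+* B) (p q : ℕ → A) :
    φ (vpol p q) = vpol (fun i => φ (p i)) (fun i => φ (q i)) := by
  simp only [vpol, map_add, map_mul, map_pow]

variable (k)

/-- The correction term. -/
def vv : Ch k := fnN 4 (fun _ g => vpol (pa g) (pb g))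
  (fun X Y φ g => by
    refine (vpol_map (φ : X.A →+* Y.A) (pa g) (pb g)).trans ?_
    congr 1
    · funext i
      exact pa_map φ g i
    · funext i
      exact pb_map φ g i)
  (fun X g g' h => by
    have h0 := h 0 (by norm_num)
    have h1 := h 1 (by norm_num)
    have h2 := h 2 (by norm_num)
    have h3 := h 3 (by norm_num)
    have h4 := h 4 (by norm_num)
    simp only [vpol, pa, pb, h0, h1, h2, h3, h4, Nat.reduceAdd])

/-- The cochain with differential `d a * d b`. -/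
def gam : Ch k := dCh (fc k) + fa k * dCh (fb k)

/-- The Frobenius twist of `gam`. -/
def gam' : Ch k := dCh (fc k * fc k) + fa k * fa k * dCh (fb k * fb k)

/-- The six classes. -/
def cls (i : Fin 6) : Ch k :=
  match i with
  | 0 => dCh (fa k) ^ 4
  | 1 => dCh (fa k * fa k) ^ 2
  | 2 => dCh (fb k) ^ 4
  | 3 => dCh (fb k * fb k) ^ 2
  | 4 => sq (sq (gam k)) + vv k
  | 5 => sq (gam' k)

end Q30.FK
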