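import Pool.Agent.Q30.FK.Nil

/-!
# Evaluations
-/

namespace Q30.FK

open MvPolynomial

variable {k : Type} [Field k]

/-! ### Paths -/

section Pth

variable {X : Alg k}

/-- The polynomial `u x + v x ^ 2`. -/
def pol (u v : k) (x : X.A) : X.A := algebraMap k X.A u * x + algebraMap k X.A v * x ^ 2

theorem pol_four (u v : k) (x : X.A) (hx : x ^ 4 = 0) : pol u v x ^ 4 = 0 := by
  have e : pol u v x = x * (algebraMap k X.A u + algebraMap k X.A v * x) := by
    unfold pol
    ring
  rw [e, mul_pow, hx, zero_mul]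

variable [CharP k 2]

theorem pol_add (u v : k) (x y : X.A) : pol u v (x + y) = pol u v x + pol u v y := by
  unfold pol
  linear_combination (algebraMap k X.A v * x * y) * two_zero X

theorem pol_map {Y : Alg k} (φ : X.A →ₐ[k] Y.A) (u v : k) (x : X.A) :
    φ (pol u v x) = pol u v (φ x) := by
  unfold pol
  rw [map_add, map_mul, map_mul, map_pow, AlgHom.commutes, AlgHom.commutes]

theorem pol_zero (x : X.A) : pol (0 : k) 0 x = 0 := by
  unfold pol
  rw [map_zero, zero_mul, zero_mul, add_zero]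

theorem uu00 (a b c : X.A) (ha) (hb) (hc) : (uu a b c ha hb hc).1 0 0 = 1 := rfl
theorem uu01 (a b c : X.A) (ha) (hb) (hc) : (uu a b c ha hb hc).1 0 1 = a := rfl
theorem uu02 (a b c : X.A) (ha) (hb) (hc) : (uu a b c ha hb hc).1 0 2 = c := rfl
theorem uu11 (a b c : X.A) (ha) (hb) (hc) : (uu a b c ha hb hc).1 1 1 = 1 := rfl
theorem uu12 (a b c : X.A) (ha) (hb) (hc) : (uu a b c ha hb hc).1 1 2 = b := rfl
theorem uu22 (a b c : X.A) (ha) (hb) (hc) : (uu a b c ha hb hc).1 2 2 = 1 := rfl

theorem ca_uu (a b c : X.A) (ha) (hb) (hc) : ca (uu a b c ha hb hc) = a := by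
  unfold ca
  rw [uu01, uu11]
  ring

theorem cb_uu (a b c : X.A) (ha) (hb) (hc) : cb (uu a b c ha hb hc) = b := by
  unfold cb
  rw [uu12, uu22]
  ring

theorem cc_uu (a b c : X.A) (ha) (hb) (hc) : cc (uu a b c ha hb hc) = c := by
  unfold cc
  rw [uu02, uu22]
  ring

theorem bor_ext6 {g h : Bor X} (e00 : g.1 0 0 = h.1 0 0) (e01 : g.1 0 1 = h.1 0 1)
    (e02 : g.1 0 2 = h.1 0 2) (e11 : g.1 1 1 = h.1 1 1) (e12 : g.1 1 2 = h.1 1 2)
    (e22 : g.1 2 2 = h.1 2 2) : g = h := by
  apply bor_ext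
  intro i j
  fin_cases i <;> fin_cases j
  · exact e00
  · exact e01
  · exact e02
  · exact (b10 g).trans (b10 h).symm
  · exact e11
  · exact e12
  · exact (b20 g).trans (b20 h).symm
  · exact (b21 g).trans (b21 h).symm
  · exact e22

theorem uu_mul (a b c a' b' c' : X.A) (ha) (hb) (hc) (ha') (hb') (hc') (ha'') (hb'') (hc'') :
    uu (a + a') (b + b') (c + c' + a * b') ha'' hb'' hc'' =
      uu a b c ha hb hc * uu a' b' c' ha' hb' hc' := by
  apply bor_ext6
  · rw [mul00, uu00, uu00, uu00]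
    ring
  · rw [mul01, uu00, uu01, uu01, uu01, uu11]
    ring
  · rw [mul02, uu00, uu01, uu02, uu02, uu02, uu12, uu22]
    ring
  · rw [mul11, uu11, uu11, uu11]
    ring
  · rw [mul12, uu11, uu12, uu12, uu12, uu22]
    ring
  · rw [mul22, uu22, uu22, uu22]
    ring

theorem uu_congr {a b c a' b' c' : X.A} {ha} {hb} {hc} {ha'} {hb'} {hc'} (e1 : a = a')
    (e2 : b = b') (e3 : c = c') : uu a b c ha hb hc = uu a' b' c' ha' hb' hc' := by
  subst e1 e2 e3
  rfl

theorem uu_map {Y : Alg k} (φ : X.A →ₐ[k] Y.A) (a b c : X.A) (ha) (hb) (hc) (ha') (hb') (hc') :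
    Bor.map φ (uu a b c ha hb hc) = uu (φ a) (φ b) (φ c) ha' hb' hc' := by
  apply bor_ext6
  · rw [map_entry, uu00, uu00, map_one]
  · rw [map_entry, uu01, uu01]
  · rw [map_entry, uu02, uu02]
  · rw [map_entry, uu11, uu11, map_one]
  · rw [map_entry, uu12, uu12]
  · rw [map_entry, uu22, uu22, map_one]

/-- The path with the coordinates `a = α x + α' x ^ 2` and so on. -/
def pth (α α' β β' γ γ' : k) (h : (α = 0 ∧ α' = 0) ∨ (β = 0 ∧ β' = 0)) : Path k where
  h X x hx := uu (pol α α' x) (pol β β' x) (pol γ γ' x) (pol_four _ _ _ hx) (pol_four _ _ _ hx)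
    (pol_four _ _ _ hx)
  nat X Y φ x hx hy := by
    rw [uu_map (ha' := by rw [pol_map]; exact pol_four _ _ _ hy)
      (hb' := by rw [pol_map]; exact pol_four _ _ _ hy)
      (hc' := by rw [pol_map]; exact pol_four _ _ _ hy)]
    exact uu_congr (pol_map φ _ _ _) (pol_map φ _ _ _) (pol_map φ _ _ _)
  add X x y hx hy hxy := by
    have e : pol γ γ' (x + y) = pol γ γ' x + pol γ γ' y + pol α α' x * pol β β' y := by
      rcases h with ⟨rfl, rfl⟩ | ⟨rfl, rfl⟩
      · rw [pol_zero, zero_mul, add_zero, pol_add]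
      · rw [pol_zero y, mul_zero, add_zero, pol_add]
    rw [← uu_mul (ha'' := by rw [← pol_add]; exact pol_four _ _ _ hxy)
      (hb'' := by rw [← pol_add]; exact pol_four _ _ _ hxy)
      (hc'' := by rw [← e]; exact pol_four _ _ _ hxy)]
    exact uu_congr (pol_add _ _ _ _) (pol_add _ _ _ _) e

end Pth

variable [CharP k 2]

/-! ### Coefficients -/

theorem pol_xA (u v : k) : pol u v (xA (kk k)) = (⟨0, u, v, 0⟩ : T4 k) := by
  have e : (T4.inc u * (T4.xx : T4 k) + T4.inc v * (T4.xx : T4 k) ^ 2 : T4 k) =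
      ⟨0, u, v, 0⟩ := by
    rw [T4.xx_two]
    ext <;> simp [T4.inc_apply, T4.xx]
  exact e

theorem cf_pol (u v : k) : cfA (kk k) 2 (pol u v (xA (kk k))) = v := by
  rw [pol_xA]
  rfl

theorem cf_pol_sq (u v : k) :
    cfA (kk k) 2 (pol u v (xA (kk k)) * pol u v (xA (kk k))) = u * u := by
  rw [pol_xA]
  change (((⟨0, u, v, 0⟩ : T4 k) * (⟨0, u, v, 0⟩ : T4 k)).c2) = u * u
  simp

/-! ### Cochains which agree on a subgroup -/

/-- The cochains agree on the sequences in `W`. -/
def Agr (W : ∀ X : Alg k, Subgroup (Bor X)) (F G : Ch k) : Prop :=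
  ∀ (X : Alg k) (n : ℕ) (g : ℕ → Bor X), (∀ i, g i ∈ W X) → F.1 X n g = G.1 X n g

variable {W : ∀ X : Alg k, Subgroup (Bor X)}

theorem Agr.refl (F : Ch k) : Agr W F F := fun _ _ _ _ => rfl

theorem Agr.add {F F' G G' : Ch k} (h : Agr W F F') (h' : Agr W G G') :
    Agr W (F + G) (F' + G') := by
  intro X n g hg
  rw [coe_add_apply, coe_add_apply, h X n g hg, h' X n g hg]

theorem Agr.mul {F F' G G' : Ch k} (h : Agr W F F') (h' : Agr W G G') :
    Agr W (F * G) (F' * G') := by
  intro X n g hg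
  rw [coe_mul_apply, coe_mul_apply]
  refine Finset.sum_congr rfl (fun p _ => ?_)
  rw [h X p.1 g hg, h' X p.2 (Ser.sh p.1 g) (fun i => hg _)]

theorem Agr.dCh {F F' : Ch k} (h : Agr W F F') : Agr W (dCh F) (dCh F') := by
  intro X n g hg
  cases n with
  | zero => rfl
  | succ n =>
    rw [dCh_succ, dCh_succ]
    refine Finset.sum_congr rfl (fun l _ => h X n _ (fun i => ?_))
    unfold Ser.skip
    split_ifs
    · exact hg _
    · exact hg _

theorem Agr.cup1 {F F' G G' : Ch k} (h : Agr W F F') (h' : Agr W G G') :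
    Agr W (cup1 F G) (cup1 F' G') := by
  intro X n g hg
  rw [cup1_apply, cup1_apply]
  refine Finset.sum_congr rfl (fun p _ => Finset.sum_congr rfl (fun i _ => ?_))
  rw [h X p.1 _ (fun j => ?_), h' X (p.2 + 1) (Ser.sh i g) (fun j => hg _)]
  unfold Ser.cut
  split_ifs
  · exact hg _
  · exact hg _

theorem Agr.sq {F F' : Ch k} (h : Agr W F F') : Agr W (sq F) (sq F') :=
  (h.mul h).add (h.cup1 h.dCh)

theorem sq_closed {F : Ch k} (h : dCh F = 0) : sq F = F * F := by
  unfold sq
  rw [h, cup1_zero_right, add_zero]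

/-- The restriction of the last classes to `W`. -/
theorem agr_cls (ct : Ch k) (hct : Agr W (fc k) ct)
    (hab : (∀ X : Alg k, ∀ g ∈ W X, ca g = 0) ∨ (∀ X : Alg k, ∀ g ∈ W X, cb g = 0)) :
    Agr W (cls k 4) (dCh ct ^ 4) ∧ Agr W (cls k 5) (dCh (ct * ct) ^ 2) := by
  have e1 : Agr W (fa k * dCh (fb k)) 0 := by
    intro X n g hg
    rw [fa_mul_apply, coe_zero_apply]
    rcases hab with h | h
    · rw [h X _ (hg 0), zero_mul]
    · cases n with
      | zero => rw [dCh_zero, mul_zero]
      | succ n =>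
        rw [dCh_succ]
        refine mul_eq_zero_of_right _ (Finset.sum_eq_zero (fun l _ => ?_))
        rw [fb_apply]
        split_ifs
        · unfold Ser.skip
          split_ifs
          · exact h X _ (hg _)
          · exact h X _ (hg _)
        · rfl
  have e2 : Agr W (fa k * fa k * dCh (fb k * fb k)) 0 := by
    intro X n g hg
    rw [mul_assoc, fa_mul_apply, fa_mul_apply, coe_zero_apply]
    rcases hab with h | h
    · rw [h X _ (hg 0), zero_mul]
    · cases n with
      | zero => rw [dCh_zero, mul_zero, mul_zero]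
      | succ n =>
        rw [dCh_succ]
        refine mul_eq_zero_of_right _ (mul_eq_zero_of_right _ (Finset.sum_eq_zero (fun l _ => ?_)))
        rw [fb_mul_apply]
        refine mul_eq_zero_of_left ?_ _
        unfold Ser.skip
        split_ifs
        · exact h X _ (hg _)
        · exact h X _ (hg _)
  have e3 : Agr W (vv k) 0 := by
    intro X n g hg
    rw [coe_zero_apply]
    unfold vv
    rw [fnN_apply]
    split_ifs
    · rcases hab with h | h
      · have h' : ∀ i, pa g i = 0 := fun i => by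
          unfold pa
          rw [h X _ (hg i), h X _ (hg (i + 1)), add_zero]
        simp only [vpol, h']
        ring
      · have h' : ∀ i, pb g i = 0 := fun i => by
          unfold pb
          rw [h X _ (hg i), h X _ (hg (i + 1)), add_zero]
        simp only [vpol, h']
        ring
    · rfl
  have dd : dCh (dCh ct * dCh ct) = 0 := by
    rw [leibCh, dCh_dCh, zero_mul, mul_zero, add_zero]
  constructor
  · have f1 : Agr W (gam k) (dCh ct) := by
      have h := hct.dCh.add e1
      rwa [add_zero] at h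
    have f2 := f1.sq.sq
    rw [sq_closed (dCh_dCh ct), sq_closed dd] at f2
    have f3 := f2.add e3
    rw [add_zero] at f3
    have e : dCh ct ^ 4 = dCh ct * dCh ct * (dCh ct * dCh ct) := by noncomm_ring
    rw [e]
    exact f3
  · have f1 : Agr W (gam' k) (dCh (ct * ct)) := by
      have h := (hct.mul hct).dCh.add e2
      rwa [add_zero] at h
    have f2 := f1.sq
    rw [sq_closed (dCh_dCh (ct * ct))] at f2
    rw [pow_two]
    exact f2

end Q30.FK
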