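import Pool.Agent.Q30.FK.Ev

/-!
# Homomorphisms of the cohomology ring to the field
-/

namespace Q30.FK

open MvPolynomial

variable {k : Type} [Field k] [CharP k 2]

/-- The homomorphism induced by a multiplicative functional. -/
theorem hom_eval (W : ∀ X : Alg k, Subgroup (Bor X)) (e : Ch k →+ k)
    (e0 : ∀ c : k, e (cst c) = c)
    (e1 : ∀ F, ∀ G ∈ inv k (fun X => (W X : Set (Bor X))), e (F * G) = e F * e G)
    (e2 : ∀ F ∈ inv k (fun X => (W X : Set (Bor X))), e (dCh F) = 0) :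
    ∃ ψ : HH k (En k 8) →+* k, ∀ F hF hd, ψ (cl (En k 8) F hF hd) = e F := by
  have hsub : ∀ X : Alg k, (W X : Set (Bor X)) ⊆ En k 8 X := fun _ h _ => Set.mem_univ h
  let φ : (dg k).Z (inv k (En k 8)) →+* k :=
    { toFun := fun z => e z.1
      map_zero' := map_zero e
      map_one' := by
        have h := e0 1
        rw [map_one] at h
        exact h
      map_add' := fun x y => map_add e x.1 y.1
      map_mul' := fun x y => e1 x.1 y.1 (inv_mono hsub y.2.1) }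
  refine ⟨Ideal.Quotient.lift ((dg k).B (inv k (En k 8))) φ ?_, fun F hF hd => rfl⟩
  rintro a ⟨y, hy, hy'⟩
  change e a.1 = 0
  rw [← hy']
  exact e2 y (inv_mono hsub hy)

theorem hom0_d_apply (F : Ch k) (X : Alg k) (g : ℕ → Bor X) :
    (dCh F).1 X 1 g = F.1 X 0 (Ser.skip 0 g) + F.1 X 0 (Ser.skip 1 g) := by
  rw [dCh_succ, Finset.sum_range_succ, Finset.sum_range_one]

theorem mul00_apply (F G : Ch k) (X : Alg k) (g : ℕ → Bor X) :
    (F * G).1 X 0 g = F.1 X 0 g * G.1 X 0 g := by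
  rw [coe_mul_apply, Finset.Nat.antidiagonal_zero, Finset.sum_singleton]
  rfl

theorem d_mem_of_shift (E : ∀ X : Alg k, Set (Bor X)) (F : Ch k) (hF : Hom 0 F)
    (h : ∀ X : Alg k, ∀ a ∈ E X, ∃ r, ∀ g : ℕ → Bor X,
      F.1 X 0 (fun i => a * g i) = r + F.1 X 0 g) :
    dCh F ∈ inv k E ∧ dCh (F * F) ∈ inv k E := by
  constructor
  · intro X a ha n g
    by_cases hn : n = 1
    · subst hn
      obtain ⟨r, hr⟩ := h X a ha
      have e0 : Ser.skip 0 (fun i => a * g i) = fun i => a * Ser.skip 0 g i := by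
        funext j
        unfold Ser.skip
        split_ifs <;> rfl
      have e1 : Ser.skip 1 (fun i => a * g i) = fun i => a * Ser.skip 1 g i := by
        funext j
        unfold Ser.skip
        split_ifs <;> rfl
      rw [hom0_d_apply, hom0_d_apply, e0, e1, hr, hr]
      linear_combination r * two_zero X
    · rw [hF.dCh X n _ (by omega), hF.dCh X n _ (by omega)]
  · intro X a ha n g
    by_cases hn : n = 1
    · subst hn
      obtain ⟨r, hr⟩ := h X a ha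
      have e0 : Ser.skip 0 (fun i => a * g i) = fun i => a * Ser.skip 0 g i := by
        funext j
        unfold Ser.skip
        split_ifs <;> rfl
      have e1 : Ser.skip 1 (fun i => a * g i) = fun i => a * Ser.skip 1 g i := by
        funext j
        unfold Ser.skip
        split_ifs <;> rfl
      rw [hom0_d_apply, hom0_d_apply, e0, e1, mul00_apply, mul00_apply, mul00_apply,
        mul00_apply, hr, hr]
      linear_combination (r ^ 2 + r * F.1 X 0 (Ser.skip 0 g) + r * F.1 X 0 (Ser.skip 1 g)) *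
        two_zero X
    · rw [(hF.mul hF).dCh X n _ (by omega), (hF.mul hF).dCh X n _ (by omega)]

theorem one_entry (X : Alg k) (i j : Fin 3) :
    (1 : Bor X).1 i j = if i = j then 1 else 0 := by
  change (1 : Matrix (Fin 3) (Fin 3) X.A) i j = _
  rw [Matrix.one_apply]

theorem ca_one (X : Alg k) : ca (1 : Bor X) = 0 := by
  unfold ca
  rw [one_entry, if_neg (by decide), zero_mul]

theorem cb_one (X : Alg k) : cb (1 : Bor X) = 0 := by
  unfold cb
  rw [one_entry, if_neg (by decide), zero_mul]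

theorem cc_one (X : Alg k) : cc (1 : Bor X) = 0 := by
  unfold cc
  rw [one_entry, if_neg (by decide), zero_mul]

theorem ev_side (hc : P_CLS) (hev : P_EVG) (α α' β β' γ γ' : k)
    (h : (α = 0 ∧ α' = 0) ∨ (β = 0 ∧ β' = 0))
    (W : ∀ X : Alg k, Subgroup (Bor X))
    (hW : ∀ (X : Alg k) (x : X.A) (hx : x ^ 4 = 0), (pth α α' β β' γ γ' h).h X x hx ∈ W X)
    (hWn : ∀ (X Y : Alg k) (φ : X.A →ₐ[k] Y.A), ∀ g ∈ W X, Bor.map φ g ∈ W Y)
    (hW6 : ∀ X : Alg k, (W X : Set (Bor X)) ⊆ En k 6 X)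
    (ct : Ch k) (hct : Agr W (fc k) ct) (hct0 : Hom 0 ct)
    (hcs : ∀ X : Alg k, ∀ a ∈ (W X : Set (Bor X)), ∃ r, ∀ g : ℕ → Bor X,
      ct.1 X 0 (fun i => a * g i) = r + ct.1 X 0 g)
    (hab : (∀ X : Alg k, ∀ g ∈ W X, ca g = 0) ∨ (∀ X : Alg k, ∀ g ∈ W X, cb g = 0)) :
    ∃ ψ : HH k (En k 8) →+* k, (∀ c, ψ (cstH _ c) = c) ∧
      ψ (str hc _ (X 0)) = α' ^ 4 ∧ ψ (str hc _ (X 1)) = α ^ 4 ∧
      ψ (str hc _ (X 2)) = β' ^ 4 ∧ ψ (str hc _ (X 3)) = β ^ 4 ∧
      ψ (str hc _ (X 4)) = γ' ^ 4 ∧ ψ (str hc _ (X 5)) = γ ^ 4 := by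
  obtain ⟨-, -, -, -, a1, a2, b1, b2, -⟩ := hc k
  obtain ⟨e, e0, e1, e2, e3, e4⟩ := hev k (pth α α' β β' γ γ' h)
    (fun X => (W X : Set (Bor X))) hW
  obtain ⟨ψ, hψ⟩ := hom_eval W e e0 e1 e2
  obtain ⟨c1, c2⟩ := d_mem_of_shift _ ct hct0 hcs
  obtain ⟨f4, f5⟩ := agr_cls ct hct hab
  have ea : ∀ F G : Ch k, Agr W F G → e F = e G := by
    intro F G hFG
    rw [← sub_eq_zero, ← map_sub]
    refine e4 W hW hWn (F - G) (fun X n g hg => ?_)
    rw [coe_sub_apply, hFG X n g hg, sub_self]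
  have ep : ∀ (F : Ch k), F ∈ inv k (fun X => (W X : Set (Bor X))) → ∀ n,
      e (F ^ n) = e F ^ n := by
    intro F hF n
    induction n with
    | zero =>
      have h := e0 1
      rw [map_one] at h
      rw [pow_zero, pow_zero, h]
    | succ n ih => rw [pow_succ, e1 _ _ hF, ih, pow_succ]
  set s : ℕ → Bor (t4 (kk k)) := Ser.cons 1 (fun _ => (pth α α' β β' γ γ' h).h (t4 (kk k))
    (xA (kk k)) (xA_four (kk k))) with hs
  have s0 : Ser.skip 1 s 0 = 1 := rfl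
  have s1 : Ser.skip 0 s 0 = (pth α α' β β' γ γ' h).h (t4 (kk k))
    (xA (kk k)) (xA_four (kk k)) := rfl
  have sa : ca (Ser.skip 0 s 0) = pol α α' (xA (kk k)) := by
    rw [s1]
    exact ca_uu _ _ _ (pol_four _ _ _ (xA_four _)) (pol_four _ _ _ (xA_four _))
      (pol_four _ _ _ (xA_four _))
  have sb : cb (Ser.skip 0 s 0) = pol β β' (xA (kk k)) := by
    rw [s1]
    exact cb_uu _ _ _ (pol_four _ _ _ (xA_four _)) (pol_four _ _ _ (xA_four _))
      (pol_four _ _ _ (xA_four _))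
  have sc : cc (Ser.skip 0 s 0) = pol γ γ' (xA (kk k)) := by
    rw [s1]
    exact cc_uu _ _ _ (pol_four _ _ _ (xA_four _)) (pol_four _ _ _ (xA_four _))
      (pol_four _ _ _ (xA_four _))
  have hsW : ∀ i, s i ∈ W (t4 (kk k)) := by
    intro i
    cases i with
    | zero => exact one_mem _
    | succ i => exact hW _ _ _
  have va : e (dCh (fa k)) = α' := by
    rw [e3 _ hom_fa.dCh, hom0_d_apply, fa_apply, fa_apply, if_pos rfl, if_pos rfl, s0, ca_one,
      add_zero, sa, cf_pol]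
  have vb : e (dCh (fb k)) = β' := by
    rw [e3 _ hom_fb.dCh, hom0_d_apply, fb_apply, fb_apply, if_pos rfl, if_pos rfl, s0, cb_one,
      add_zero, sb, cf_pol]
  have vc : e (dCh ct) = γ' := by
    rw [e3 _ hct0.dCh, ← hct.dCh _ _ _ hsW, hom0_d_apply, fc_apply, fc_apply, if_pos rfl,
      if_pos rfl, s0, cc_one, add_zero, sc, cf_pol]
  have va' : e (dCh (fa k * fa k)) = α * α := by
    rw [e3 _ (hom_fa.mul hom_fa).dCh, hom0_d_apply, mul00_apply, mul00_apply, fa_apply,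
      fa_apply, if_pos rfl, if_pos rfl, s0, ca_one, mul_zero, add_zero, sa, cf_pol_sq]
  have vb' : e (dCh (fb k * fb k)) = β * β := by
    rw [e3 _ (hom_fb.mul hom_fb).dCh, hom0_d_apply, mul00_apply, mul00_apply, fb_apply,
      fb_apply, if_pos rfl, if_pos rfl, s0, cb_one, mul_zero, add_zero, sb, cf_pol_sq]
  have vc' : e (dCh (ct * ct)) = γ * γ := by
    rw [e3 _ (hct0.mul hct0).dCh, ← (hct.mul hct).dCh _ _ _ hsW, hom0_d_apply, mul00_apply,
      mul00_apply, fc_apply, fc_apply, if_pos rfl, if_pos rfl, s0, cc_one, mul_zero, add_zero,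
      sc, cf_pol_sq]
  refine ⟨ψ, fun c => ?_, ?_, ?_, ?_, ?_, ?_, ?_⟩
  · exact (hψ (cst c) (cst_mem c _) (d_cst c)).trans (e0 c)
  · rw [str_X, hψ]
    change e (dCh (fa k) ^ 4) = _
    rw [ep _ (inv_mono hW6 a1), va]
  · rw [str_X, hψ]
    change e (dCh (fa k * fa k) ^ 2) = _
    rw [ep _ (inv_mono hW6 a2), va']
    ring
  · rw [str_X, hψ]
    change e (dCh (fb k) ^ 4) = _
    rw [ep _ (inv_mono hW6 b1), vb]
  · rw [str_X, hψ]
    change e (dCh (fb k * fb k) ^ 2) = _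
    rw [ep _ (inv_mono hW6 b2), vb']
    ring
  · rw [str_X, hψ, ea _ _ f4, ep _ c1, vc]
  · rw [str_X, hψ, ea _ _ f5, ep _ c2, vc']
    ring

/-! ### The two abelian subgroups -/

/-- The subgroup of the unipotent elements with `a = 0`. -/
def W1 (X : Alg k) : Subgroup (Bor X) where
  carrier := {h | h.1 0 0 = 1 ∧ h.1 1 1 = 1 ∧ h.1 2 2 = 1 ∧ h.1 0 1 = 0}
  one_mem' := ⟨by rw [one_entry, if_pos rfl], by rw [one_entry, if_pos rfl],
    by rw [one_entry, if_pos rfl], by rw [one_entry, if_neg (by decide)]⟩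
  mul_mem' := by
    rintro g h ⟨g0, g1, g2, g3⟩ ⟨h0, h1, h2, h3⟩
    exact ⟨by rw [mul00, g0, h0, one_mul], by rw [mul11, g1, h1, one_mul],
      by rw [mul22, g2, h2, one_mul], by rw [mul01, g3, h3, mul_zero, zero_mul, add_zero]⟩
  inv_mem' := by
    rintro g ⟨g0, g1, g2, g3⟩
    have e0 := mul00 g g⁻¹
    have e1 := mul11 g g⁻¹
    have e2 := mul22 g g⁻¹
    have e3 := mul01 g g⁻¹
    rw [mul_inv_cancel, one_entry, if_pos rfl, g0, one_mul] at e0
    rw [mul_inv_cancel, one_entry, if_pos rfl, g1, one_mul] at e1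
    rw [mul_inv_cancel, one_entry, if_pos rfl, g2, one_mul] at e2
    rw [mul_inv_cancel, one_entry, if_neg (by decide), g0, g3, one_mul, zero_mul, add_zero] at e3
    exact ⟨e0.symm, e1.symm, e2.symm, e3.symm⟩

/-- The subgroup of the unipotent elements with `b = 0`. -/
def W2 (X : Alg k) : Subgroup (Bor X) where
  carrier := {h | h.1 0 0 = 1 ∧ h.1 1 1 = 1 ∧ h.1 2 2 = 1 ∧ h.1 1 2 = 0}
  one_mem' := ⟨by rw [one_entry, if_pos rfl], by rw [one_entry, if_pos rfl],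
    by rw [one_entry, if_pos rfl], by rw [one_entry, if_neg (by decide)]⟩
  mul_mem' := by
    rintro g h ⟨g0, g1, g2, g3⟩ ⟨h0, h1, h2, h3⟩
    exact ⟨by rw [mul00, g0, h0, one_mul], by rw [mul11, g1, h1, one_mul],
      by rw [mul22, g2, h2, one_mul], by rw [mul12, g3, h3, mul_zero, zero_mul, add_zero]⟩
  inv_mem' := by
    rintro g ⟨g0, g1, g2, g3⟩
    have e0 := mul00 g g⁻¹
    have e1 := mul11 g g⁻¹
    have e2 := mul22 g g⁻¹
    have e3 := mul12 g g⁻¹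
    rw [mul_inv_cancel, one_entry, if_pos rfl, g0, one_mul] at e0
    rw [mul_inv_cancel, one_entry, if_pos rfl, g1, one_mul] at e1
    rw [mul_inv_cancel, one_entry, if_pos rfl, g2, one_mul] at e2
    rw [mul_inv_cancel, one_entry, if_neg (by decide), g1, g3, one_mul, zero_mul, add_zero] at e3
    exact ⟨e0.symm, e1.symm, e2.symm, e3.symm⟩

theorem map_one_entry {X Y : Alg k} (φ : X.A →ₐ[k] Y.A) {g : Bor X} {i j : Fin 3}
    (h : g.1 i j = 1) : (Bor.map φ g).1 i j = 1 := by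
  rw [map_entry, h, map_one]

theorem map_zero_entry {X Y : Alg k} (φ : X.A →ₐ[k] Y.A) {g : Bor X} {i j : Fin 3}
    (h : g.1 i j = 0) : (Bor.map φ g).1 i j = 0 := by
  rw [map_entry, h, map_zero]

theorem ev_one (hc : P_CLS) (hev : P_EVG) (β β' γ γ' : k) :
    ∃ ψ : HH k (En k 8) →+* k, (∀ c, ψ (cstH _ c) = c) ∧
      ψ (str hc _ (X 0)) = 0 ∧ ψ (str hc _ (X 1)) = 0 ∧
      ψ (str hc _ (X 2)) = β' ^ 4 ∧ ψ (str hc _ (X 3)) = β ^ 4 ∧
      ψ (str hc _ (X 4)) = γ' ^ 4 ∧ ψ (str hc _ (X 5)) = γ ^ 4 := by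
  have hca : ∀ X : Alg k, ∀ g ∈ W1 X, ca g = 0 := by
    rintro X g ⟨-, -, -, h⟩
    unfold ca
    rw [h, zero_mul]
  obtain ⟨ψ, h, h0, h1, h2⟩ := ev_side hc hev 0 0 β β' γ γ' (Or.inl ⟨rfl, rfl⟩) W1
    (fun X x hx => ⟨rfl, rfl, rfl, pol_zero x⟩)
    (fun X Y φ g hg => ⟨map_one_entry φ hg.1, map_one_entry φ hg.2.1,
      map_one_entry φ hg.2.2.1, map_zero_entry φ hg.2.2.2⟩)
    (fun X g hg => ⟨hg.1, hg.2.1, hg.2.2.1⟩) (fc k) (Agr.refl _) hom_fc
    (fun X a ha => by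
      refine ⟨cc a, fun g => ?_⟩
      have ew : wa a = 1 := by unfold wa; rw [ha.1, ha.2.1]; ring
      have ew' : wb a = 1 := by unfold wb; rw [ha.2.1, ha.2.2.1]; ring
      rw [fc_apply, fc_apply, if_pos rfl, if_pos rfl, cc_mul, hca X a ha, ew, ew']
      ring)
    (Or.inl hca)
  exact ⟨ψ, h, by rw [h0]; ring, by rw [h1]; ring, h2⟩

theorem ev_two (hc : P_CLS) (hev : P_EVG) (α α' γ γ' : k) :
    ∃ ψ : HH k (En k 8) →+* k, (∀ c, ψ (cstH _ c) = c) ∧
      ψ (str hc _ (X 0)) = α' ^ 4 ∧ ψ (str hc _ (X 1)) = α ^ 4 ∧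
      ψ (str hc _ (X 2)) = 0 ∧ ψ (str hc _ (X 3)) = 0 ∧
      ψ (str hc _ (X 4)) = γ' ^ 4 ∧ ψ (str hc _ (X 5)) = γ ^ 4 := by
  have hcb : ∀ X : Alg k, ∀ g ∈ W2 X, cb g = 0 := by
    rintro X g ⟨-, -, -, h⟩
    unfold cb
    rw [h, zero_mul]
  obtain ⟨ψ, h, h0, h1, h2, h3, h4⟩ := ev_side hc hev α α' 0 0 γ γ' (Or.inr ⟨rfl, rfl⟩) W2
    (fun X x hx => ⟨rfl, rfl, rfl, pol_zero x⟩)
    (fun X Y φ g hg => ⟨map_one_entry φ hg.1, map_one_entry φ hg.2.1,
      map_one_entry φ hg.2.2.1, map_zero_entry φ hg.2.2.2⟩)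
    (fun X g hg => ⟨hg.1, hg.2.1, hg.2.2.1⟩) (fc k + fa k * fb k)
    (fun X n g hg => by
      rw [coe_add_apply, fa_mul_apply, fb_apply]
      split_ifs
      · rw [hcb X _ (hg 0), mul_zero, add_zero]
      · rw [mul_zero, add_zero])
    (hom_fc.add (hom_fa.mul hom_fb))
    (fun X a ha => by
      refine ⟨cc a, fun g => ?_⟩
      have ew : wa a = 1 := by unfold wa; rw [ha.1, ha.2.1]; ring
      have ew' : wb a = 1 := by unfold wb; rw [ha.2.1, ha.2.2.1]; ring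
      rw [coe_add_apply, coe_add_apply, fa_mul_apply, fa_mul_apply, fb_apply, fb_apply,
        fc_apply, fc_apply, if_pos rfl, if_pos rfl, if_pos rfl, if_pos rfl, cc_mul, ca_mul,
        cb_mul, hcb X a ha, ew, ew']
      linear_combination (ca a * cb (g 0)) * two_zero X)
    (Or.inr hcb)
  exact ⟨ψ, h, h0, h1, by rw [h2]; ring, by rw [h3]; ring, h4⟩

end Q30.FK
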