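import Pool.Agent.Q30.FK.Asm

/-!
# Finiteness of the cohomology rings
-/

namespace Q30.FK

open MvPolynomial

variable {k : Type} [Field k] [CharP k 2]

theorem hom_fa : Hom 0 (fa k) := by
  intro X m g hm
  rw [fa_apply, if_neg hm]

theorem hom_fb : Hom 0 (fb k) := by
  intro X m g hm
  rw [fb_apply, if_neg hm]

theorem hom_fc : Hom 0 (fc k) := by
  intro X m g hm
  rw [fc_apply, if_neg hm]

theorem hom_stepElt (i : ℕ) (hi : i < 6) : Hom 0 (stepElt k i) := by
  match i, hi with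
  | 0, _ => exact hom_fc
  | 1, _ => exact hom_fc.mul hom_fc
  | 2, _ => exact hom_fb
  | 3, _ => exact hom_fb.mul hom_fb
  | 4, _ => exact hom_fa
  | 5, _ => exact hom_fa.mul hom_fa

/-- The class of the differential of the generator of a step. -/
def lam (hc : P_CLS) (i : ℕ) (hi : i < 6) : HH k (En k (i + 1)) :=
  cl (En k (i + 1)) (dCh (stepElt k i)) (d_stepElt_mem hc i hi) (dCh_dCh _)

theorem lam_pow (hc : P_CLS) (hid : P_IDN) (i : ℕ) (hi : i < 6) :
    ∃ (j : Fin 6) (N : ℕ), 0 < N ∧ lam (k := k) hc i hi ^ N = str hc (En k (i + 1)) (X j) := by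
  obtain ⟨⟨y, hy, hy'⟩, ⟨z, hz, hz'⟩⟩ := hid k
  match i, hi with
  | 0, hi =>
    refine ⟨4, 4, by norm_num, ?_⟩
    rw [str_X, lam, cl_pow, eq_comm, cl_eq]
    exact ⟨y, inv_mono (En_mono 1 (by norm_num)) hy, hy'⟩
  | 1, hi =>
    refine ⟨5, 2, by norm_num, ?_⟩
    rw [str_X, lam, cl_pow, eq_comm, cl_eq]
    exact ⟨z, hz, hz'⟩
  | 2, hi =>
    refine ⟨2, 4, by norm_num, ?_⟩
    rw [str_X, lam, cl_pow]
    rfl
  | 3, hi =>
    refine ⟨3, 2, by norm_num, ?_⟩
    rw [str_X, lam, cl_pow]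
    rfl
  | 4, hi =>
    refine ⟨0, 4, by norm_num, ?_⟩
    rw [str_X, lam, cl_pow]
    rfl
  | 5, hi =>
    refine ⟨1, 2, by norm_num, ?_⟩
    rw [str_X, lam, cl_pow]
    rfl

theorem degc_pos (i : Fin 6) : 0 < degc i := by
  fin_cases i <;> simp [degc]

/-- The restriction is linear over the polynomial ring. -/
noncomputable def resL (hc : P_CLS) {E E' : ∀ X : Alg k, Set (Bor X)} (h : ∀ X, E X ⊆ E' X) :
    letI := (str hc E').toAlgebra
    letI := (str hc E).toAlgebra
    HH k E' →ₗ[MvPolynomial (Fin 6) k] HH k E :=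
  letI := (str hc E').toAlgebra
  letI := (str hc E).toAlgebra
  { toFun := res h
    map_add' := map_add (res h)
    map_smul' := by
      intro p x
      rw [Algebra.smul_def, Algebra.smul_def, map_mul]
      congr 1
      exact res_str hc h p }

theorem fin_step (hc : P_CLS) (hg : P_GR) (hid : P_IDN) (hn : P_NAK.{1}) (i : ℕ) (hi : i < 6)
    (hs : P_STEP i) (h : Fin6 hc (En k i)) : Fin6 hc (En k (i + 1)) := by
  let a1 : Algebra (MvPolynomial (Fin 6) k) (HH k (En k (i + 1))) := (str hc _).toAlgebra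
  let a0 : Algebra (MvPolynomial (Fin 6) k) (HH k (En k i)) := (str hc _).toAlgebra
  have : Module.Finite (MvPolynomial (Fin 6) k) (HH k (En k i)) := h
  obtain ⟨C, C1, C2⟩ := hg k (En k (i + 1))
  obtain ⟨j, N, hN, hlam⟩ := lam_pow (k := k) hc hid i hi
  exact hn k (HH k (En k (i + 1))) C (HH k (En k i)) (resL hc (En_mono i (by omega)))
    (lam hc i hi) degc degc_pos
    (fun j => by
      change C.pr (degc j) (str hc _ (X j)) = str hc _ (X j)
      rw [str_X]
      exact C1 (degc j) (cls k j) (cls_mem hc _ j) (cls_d hc j) ((hc k).1 j).2.2)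
    (fun c => by
      change C.pr 0 (str hc _ (MvPolynomial.C c)) = str hc _ (MvPolynomial.C c)
      rw [str_C]
      exact C1 0 (cst c) (cst_mem c _) (d_cst c) (hom_cst c))
    (C1 1 (dCh (stepElt k i)) (d_stepElt_mem hc i hi) (dCh_dCh _) (hom_stepElt i hi).dCh)
    ⟨j, N, hN, hlam⟩
    (fun x hx => gysin hc i hi hs x hx)

/-- The restriction is injective for a step given by a torus. -/
theorem res_inj (i : ℕ) (hi : i < 8) (ht : P_TOR i) :
    Function.Injective (res (k := k) (En_mono i hi)) := by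
  obtain ⟨π, π1, π2, π3⟩ := ht k
  rw [injective_iff_map_eq_zero]
  intro x hx
  obtain ⟨F, hF, hd, rfl⟩ := cl_surj x
  rw [res_cl, cl_eq_zero] at hx
  obtain ⟨G, hG, hG'⟩ := hx
  rw [cl_eq_zero]
  exact ⟨π G, π1 G hG, by rw [π3, hG', π2 F hF]⟩

theorem fin_tor (hc : P_CLS) (i : ℕ) (hi : i < 8) (ht : P_TOR i) (h : Fin6 hc (En k i)) :
    Fin6 hc (En k (i + 1)) := by
  let a1 : Algebra (MvPolynomial (Fin 6) k) (HH k (En k (i + 1))) := (str hc _).toAlgebra
  let a0 : Algebra (MvPolynomial (Fin 6) k) (HH k (En k i)) := (str hc _).toAlgebra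
  have : Module.Finite (MvPolynomial (Fin 6) k) (HH k (En k i)) := h
  exact Module.Finite.of_injective (resL hc (En_mono i hi)) (res_inj i hi ht)

/-- All the jobs on cochains. -/
structure Jobs : Prop where
  cls : P_CLS
  step : ∀ i < 6, P_STEP i
  tor6 : P_TOR 6
  tor7 : P_TOR 7
  idn : P_IDN
  evg : P_EVG
  gr : P_GR
  nak : P_NAK.{1}
  loc : P_LOC.{1}
  cm : P_CM.{1}

theorem fin_all (J : Jobs) : Fin6 (k := k) J.cls (En k 8) := by
  have s := fun i hi => fin_step (k := k) J.cls J.gr J.idn J.nak i hi (J.step i hi)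
  exact fin_tor J.cls 7 (by norm_num) J.tor7 (fin_tor J.cls 6 (by norm_num) J.tor6
    (s 5 (by norm_num) (s 4 (by norm_num) (s 3 (by norm_num) (s 2 (by norm_num)
      (s 1 (by norm_num) (s 0 (by norm_num) (fin_zero J.cls))))))))

end Q30.FK
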