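import Mathlib

/-!
# Polynomials vanishing on coordinate subspaces
-/

namespace Q30.FK

open MvPolynomial

/-- A polynomial which vanishes at all points with two given coordinates equal to zero lies in
the ideal generated by the two variables. -/
theorem mem_span_of_vanish {k : Type} [Field k] [Infinite k] (i j : Fin 6)
    (p : MvPolynomial (Fin 6) k)
    (h : ∀ s : Fin 6 → k, s i = 0 → s j = 0 → MvPolynomial.eval s p = 0) :
    p ∈ Ideal.span ({X i, X j} : Set (MvPolynomial (Fin 6) k)) := by
  classical
  set φ : MvPolynomial (Fin 6) k →ₐ[k] MvPolynomial (Fin 6) k :=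
    MvPolynomial.aeval (fun l => if l = i ∨ l = j then 0 else X l) with hφ
  have h1 : φ p = 0 := by
    apply MvPolynomial.funext
    intro s
    rw [map_zero]
    have e : MvPolynomial.eval s (φ p) =
        MvPolynomial.eval (fun l => if l = i ∨ l = j then 0 else s l) p := by
      have e1 : (MvPolynomial.eval s).comp (φ : MvPolynomial (Fin 6) k →+* _) =
          MvPolynomial.eval (fun l => if l = i ∨ l = j then 0 else s l) := by
        apply MvPolynomial.ringHom_ext
        · intro c
          simp [hφ]
        · intro l
          simp only [RingHom.comp_apply, RingHom.coe_coe, hφ, MvPolynomial.aeval_X,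
            MvPolynomial.eval_X]
          split_ifs
          · exact map_zero _
          · exact MvPolynomial.eval_X l
      exact congrArg (fun f => f p) e1
    rw [e]
    exact h _ (by simp) (by simp)
  have h2 : ∀ q : MvPolynomial (Fin 6) k,
      q - φ q ∈ Ideal.span ({X i, X j} : Set (MvPolynomial (Fin 6) k)) := by
    intro q
    induction q using MvPolynomial.induction_on with
    | C c =>
      rw [hφ, MvPolynomial.aeval_C, MvPolynomial.algebraMap_eq, sub_self]
      exact zero_mem _
    | add p q hp hq =>
      rw [map_add]
      have e : p + q - (φ p + φ q) = (p - φ p) + (q - φ q) := by ring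
      rw [e]
      exact add_mem hp hq
    | mul_X p l hp =>
      rw [map_mul]
      have e : p * X l - φ p * φ (X l) = (p - φ p) * X l + φ p * (X l - φ (X l)) := by ring
      rw [e]
      refine add_mem (Ideal.mul_mem_right _ _ hp) (Ideal.mul_mem_left _ _ ?_)
      rw [hφ, MvPolynomial.aeval_X]
      by_cases hl : l = i ∨ l = j
      · rw [if_pos hl, sub_zero]
        apply Ideal.subset_span
        rcases hl with rfl | rfl
        · exact Set.mem_insert _ _
        · exact Set.mem_insert_of_mem _ rfl
      · rw [if_neg hl, sub_self]
        exact zero_mem _
  have h3 := h2 p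
  rwa [h1, sub_zero] at h3

end Q30.FK
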