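import Pool.Agent.Q30.FK.Ev2
import Pool.Agent.Q30.FK.Pol

/-!
# The reduced cohomology ring is not Cohen-Macaulay
-/

namespace Q30.FK

open MvPolynomial

variable {k : Type} [Field k] [CharP k 2]

/-- The cohomology ring of the second Frobenius kernel of the Borel subgroup. -/
abbrev HB (k : Type) [Field k] [CharP k 2] : Type 1 := HH k (En k 8)

/-- The homomorphism of the polynomial ring to the reduced cohomology ring. -/
noncomputable def strR (hc : P_CLS) : MvPolynomial (Fin 6) k →+* HB k ⧸ nilradical (HB k) :=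
  (Ideal.Quotient.mk _).comp (str hc (En k 8))

theorem strR_finite (J : Jobs) : (strR (k := k) J.cls).Finite :=
  RingHom.Finite.comp (RingHom.Finite.of_surjective _ Ideal.Quotient.mk_surjective) (fin_all J)

theorem strR_zero (J : Jobs) (i j : Fin 6) (hi : i = 0 ∨ i = 1) (hj : j = 2 ∨ j = 3) :
    strR (k := k) J.cls (X i * X j) = 0 := by
  change Ideal.Quotient.mk _ (str J.cls (En k 8) (X i * X j)) = 0
  rw [Ideal.Quotient.eq_zero_iff_mem, mem_nilradical]
  exact nil_eight J i j hi hj

theorem strR_eq_zero (hc : P_CLS) {p : MvPolynomial (Fin 6) k} (h : strR hc p = 0) :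
    IsNilpotent (str hc (En k 8) p) := by
  change Ideal.Quotient.mk _ (str hc (En k 8) p) = 0 at h
  rwa [Ideal.Quotient.eq_zero_iff_mem, mem_nilradical] at h

theorem eval_eq_zero (hc : P_CLS) {p : MvPolynomial (Fin 6) k} (h : strR hc p = 0)
    (s : Fin 6 → k) (ψ : HH k (En k 8) →+* k) (h0 : ∀ c, ψ (cstH _ c) = c)
    (h1 : ∀ i, ψ (str hc _ (X i)) = s i) : MvPolynomial.eval s p = 0 := by
  have e : ψ.comp (str hc (En k 8)) = MvPolynomial.eval s := by
    apply MvPolynomial.ringHom_ext
    · intro c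
      rw [RingHom.comp_apply, str_C, h0, MvPolynomial.eval_C]
    · intro i
      rw [RingHom.comp_apply, h1, MvPolynomial.eval_X]
  have e1 : MvPolynomial.eval s p = ψ (str hc (En k 8) p) :=
    (congrArg (fun f => f p) e).symm
  rw [e1]
  exact ((strR_eq_zero hc h).map ψ).eq_zero

theorem exists_root [IsAlgClosed k] (c : k) : ∃ x : k, x ^ 4 = c :=
  IsAlgClosed.exists_pow_nat_eq c (by norm_num)

theorem ker_one [IsAlgClosed k] (J : Jobs) (p : MvPolynomial (Fin 6) k)
    (h : strR J.cls p = 0) :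
    p ∈ Ideal.span ({X 0, X 1} : Set (MvPolynomial (Fin 6) k)) := by
  apply mem_span_of_vanish
  intro s s0 s1
  obtain ⟨x2, h2⟩ := exists_root (s 2)
  obtain ⟨x3, h3⟩ := exists_root (s 3)
  obtain ⟨x4, h4⟩ := exists_root (s 4)
  obtain ⟨x5, h5⟩ := exists_root (s 5)
  obtain ⟨ψ, g, g0, g1, g2, g3, g4, g5⟩ := ev_one J.cls J.evg x3 x2 x5 x4
  refine eval_eq_zero J.cls h s ψ g (fun i => ?_)
  fin_cases i
  · exact g0.trans s0.symm
  · exact g1.trans s1.symm
  · exact g2.trans h2
  · exact g3.trans h3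
  · exact g4.trans h4
  · exact g5.trans h5

theorem ker_two [IsAlgClosed k] (J : Jobs) (p : MvPolynomial (Fin 6) k)
    (h : strR J.cls p = 0) :
    p ∈ Ideal.span ({X 2, X 3} : Set (MvPolynomial (Fin 6) k)) := by
  apply mem_span_of_vanish
  intro s s2 s3
  obtain ⟨x0, h0⟩ := exists_root (s 0)
  obtain ⟨x1, h1⟩ := exists_root (s 1)
  obtain ⟨x4, h4⟩ := exists_root (s 4)
  obtain ⟨x5, h5⟩ := exists_root (s 5)
  obtain ⟨ψ, g, g0, g1, g2, g3, g4, g5⟩ := ev_two J.cls J.evg x1 x0 x5 x4
  refine eval_eq_zero J.cls h s ψ g (fun i => ?_)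
  fin_cases i
  · exact g0.trans h0
  · exact g1.trans h1
  · exact g2.trans s2.symm
  · exact g3.trans s3.symm
  · exact g4.trans h4
  · exact g5.trans h5

/-- A class of degree zero is a constant. -/
theorem deg_zero (F : Ch k) (hF : F ∈ inv k (En k 8)) (h0 : Hom 0 F) :
    F = cst (ev0 F) := by
  refine ch_ext (fun X n g => ?_)
  cases n with
  | zero =>
    rw [cst_apply, if_pos rfl, ← hF X (g 0)⁻¹ (Set.mem_univ _) 0 g]
    exact ev0_eq F X _ (inv_mul_cancel (g 0))
  | succ n =>
    rw [h0 X (n + 1) g (by omega), cst_apply, if_neg (by omega)]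

theorem unique_max (J : Jobs) (m m' : Ideal (HB k)) (hm : m.IsMaximal) (hm' : m'.IsMaximal)
    (h : ∀ i, str J.cls (En k 8) (X i) ∈ m) (h' : ∀ i, str J.cls (En k 8) (X i) ∈ m') :
    m = m' := by
  let a1 : Algebra (MvPolynomial (Fin 6) k) (HB k) := (str J.cls (En k 8)).toAlgebra
  have : Module.Finite (MvPolynomial (Fin 6) k) (HB k) := fin_all J
  obtain ⟨C, C1, C2⟩ := J.gr k (En k 8)
  exact J.loc k (HB k) C degc degc_pos
    (fun j => by
      change C.pr (degc j) (str J.cls _ (X j)) = str J.cls _ (X j)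
      rw [str_X]
      exact C1 (degc j) (cls k j) (cls_mem J.cls _ j) (cls_d J.cls j) ((J.cls k).1 j).2.2)
    (fun c => by
      change C.pr 0 (str J.cls _ (MvPolynomial.C c)) = str J.cls _ (MvPolynomial.C c)
      rw [str_C]
      exact C1 0 (cst c) (cst_mem c _) (d_cst c) (hom_cst c))
    (fun x hx => by
      obtain ⟨F, hF, hd, h0, rfl⟩ := C2 0 x hx
      refine ⟨ev0 F, ?_⟩
      change _ = str J.cls _ (MvPolynomial.C (ev0 F))
      rw [str_C]
      change _ = cl _ (cst (ev0 F)) (cst_mem _ _) (d_cst _)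
      rw [cl_eq]
      refine ⟨0, zero_mem _, ?_⟩
      rw [map_zero, ← deg_zero F hF h0, sub_self])
    m m' hm hm' h h'

theorem main (J : Jobs) (k : Type) [Field k] [CharP k 2] [IsAlgClosed k] :
    IsNoetherianRing (HB k ⧸ nilradical (HB k)) ∧
      ∃ (m : Ideal (HB k ⧸ nilradical (HB k))) (_ : m.IsMaximal),
        ¬ IsCMLocal (Localization.AtPrime m) := by
  have hfin := strR_finite (k := k) J
  constructor
  · let a1 : Algebra (MvPolynomial (Fin 6) k) (HB k ⧸ nilradical (HB k)) :=
      (strR J.cls).toAlgebra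
    have : Module.Finite (MvPolynomial (Fin 6) k) (HB k ⧸ nilradical (HB k)) := hfin
    exact IsNoetherianRing.of_finite (MvPolynomial (Fin 6) k) _
  · obtain ⟨ψ, g, g0, g1, g2, g3, g4, g5⟩ := ev_one (k := k) J.cls J.evg 0 0 0 0
    have hz : ∀ i : Fin 6, ψ (str J.cls _ (X i)) = 0 := by
      intro i
      fin_cases i
      · exact g0
      · exact g1
      · exact g2.trans (zero_pow (by norm_num))
      · exact g3.trans (zero_pow (by norm_num))
      · exact g4.trans (zero_pow (by norm_num))
      · exact g5.trans (zero_pow (by norm_num))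
    have hs : Function.Surjective ψ := fun c => ⟨_, g c⟩
    have hM : (RingHom.ker ψ).IsMaximal := RingHom.ker_isMaximal_of_surjective ψ hs
    set q := Ideal.Quotient.mk (nilradical (HB k)) with hq
    have hqs : Function.Surjective q := Ideal.Quotient.mk_surjective
    have hle : RingHom.ker q ≤ RingHom.ker ψ := by
      intro x hx
      rw [RingHom.mem_ker, hq, Ideal.Quotient.eq_zero_iff_mem, mem_nilradical] at hx
      rw [RingHom.mem_ker]
      exact (hx.map ψ).eq_zero
    set m := Ideal.map q (RingHom.ker ψ) with hmdef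
    have hcm : Ideal.comap q m = RingHom.ker ψ := by
      rw [hmdef, Ideal.comap_map_of_surjective' q hqs, sup_eq_left]
      exact hle
    have hmax : m.IsMaximal := by
      have h := Ideal.map_eq_top_or_isMaximal_of_surjective q hqs hM
      rcases h with h | h
      · exfalso
        apply hM.ne_top
        rw [← hcm, hmdef, h, Ideal.comap_top]
      · exact h
    refine ⟨m, hmax, ?_⟩
    have hX : ∀ i, strR J.cls (X i) ∈ m := fun i =>
      Ideal.mem_map_of_mem q ((RingHom.mem_ker).mpr (hz i))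
    refine J.cm k (HB k ⧸ nilradical (HB k)) (strR J.cls) hfin
      (strR_zero J 0 2 (Or.inl rfl) (Or.inl rfl)) (strR_zero J 0 3 (Or.inl rfl) (Or.inr rfl))
      (strR_zero J 1 2 (Or.inr rfl) (Or.inl rfl)) (strR_zero J 1 3 (Or.inr rfl) (Or.inr rfl))
      (ker_one J) (ker_two J) m hX ?_
    intro m' hm' h'
    have e : Ideal.comap q m' = Ideal.comap q m :=
      unique_max J _ _ (Ideal.comap_isMaximal_of_surjective q hqs)
        (Ideal.comap_isMaximal_of_surjective q hqs) (fun i => h' i) (fun i => hX i)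
    exact Ideal.comap_injective_of_surjective q hqs e

end Q30.FK
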