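import Pool.Agent.Q30.FK.Fin

/-!
# Nilpotent products
-/

namespace Q30.FK

open MvPolynomial

variable {k : Type} [Field k] [CharP k 2]

theorem hh_add_self {E : ∀ X : Alg k, Set (Bor X)} (x : HH k E) : x + x = 0 := by
  obtain ⟨F, hF, hd, rfl⟩ := cl_surj x
  rw [cl_add, cl_eq_zero]
  exact ⟨0, zero_mem _, by rw [map_zero, ch_add_self]⟩

theorem nil_six (hc : P_CLS) (i j : Fin 6) (hi : i = 0 ∨ i = 1) (hj : j = 2 ∨ j = 3) :
    (str hc (En k 6) (X i) * str hc (En k 6) (X j)) ^ 2 = 0 := by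
  obtain ⟨-, g1, g2, g3, a1, a2, b1, b2, r1, r2, r3, -⟩ := hc k
  set A := cl (En k 6) (dCh (fa k)) a1 (dCh_dCh _) with hA
  set A' := cl (En k 6) (dCh (fa k * fa k)) a2 (dCh_dCh _) with hA'
  set B := cl (En k 6) (dCh (fb k)) b1 (dCh_dCh _) with hB
  set B' := cl (En k 6) (dCh (fb k * fb k)) b2 (dCh_dCh _) with hB'
  have e1 : A * B = 0 := by
    rw [hA, hB, cl_mul, cl_eq_zero]
    exact ⟨gam k, g1, r1⟩
  have e2 : A' * B' = 0 := by
    rw [hA', hB', cl_mul, cl_eq_zero]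
    exact ⟨gam' k, g2, r2⟩
  have e3 : A' * B * B + A * A * B' = 0 := by
    rw [hA, hB, hA', hB']
    simp only [cl_mul, cl_add]
    rw [cl_eq_zero]
    exact ⟨sq (gam k), g3, r3⟩
  have e4 : A' * B ^ 2 = A ^ 2 * B' := by
    have h := hh_add_self (A ^ 2 * B')
    linear_combination e3 - h
  have x0 : str hc (En k 6) (X 0) = A ^ 4 := by
    rw [str_X, hA, cl_pow]
    rfl
  have x1 : str hc (En k 6) (X 1) = A' ^ 2 := by
    rw [str_X, hA', cl_pow]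
    rfl
  have x2 : str hc (En k 6) (X 2) = B ^ 4 := by
    rw [str_X, hB, cl_pow]
    rfl
  have x3 : str hc (En k 6) (X 3) = B' ^ 2 := by
    rw [str_X, hB', cl_pow]
    rfl
  have f1 : A ^ 4 * B ^ 4 = 0 := by
    linear_combination (A ^ 3 * B ^ 3) * e1
  have f2 : A' ^ 2 * B' ^ 2 = 0 := by
    linear_combination (A' * B') * e2
  have f3 : A' ^ 2 * B ^ 4 = A ^ 4 * B' ^ 2 := by
    linear_combination (A' * B ^ 2 + A ^ 2 * B') * e4
  rcases hi with rfl | rfl <;> rcases hj with rfl | rfl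
  · rw [x0, x2, f1]
    ring
  · rw [x0, x3]
    calc (A ^ 4 * B' ^ 2) ^ 2 = (A ^ 4 * B' ^ 2) * (A' ^ 2 * B ^ 4) := by rw [f3]; ring
      _ = (A ^ 4 * B ^ 4) * (A' ^ 2 * B' ^ 2) := by ring
      _ = 0 := by rw [f1, zero_mul]
  · rw [x1, x2]
    calc (A' ^ 2 * B ^ 4) ^ 2 = (A' ^ 2 * B ^ 4) * (A ^ 4 * B' ^ 2) := by rw [← f3]; ring
      _ = (A ^ 4 * B ^ 4) * (A' ^ 2 * B' ^ 2) := by ring
      _ = 0 := by rw [f1, zero_mul]
  · rw [x1, x3, f2]
    ring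

theorem nil_eight (J : Jobs) (i j : Fin 6) (hi : i = 0 ∨ i = 1) (hj : j = 2 ∨ j = 3) :
    IsNilpotent (str J.cls (En k 8) (X i * X j)) := by
  refine ⟨2, ?_⟩
  apply res_inj 7 (by norm_num) J.tor7
  rw [map_zero]
  apply res_inj 6 (by norm_num) J.tor6
  rw [map_zero, map_pow, map_pow, res_str J.cls, res_str J.cls, map_mul]
  exact nil_six J.cls i j hi hj

end Q30.FK
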