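import Pool.Agent.Q30.FK.Main
import Pool.Agent.Q30.FK.Comm
import Pool.Agent.Q30.FK.CM

/-!
# The reduced cohomology ring of the second Frobenius kernel of the Borel subgroup
-/

namespace Q30.FK

theorem main_aux (J : Jobs) (k : Type) [Field k] [CharP k 2] [IsAlgClosed k] :
    IsNoetherianRing (HB k ⧸ nilradical (HB k)) ∧ ¬ IsCMRing (HB k ⧸ nilradical (HB k)) := by
  obtain ⟨h1, m, hm, h2⟩ := main J k
  exact ⟨h1, fun h => h2 (@h.2 m hm)⟩

theorem main_gen (J : Jobs) (k : Type) [Field k] [CharP k 2] [IsAlgClosed k]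
    (S : Subring (Ch k)) (hS : S = inv k (fun _ => Set.univ))
    (comm : ∀ x y : (dg k).Z S ⧸ (dg k).B S, x * y = y * x) :
    letI : CommRing ((dg k).Z S ⧸ (dg k).B S) :=
      { Ideal.Quotient.ring ((dg k).B S) with mul_comm := comm }
    IsNoetherianRing (((dg k).Z S ⧸ (dg k).B S) ⧸ nilradical ((dg k).Z S ⧸ (dg k).B S)) ∧
      ¬ IsCMRing (((dg k).Z S ⧸ (dg k).B S) ⧸ nilradical ((dg k).Z S ⧸ (dg k).B S)) := by
  subst hS
  exact main_aux J k

theorem main' (J : Jobs) (k : Type) [Field k] [CharP k 2] [IsAlgClosed k] :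
    IsNoetherianRing (RedB k) ∧ ¬ IsCMRing (RedB k) :=
  main_gen J k (invB k) (invB_eq k) (coh_mul_comm k)

end Q30.FK
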