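import Mathlib

/-!
# Homogeneous cochains as functions of sequences

`Ser Γ A` consists of the families `F` of functions `F n` of sequences in `Γ` with values in the
commutative ring `A`.  The product is the cup product, where `F n` is thought of as a function of
the first `n + 1` entries.
-/

universe u v

namespace Q30.FK

open Finset

/-- Families of functions of sequences. -/
def Ser (Γ : Type u) (A : Type v) : Type (max u v) := ℕ → (ℕ → Γ) → A

namespace Ser

variable {Γ : Type u} {A : Type v} [CommRing A]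

instance : AddCommGroup (Ser Γ A) := Pi.addCommGroup

/-- The shifted sequence. -/
def sh (m : ℕ) (g : ℕ → Γ) : ℕ → Γ := fun i => g (i + m)

theorem sh_sh (m n : ℕ) (g : ℕ → Γ) : sh m (sh n g) = sh (m + n) g := by
  funext i
  simp [sh, add_assoc]

theorem sh_zero (g : ℕ → Γ) : sh 0 g = g := rfl

instance : Mul (Ser Γ A) :=
  ⟨fun F G N g => ∑ p ∈ antidiagonal N, F p.1 g * G p.2 (sh p.1 g)⟩

instance : One (Ser Γ A) := ⟨fun N _ => if N = 0 then 1 else 0⟩

theorem mul_apply (F G : Ser Γ A) (N : ℕ) (g : ℕ → Γ) :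
    (F * G) N g = ∑ p ∈ antidiagonal N, F p.1 g * G p.2 (sh p.1 g) := rfl

theorem one_apply (N : ℕ) (g : ℕ → Γ) : (1 : Ser Γ A) N g = if N = 0 then 1 else 0 := rfl

theorem add_apply (F G : Ser Γ A) (N : ℕ) (g : ℕ → Γ) : (F + G) N g = F N g + G N g := rfl

theorem zero_apply (N : ℕ) (g : ℕ → Γ) : (0 : Ser Γ A) N g = 0 := rfl

theorem neg_apply (F : Ser Γ A) (N : ℕ) (g : ℕ → Γ) : (-F) N g = -F N g := rfl

theorem sub_apply (F G : Ser Γ A) (N : ℕ) (g : ℕ → Γ) : (F - G) N g = F N g - G N g := rfl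

omit [CommRing A] in
@[ext] theorem ext {F G : Ser Γ A} (h : ∀ N g, F N g = G N g) : F = G := by
  funext N g
  exact h N g

theorem mul_assoc' (F G K : Ser Γ A) : F * G * K = F * (G * K) := by
  ext N g
  simp only [mul_apply, sum_mul, mul_sum, sum_sigma']
  refine sum_nbij' (fun ⟨⟨_i, j⟩, ⟨k, l⟩⟩ => ⟨(k, l + j), (l, j)⟩)
    (fun ⟨⟨i, _j⟩, ⟨k, l⟩⟩ => ⟨(i + k, l), (i, k)⟩) ?_ ?_ ?_ ?_ ?_
  · rintro ⟨⟨i, j⟩, ⟨k, l⟩⟩ h
    simp only [mem_sigma, HasAntidiagonal.mem_antidiagonal] at h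
    obtain ⟨h1, h2⟩ := h
    rw [mem_sigma, HasAntidiagonal.mem_antidiagonal, HasAntidiagonal.mem_antidiagonal]
    exact ⟨by dsimp only; omega, by dsimp only⟩
  · rintro ⟨⟨i, j⟩, ⟨k, l⟩⟩ h
    simp only [mem_sigma, HasAntidiagonal.mem_antidiagonal] at h
    obtain ⟨h1, h2⟩ := h
    rw [mem_sigma, HasAntidiagonal.mem_antidiagonal, HasAntidiagonal.mem_antidiagonal]
    exact ⟨by dsimp only; omega, by dsimp only⟩
  · rintro ⟨⟨i, j⟩, ⟨k, l⟩⟩ h
    simp only [mem_sigma, HasAntidiagonal.mem_antidiagonal] at h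
    obtain ⟨h1, h2⟩ := h
    subst h2
    rfl
  · rintro ⟨⟨i, j⟩, ⟨k, l⟩⟩ h
    simp only [mem_sigma, HasAntidiagonal.mem_antidiagonal] at h
    obtain ⟨h1, h2⟩ := h
    subst h2
    rfl
  · rintro ⟨⟨i, j⟩, ⟨k, l⟩⟩ h
    simp only [mem_sigma, HasAntidiagonal.mem_antidiagonal] at h
    obtain ⟨h1, h2⟩ := h
    subst h2
    simp only [sh_sh]
    rw [mul_assoc, add_comm l k]

theorem one_mul' (F : Ser Γ A) : 1 * F = F := by
  ext N g
  rw [mul_apply, sum_eq_single (0, N)]
  · simp [one_apply, sh_zero]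
  · rintro ⟨i, j⟩ h hne
    rw [HasAntidiagonal.mem_antidiagonal] at h
    rw [one_apply, if_neg, zero_mul]
    rintro rfl
    apply hne
    simp only at h
    rw [← h, zero_add]
  · intro h
    exact absurd (by simp) h

theorem mul_one' (F : Ser Γ A) : F * 1 = F := by
  ext N g
  rw [mul_apply, sum_eq_single (N, 0)]
  · simp [one_apply]
  · rintro ⟨i, j⟩ h hne
    rw [HasAntidiagonal.mem_antidiagonal] at h
    rw [one_apply, if_neg, mul_zero]
    intro hj
    apply hne
    simp only at h hj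
    rw [← h, hj, add_zero]
  · intro h
    exact absurd (by simp) h

theorem mul_add' (F G K : Ser Γ A) : F * (G + K) = F * G + F * K := by
  ext N g
  rw [add_apply, mul_apply, mul_apply, mul_apply, ← sum_add_distrib]
  exact sum_congr rfl (fun p _ => by rw [add_apply, mul_add])

theorem add_mul' (F G K : Ser Γ A) : (F + G) * K = F * K + G * K := by
  ext N g
  rw [add_apply, mul_apply, mul_apply, mul_apply, ← sum_add_distrib]
  exact sum_congr rfl (fun p _ => by rw [add_apply, add_mul])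

theorem zero_mul' (F : Ser Γ A) : 0 * F = 0 := by
  ext N g
  rw [mul_apply, zero_apply]
  exact sum_eq_zero (fun p _ => by rw [zero_apply, zero_mul])

theorem mul_zero' (F : Ser Γ A) : F * 0 = 0 := by
  ext N g
  rw [mul_apply, zero_apply]
  exact sum_eq_zero (fun p _ => by rw [zero_apply, mul_zero])

instance : Ring (Ser Γ A) where
  mul_assoc := mul_assoc'
  one_mul := one_mul'
  mul_one := mul_one'
  left_distrib := mul_add'
  right_distrib := add_mul'
  zero_mul := zero_mul'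
  mul_zero := mul_zero'
  zsmul := fun n F => n • F
  zsmul_zero' := SubNegMonoid.zsmul_zero'
  zsmul_succ' := SubNegMonoid.zsmul_succ'
  zsmul_neg' := SubNegMonoid.zsmul_neg'
  neg_add_cancel := neg_add_cancel
  sub_eq_add_neg := sub_eq_add_neg

end Ser

end Q30.FK
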