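import Pool.Agent.Q30.FK.Stm
import Pool.Agent.Q30.FK.Contr

/-!
# Statements of the lemmas on the cochains
-/

namespace Q30.FK

/-- The cochain of degree zero which generates the functions on the quotient of two consecutive
groups of the chain. -/
def stepElt (k : Type) [Field k] [CharP k 2] (i : ℕ) : Ch k :=
  match i with
  | 0 => fc k
  | 1 => fc k * fc k
  | 2 => fb k
  | 3 => fb k * fb k
  | 4 => fa k
  | _ => fa k * fa k

/-- Jobs STEP.  One step of the chain of the unipotent subgroups. -/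
def P_STEP (i : ℕ) : Prop :=
  ∀ (k : Type) [Field k] [CharP k 2], ∃ D : Ch k →+ Ch k,
    (∀ F ∈ inv k (En k i), D F ∈ inv k (En k (i + 1))) ∧
    (∀ F ∈ inv k (En k i), F - stepElt k i * D F ∈ inv k (En k (i + 1))) ∧
    (∀ F ∈ inv k (En k (i + 1)), D F = 0) ∧
    (∀ F, dCh (D F) = D (dCh F))

/-- Job TOR (for `i = 6` and `i = 7`).  One step of the chain given by a torus of rank one. -/
def P_TOR (i : ℕ) : Prop :=
  ∀ (k : Type) [Field k] [CharP k 2], ∃ π : Ch k →+ Ch k,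
    (∀ F ∈ inv k (En k i), π F ∈ inv k (En k (i + 1))) ∧
    (∀ F ∈ inv k (En k (i + 1)), π F = F) ∧
    (∀ F, dCh (π F) = π (dCh F))

/-- The degrees of the six classes. -/
def degc (i : Fin 6) : ℕ :=
  match i with
  | 0 => 4
  | 1 => 2
  | 2 => 4
  | 3 => 2
  | 4 => 4
  | 5 => 2

/-- Job CLS.  Formulas for the basic cochains. -/
def P_CLS : Prop :=
  ∀ (k : Type) [Field k] [CharP k 2],
    (∀ i, cls k i ∈ inv k (En k 8) ∧ dCh (cls k i) = 0 ∧ Hom (degc i) (cls k i)) ∧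
    gam k ∈ inv k (En k 6) ∧ gam' k ∈ inv k (En k 6) ∧ sq (gam k) ∈ inv k (En k 6) ∧
    dCh (fa k) ∈ inv k (En k 6) ∧ dCh (fa k * fa k) ∈ inv k (En k 6) ∧
    dCh (fb k) ∈ inv k (En k 6) ∧ dCh (fb k * fb k) ∈ inv k (En k 6) ∧
    dCh (gam k) = dCh (fa k) * dCh (fb k) ∧
    dCh (gam' k) = dCh (fa k * fa k) * dCh (fb k * fb k) ∧
    dCh (sq (gam k)) = dCh (fa k * fa k) * dCh (fb k) * dCh (fb k) +
      dCh (fa k) * dCh (fa k) * dCh (fb k * fb k) ∧
    cup1 (dCh (gam' k)) (dCh (gam' k)) = 0 ∧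
    dCh (vv k) = cup1 (dCh (sq (gam k))) (dCh (sq (gam k)))

/-- Job IDN.  The restrictions of the last two classes to the centre. -/
def P_IDN : Prop :=
  ∀ (k : Type) [Field k] [CharP k 2],
    (∃ y ∈ inv k (En k 2), dCh y = cls k 4 - dCh (fc k) ^ 4) ∧
    (∃ y ∈ inv k (En k 2), dCh y = cls k 5 - dCh (fc k * fc k) ^ 2)

/-- Job EVG.  The evaluation at a one-parameter subgroup. -/
def P_EVG : Prop :=
  ∀ (k : Type) [Field k] [CharP k 2] (p : Path k) (E : ∀ X : Alg k, Set (Bor X)),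
    (∀ (X : Alg k) (x : X.A) (hx : x ^ 4 = 0), p.h X x hx ∈ E X) →
    ∃ e : Ch k →+ k,
      (∀ c : k, e (cst c) = c) ∧
      (∀ F, ∀ G ∈ inv k E, e (F * G) = e F * e G) ∧
      (∀ F ∈ inv k E, e (dCh F) = 0) ∧
      (∀ F, Hom 1 F → e F = cfA (kk k) 2 (F.1 (t4 (kk k)) 1
        (Ser.cons 1 (fun _ => p.h (t4 (kk k)) (xA (kk k)) (xA_four (kk k)))))) ∧
      (∀ W : ∀ X : Alg k, Subgroup (Bor X),
        (∀ (X : Alg k) (x : X.A) (hx : x ^ 4 = 0), p.h X x hx ∈ W X) →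
        (∀ (X Y : Alg k) (φ : X.A →ₐ[k] Y.A), ∀ g ∈ W X, Bor.map φ g ∈ W Y) →
        ∀ F : Ch k, (∀ (X : Alg k) (n : ℕ) (g : ℕ → Bor X), (∀ i, g i ∈ W X) →
          F.1 X n g = 0) → e F = 0)

/-- Job GR.  The cohomology rings are graded. -/
def P_GR : Prop :=
  ∀ (k : Type) [Field k] [CharP k 2] (E : ∀ X : Alg k, Set (Bor X)), ∃ C : Comp (HH k E),
    (∀ (n : ℕ) (F : Ch k) (hF : F ∈ inv k E) (hd : dCh F = 0), Hom n F →
      C.pr n (cl E F hF hd) = cl E F hF hd) ∧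
    (∀ (n : ℕ) (x : HH k E), C.pr n x = x →
      ∃ (F : Ch k) (hF : F ∈ inv k E) (hd : dCh F = 0), Hom n F ∧ x = cl E F hF hd)

end Q30.FK
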