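import Pool.Agent.Q30.FK.Elt

/-!
# The truncated polynomial ring `A[x] / x ^ 4`

We also define the coefficients of the translation of a cochain by a one-parameter subgroup.
-/

namespace Q30.FK

open Matrix

/-- The truncated polynomial ring `A[x] / x ^ 4`. -/
@[ext] structure T4 (A : Type) where
  /-- The constant coefficient. -/
  c0 : A
  /-- The coefficient of `x`. -/
  c1 : A
  /-- The coefficient of `x ^ 2`. -/
  c2 : A
  /-- The coefficient of `x ^ 3`. -/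
  c3 : A

namespace T4

variable {A B : Type} [CommRing A] [CommRing B]

instance : Zero (T4 A) := ⟨⟨0, 0, 0, 0⟩⟩
instance : One (T4 A) := ⟨⟨1, 0, 0, 0⟩⟩
instance : Add (T4 A) := ⟨fun x y => ⟨x.c0 + y.c0, x.c1 + y.c1, x.c2 + y.c2, x.c3 + y.c3⟩⟩
instance : Neg (T4 A) := ⟨fun x => ⟨-x.c0, -x.c1, -x.c2, -x.c3⟩⟩
instance : Mul (T4 A) := ⟨fun x y => ⟨x.c0 * y.c0, x.c0 * y.c1 + x.c1 * y.c0,
  x.c0 * y.c2 + x.c1 * y.c1 + x.c2 * y.c0,
  x.c0 * y.c3 + x.c1 * y.c2 + x.c2 * y.c1 + x.c3 * y.c0⟩⟩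

@[simp] theorem zero_c0 : (0 : T4 A).c0 = 0 := rfl
@[simp] theorem zero_c1 : (0 : T4 A).c1 = 0 := rfl
@[simp] theorem zero_c2 : (0 : T4 A).c2 = 0 := rfl
@[simp] theorem zero_c3 : (0 : T4 A).c3 = 0 := rfl
@[simp] theorem one_c0 : (1 : T4 A).c0 = 1 := rfl
@[simp] theorem one_c1 : (1 : T4 A).c1 = 0 := rfl
@[simp] theorem one_c2 : (1 : T4 A).c2 = 0 := rfl
@[simp] theorem one_c3 : (1 : T4 A).c3 = 0 := rfl
@[simp] theorem add_c0 (x y : T4 A) : (x + y).c0 = x.c0 + y.c0 := rfl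
@[simp] theorem add_c1 (x y : T4 A) : (x + y).c1 = x.c1 + y.c1 := rfl
@[simp] theorem add_c2 (x y : T4 A) : (x + y).c2 = x.c2 + y.c2 := rfl
@[simp] theorem add_c3 (x y : T4 A) : (x + y).c3 = x.c3 + y.c3 := rfl
@[simp] theorem neg_c0 (x : T4 A) : (-x).c0 = -x.c0 := rfl
@[simp] theorem neg_c1 (x : T4 A) : (-x).c1 = -x.c1 := rfl
@[simp] theorem neg_c2 (x : T4 A) : (-x).c2 = -x.c2 := rfl
@[simp] theorem neg_c3 (x : T4 A) : (-x).c3 = -x.c3 := rfl
@[simp] theorem mul_c0 (x y : T4 A) : (x * y).c0 = x.c0 * y.c0 := rfl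
@[simp] theorem mul_c1 (x y : T4 A) : (x * y).c1 = x.c0 * y.c1 + x.c1 * y.c0 := rfl
@[simp] theorem mul_c2 (x y : T4 A) :
    (x * y).c2 = x.c0 * y.c2 + x.c1 * y.c1 + x.c2 * y.c0 := rfl
@[simp] theorem mul_c3 (x y : T4 A) :
    (x * y).c3 = x.c0 * y.c3 + x.c1 * y.c2 + x.c2 * y.c1 + x.c3 * y.c0 := rfl

instance : CommRing (T4 A) where
  add_assoc x y z := by ext <;> simp <;> ring
  zero_add x := by ext <;> simp
  add_zero x := by ext <;> simp
  add_comm x y := by ext <;> simp <;> ring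
  neg_add_cancel x := by ext <;> simp
  left_distrib x y z := by ext <;> simp <;> ring
  right_distrib x y z := by ext <;> simp <;> ring
  zero_mul x := by ext <;> simp
  mul_zero x := by ext <;> simp
  mul_assoc x y z := by ext <;> simp <;> ring
  one_mul x := by ext <;> simp
  mul_one x := by ext <;> simp
  mul_comm x y := by ext <;> simp <;> ring
  nsmul := nsmulRec
  zsmul := zsmulRec

/-- The constants. -/
def inc : A →+* T4 A where
  toFun a := ⟨a, 0, 0, 0⟩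
  map_zero' := rfl
  map_one' := rfl
  map_add' a b := by ext <;> simp
  map_mul' a b := by ext <;> simp

theorem inc_apply (a : A) : inc a = ⟨a, 0, 0, 0⟩ := rfl

/-- The variable. -/
def xx : T4 A := ⟨0, 1, 0, 0⟩

theorem xx_two : (xx : T4 A) ^ 2 = ⟨0, 0, 1, 0⟩ := by
  rw [pow_two]
  ext <;> simp [xx]

theorem xx_three : (xx : T4 A) ^ 3 = ⟨0, 0, 0, 1⟩ := by
  rw [pow_succ, xx_two]
  ext <;> simp [xx]

theorem xx_four : (xx : T4 A) ^ 4 = 0 := by
  rw [pow_succ, xx_three]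
  ext <;> simp [xx]

theorem eq_sum (z : T4 A) :
    z = inc z.c0 + inc z.c1 * xx + inc z.c2 * xx ^ 2 + inc z.c3 * xx ^ 3 := by
  rw [xx_two, xx_three]
  ext <;> simp [xx, inc_apply]

/-- The homomorphism of rings given by the value of the variable. -/
def lift (φ : A →+* B) (y : B) (hy : y ^ 4 = 0) : T4 A →+* B where
  toFun z := φ z.c0 + φ z.c1 * y + φ z.c2 * y ^ 2 + φ z.c3 * y ^ 3
  map_zero' := by simp
  map_one' := by simp
  map_add' z w := by
    simp only [add_c0, add_c1, add_c2, add_c3, map_add]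
    ring
  map_mul' z w := by
    simp only [mul_c0, mul_c1, mul_c2, mul_c3, map_add, map_mul]
    linear_combination (-(φ z.c1 * φ w.c3 + φ z.c2 * φ w.c2 + φ z.c3 * φ w.c1) -
      (φ z.c2 * φ w.c3 + φ z.c3 * φ w.c2) * y - φ z.c3 * φ w.c3 * y ^ 2) * hy

theorem lift_apply (φ : A →+* B) (y : B) (hy : y ^ 4 = 0) (z : T4 A) :
    lift φ y hy z = φ z.c0 + φ z.c1 * y + φ z.c2 * y ^ 2 + φ z.c3 * y ^ 3 := rfl

theorem lift_inc (φ : A →+* B) (y : B) (hy : y ^ 4 = 0) (a : A) :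
    lift φ y hy (inc a) = φ a := by
  simp [lift_apply, inc_apply]

theorem lift_xx (φ : A →+* B) (y : B) (hy : y ^ 4 = 0) : lift φ y hy xx = y := by
  simp [lift_apply, xx]

/-- The coefficients as additive maps. -/
def cf (j : ℕ) : T4 A →+ A :=
  match j with
  | 0 => ⟨⟨c0, rfl⟩, fun _ _ => rfl⟩
  | 1 => ⟨⟨c1, rfl⟩, fun _ _ => rfl⟩
  | 2 => ⟨⟨c2, rfl⟩, fun _ _ => rfl⟩
  | 3 => ⟨⟨c3, rfl⟩, fun _ _ => rfl⟩
  | _ => 0

theorem cf_zero (z : T4 A) : cf 0 z = z.c0 := rfl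
theorem cf_one (z : T4 A) : cf 1 z = z.c1 := rfl
theorem cf_two (z : T4 A) : cf 2 z = z.c2 := rfl
theorem cf_three (z : T4 A) : cf 3 z = z.c3 := rfl

theorem cf_inc_mul (j : ℕ) (a : A) (z : T4 A) : cf j (inc a * z) = a * cf j z := by
  match j with
  | 0 => simp [cf_zero, inc_apply]
  | 1 => simp [cf_one, inc_apply]
  | 2 => simp [cf_two, inc_apply]
  | 3 => simp [cf_three, inc_apply]
  | j + 4 => exact (mul_zero a).symm

instance {k : Type} [Field k] [Algebra k A] : Algebra k (T4 A) :=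
  (inc.comp (algebraMap k A)).toAlgebra

theorem algebraMap_eq {k : Type} [Field k] [Algebra k A] (c : k) :
    algebraMap k (T4 A) c = inc (algebraMap k A c) := rfl

end T4

section

variable {k : Type} [Field k]

/-- The algebra `A[x] / x ^ 4`. -/
def t4 (X : Alg k) : Alg k := ⟨T4 X.A⟩

/-- The constants. -/
def incA (X : Alg k) : X.A →ₐ[k] (t4 X).A :=
  { (T4.inc : X.A →+* T4 X.A) with commutes' := fun _ => rfl }

/-- The variable. -/
def xA (X : Alg k) : (t4 X).A := (T4.xx : T4 X.A)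

theorem xA_four (X : Alg k) : xA X ^ 4 = 0 := T4.xx_four

/-- The coefficients. -/
def cfA (X : Alg k) (j : ℕ) : (t4 X).A →+ X.A := (T4.cf j : T4 X.A →+ X.A)

/-- The homomorphism given by the value of the variable. -/
def liftA {X Y : Alg k} (φ : X.A →ₐ[k] Y.A) (y : Y.A) (hy : y ^ 4 = 0) :
    (t4 X).A →ₐ[k] Y.A :=
  { (T4.lift (φ : X.A →+* Y.A) y hy : T4 X.A →+* Y.A) with
    commutes' := fun c => (T4.lift_inc (φ : X.A →+* Y.A) y hy _).trans (φ.commutes c) }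

theorem liftA_apply {X Y : Alg k} (φ : X.A →ₐ[k] Y.A) (y : Y.A) (hy : y ^ 4 = 0)
    (z : (t4 X).A) : liftA φ y hy z =
      φ (cfA X 0 z) + φ (cfA X 1 z) * y + φ (cfA X 2 z) * y ^ 2 + φ (cfA X 3 z) * y ^ 3 := rfl

theorem liftA_inc {X Y : Alg k} (φ : X.A →ₐ[k] Y.A) (y : Y.A) (hy : y ^ 4 = 0) (a : X.A) :
    liftA φ y hy (incA X a) = φ a := T4.lift_inc (φ : X.A →+* Y.A) y hy a

theorem liftA_x {X Y : Alg k} (φ : X.A →ₐ[k] Y.A) (y : Y.A) (hy : y ^ 4 = 0) :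
    liftA φ y hy (xA X) = y := T4.lift_xx (φ : X.A →+* Y.A) y hy

theorem cfA_inc_mul (X : Alg k) (j : ℕ) (a : X.A) (z : (t4 X).A) :
    cfA X j (incA X a * z) = a * cfA X j z := T4.cf_inc_mul j a z

theorem t4_ext {X : Alg k} {z w : (t4 X).A} (h0 : cfA X 0 z = cfA X 0 w)
    (h1 : cfA X 1 z = cfA X 1 w) (h2 : cfA X 2 z = cfA X 2 w) (h3 : cfA X 3 z = cfA X 3 w) :
    z = w := T4.ext h0 h1 h2 h3

theorem t4_eq {X : Alg k} (z : (t4 X).A) : z = incA X (cfA X 0 z) + incA X (cfA X 1 z) * xA X +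
    incA X (cfA X 2 z) * xA X ^ 2 + incA X (cfA X 3 z) * xA X ^ 3 :=
  T4.eq_sum z

theorem cfA_nat {X Y : Alg k} (φ : X.A →ₐ[k] Y.A) (j : ℕ) (z : (t4 X).A) :
    φ (cfA X j z) = cfA Y j (liftA ((incA Y).comp φ) (xA Y) (xA_four Y) z) := by
  have e : liftA ((incA Y).comp φ) (xA Y) (xA_four Y) z = (⟨φ (cfA X 0 z), φ (cfA X 1 z),
      φ (cfA X 2 z), φ (cfA X 3 z)⟩ : T4 Y.A) :=
    (T4.eq_sum (⟨φ (cfA X 0 z), φ (cfA X 1 z), φ (cfA X 2 z), φ (cfA X 3 z)⟩ : T4 Y.A)).symm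
  rw [e]
  match j with
  | 0 => rfl
  | 1 => rfl
  | 2 => rfl
  | 3 => rfl
  | j + 4 => exact map_zero φ

end

section

variable (k : Type) [Field k] [CharP k 2]

/-- A one-parameter subgroup whose parameter satisfies `x ^ 4 = 0`. -/
structure Path where
  /-- The element of the parameter `x`. -/
  h : ∀ (X : Alg k) (x : X.A), x ^ 4 = 0 → Bor X
  /-- Naturality. -/
  nat : ∀ (X Y : Alg k) (φ : X.A →ₐ[k] Y.A) (x : X.A) (hx : x ^ 4 = 0) (hy : φ x ^ 4 = 0),
    Bor.map φ (h X x hx) = h Y (φ x) hy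
  /-- Additivity. -/
  add : ∀ (X : Alg k) (x y : X.A) (hx : x ^ 4 = 0) (hy : y ^ 4 = 0) (hxy : (x + y) ^ 4 = 0),
    h X (x + y) hxy = h X x hx * h X y hy

variable {k}

theorem bor_map_comp {X Y Z : Alg k} (φ : X.A →ₐ[k] Y.A) (ψ : Y.A →ₐ[k] Z.A) (g : Bor X) :
    Bor.map ψ (Bor.map φ g) = Bor.map (ψ.comp φ) g := rfl

theorem bor_map_id {X : Alg k} (g : Bor X) : Bor.map (AlgHom.id k X.A) g = g := rfl

/-- The sequence over `A[x] / x ^ 4` obtained by the translation by the generic element of the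
one-parameter subgroup. -/
def Path.tg (p : Path k) (X : Alg k) (g : ℕ → Bor X) : ℕ → Bor (t4 X) :=
  fun i => p.h (t4 X) (xA X) (xA_four X) * Bor.map (incA X) (g i)

theorem Path.map_tg (p : Path k) {X Y : Alg k} (φ : X.A →ₐ[k] Y.A) (y : Y.A) (hy : y ^ 4 = 0)
    (g : ℕ → Bor X) (i : ℕ) :
    Bor.map (liftA φ y hy) (p.tg X g i) = p.h Y y hy * Bor.map φ (g i) := by
  unfold Path.tg
  rw [map_mul, bor_map_comp, p.nat _ _ (liftA φ y hy) _ _ (by rw [liftA_x]; exact hy)]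
  congr 1
  · simp only [liftA_x]
  · congr 2
    ext a
    exact liftA_inc φ y hy a

/-- The coefficient of `x ^ j` of the translation of a cochain. -/
def tr (p : Path k) (j : ℕ) : Ch k →+ Ch k where
  toFun F := ⟨fun X n g => cfA X j (F.1 (t4 X) n (p.tg X g)), by
    obtain ⟨F, F1, F2, N, F3⟩ := F
    refine ⟨?_, ?_, N, ?_⟩
    · intro X Y φ n g
      rw [cfA_nat, F1]
      congr 2
      funext i
      rw [p.map_tg]
      rfl
    · intro X n g g' h
      refine congrArg (cfA X j) (F2 (t4 X) n _ _ (fun i hi => ?_))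
      unfold Path.tg
      rw [h i hi]
    · intro n hn X g
      change cfA X j (F (t4 X) n (p.tg X g)) = 0
      rw [F3 n hn, map_zero]⟩
  map_zero' := ch_ext (fun X n g => map_zero (cfA X j))
  map_add' F G := ch_ext (fun X n g => map_add (cfA X j) (F.1 (t4 X) n (p.tg X g))
    (G.1 (t4 X) n (p.tg X g)))

theorem tr_apply (p : Path k) (j : ℕ) (F : Ch k) (X : Alg k) (n : ℕ) (g : ℕ → Bor X) :
    (tr p j F).1 X n g = cfA X j (F.1 (t4 X) n (p.tg X g)) := rfl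

theorem tr_dCh (p : Path k) (j : ℕ) (F : Ch k) : dCh (tr p j F) = tr p j (dCh F) := by
  refine ch_ext (fun X n g => ?_)
  cases n with
  | zero => exact (map_zero (cfA X j)).symm
  | succ n =>
    rw [dCh_succ, tr_apply, dCh_succ, map_sum]
    refine Finset.sum_congr rfl (fun l _ => ?_)
    rw [tr_apply]
    refine congrArg (fun s => cfA X j (F.1 (t4 X) n s)) ?_
    funext i
    unfold Path.tg Ser.skip
    split_ifs <;> rfl

/-- The value of a cochain after translation by an element of the one-parameter subgroup. -/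
theorem trans_apply (p : Path k) (F : Ch k) {X : Alg k} (n : ℕ) (g : ℕ → Bor X) (y : X.A)
    (hy : y ^ 4 = 0) : F.1 X n (fun i => p.h X y hy * g i) =
      (tr p 0 F).1 X n g + (tr p 1 F).1 X n g * y + (tr p 2 F).1 X n g * y ^ 2 +
        (tr p 3 F).1 X n g * y ^ 3 := by
  have h := F.2.1 (t4 X) X (liftA (AlgHom.id k X.A) y hy) n (p.tg X g)
  have e : (fun i => Bor.map (liftA (AlgHom.id k X.A) y hy) (p.tg X g i)) =
      fun i => p.h X y hy * g i := by
    funext i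
    rw [p.map_tg]
    rfl
  rw [e] at h
  rw [← h, liftA_apply]
  rfl

end

end Q30.FK
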